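import Pool.Agent.Lib.MP_2081ef_co.Defs

namespace Pool.Agent.Lib.MP_2081ef_co

open Finset

lemma antiweb_adj_shift {n k : ℕ} [NeZero n] (v : Fin n) (i j : ℕ) (hij : i < j) (hj : j < n)
    (h1 : k ≤ j - i) (h2 : j - i + k ≤ n) :
    (antiweb n k).Adj (v + Fin.ofNat n i) (v + Fin.ofNat n j) := by
  have hv := v.isLt
  have e1 : ((v + Fin.ofNat n i : Fin n) : ℕ) = (v + i) % n := by
    rw [Fin.val_add, Fin.val_ofNat, Nat.mod_eq_of_lt (a := i) (by omega)]
  have e2 : ((v + Fin.ofNat n j : Fin n) : ℕ) = (v + j) % n := by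
    rw [Fin.val_add, Fin.val_ofNat, Nat.mod_eq_of_lt (a := j) (by omega)]
  have key : ∀ t : ℕ, t < n → ((v : ℕ) + t) % n = v + t ∧ v + t < n ∨
      ((v : ℕ) + t) % n + n = v + t := by
    intro t ht
    by_cases h : (v : ℕ) + t < n
    · left; exact ⟨Nat.mod_eq_of_lt h, h⟩
    · right
      rw [Nat.mod_eq_sub_mod (by omega), Nat.mod_eq_of_lt (by omega)]; omega
  have a1 := key i (by omega)
  have a2 := key j hj
  refine ⟨?_, ?_, ?_⟩
  · intro h
    have := congrArg Fin.val h
    rw [e1, e2] at this
    omega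
  · rw [e1, e2, le_abs]; omega
  · rw [e1, e2, abs_le]; omega

lemma indepNum_ge {W : Type} [Fintype W] (H : SimpleGraph W) (s : Finset W)
    (hs : H.IsIndepSet (s : Set W)) : s.card ≤ H.indepNum :=
  hs.card_le_indepNum

lemma antiweb_indepNum_ge (n k : ℕ) (h : k ≤ n) : k ≤ (antiweb n k).indepNum := by
  have := indepNum_ge (antiweb n k) (univ.map (Fin.castLEEmb h)) (by
    intro a ha b hb _ hadj
    simp only [coe_map, coe_univ, Set.image_univ, Set.mem_range] at ha hb
    obtain ⟨a, rfl⟩ := ha
    obtain ⟨b, rfl⟩ := hb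
    have h1 := hadj.2.1
    have ha := a.isLt
    have hb := b.isLt
    simp only [Fin.castLEEmb_apply, Fin.val_castLE] at h1
    rw [le_abs] at h1
    omega)
  simpa using this

lemma antiweb_layer (n k : ℕ) (v : Fin n) (y : Fin n → ℝ) (y0 : ℝ)
    (h0 : ∀ a, 0 ≤ y a) (h1 : ∀ a, y a ≤ y0)
    (he : ∀ a b, (antiweb n k).Adj a b → y a + y b ≤ y0) (hv : y v = y0) :
    ∑ a, y a ≤ ((antiweb n k).indepNum : ℝ) * y0 := by
  have hy0 : 0 ≤ y0 := hv ▸ h0 v
  have : NeZero n := ⟨by have := v.isLt; omega⟩
  by_cases hn : n < 2 * k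
  · have hα : n ≤ (antiweb n k).indepNum := by
      have := indepNum_ge (antiweb n k) univ (by
        intro a _ b _ _ hadj
        have h1 := hadj.2.1
        have h2 := hadj.2.2
        omega)
      simpa using this
    calc ∑ a, y a ≤ ∑ _a : Fin n, y0 := sum_le_sum fun a _ => h1 a
      _ = n * y0 := by simp
      _ ≤ _ := by gcongr
  push Not at hn
  set w : ℕ → ℝ := fun j => y (v + Fin.ofNat n j) with hw
  have hsum : ∑ a, y a = ∑ j ∈ range n, w j := by
    rw [← Equiv.sum_comp (Equiv.addLeft v) y, ← Fin.sum_univ_eq_sum_range]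
    refine sum_congr rfl fun a _ => ?_
    simp [hw]
  have hw0 : w 0 = y0 := by
    have : Fin.ofNat n 0 = 0 := rfl
    simp [hw, this, hv]
  have hz : ∀ j, 0 < j → j < n → k ≤ j → j + k ≤ n → w j = 0 := by
    intro j hj0 hj hk1 hk2
    have := he _ _ (antiweb_adj_shift (k := k) v 0 j hj0 hj (by omega) (by omega))
    have h2 := h0 (v + Fin.ofNat n j)
    change w 0 + w j ≤ y0 at this
    change 0 ≤ w j at h2
    linarith
  have hnpos : 0 < n := Nat.pos_of_ne_zero (NeZero.ne n)
  rcases Nat.eq_zero_or_pos k with hk | hk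
  · subst hk
    have hα : 1 ≤ (antiweb n 0).indepNum := by
      have := indepNum_ge (antiweb n 0) {v} (by simp)
      simpa using this
    have : ∑ j ∈ range n, w j = w 0 := by
      refine sum_eq_single 0 (fun j hj hj0 => hz j (by omega) (mem_range.1 hj) (by omega)
        (by have := mem_range.1 hj; omega)) (fun h => absurd (mem_range.2 hnpos) h)
    rw [hsum, this, hw0]
    have : (1 : ℝ) ≤ (antiweb n 0).indepNum := by exact_mod_cast hα
    nlinarith
  have hα : (k : ℝ) ≤ (antiweb n k).indepNum := by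
    exact_mod_cast antiweb_indepNum_ge n k (by omega)
  have s1 : ∑ j ∈ range n, w j =
      ∑ j ∈ Ico 0 1, w j + ∑ j ∈ Ico 1 k, w j + ∑ j ∈ Ico k (n - k + 1), w j +
        ∑ j ∈ Ico (n - k + 1) n, w j := by
    rw [sum_Ico_consecutive _ (by omega) (by omega), sum_Ico_consecutive _ (by omega) (by omega),
      sum_Ico_consecutive _ (by omega) (by omega), range_eq_Ico]
  have s2 : ∑ j ∈ Ico k (n - k + 1), w j = 0 := by
    refine sum_eq_zero fun j hj => ?_
    have := mem_Ico.1 hj
    exact hz j (by omega) (by omega) (by omega) (by omega)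
  have s3 : ∑ j ∈ Ico (n - k + 1) n, w j = ∑ j ∈ Ico 1 k, w (j + (n - k)) := by
    rw [sum_Ico_add' w 1 k (n - k)]
    congr 2 <;> omega
  have s4 : ∑ j ∈ Ico 1 k, w j + ∑ j ∈ Ico 1 k, w (j + (n - k)) ≤ ((k : ℝ) - 1) * y0 := by
    rw [← sum_add_distrib]
    calc _ ≤ ∑ _j ∈ Ico 1 k, y0 := by
          refine sum_le_sum fun j hj => ?_
          have := mem_Ico.1 hj
          exact he _ _ (antiweb_adj_shift (k := k) v j (j + (n - k)) (by omega) (by omega)
            (by omega) (by omega))
      _ = _ := by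
          rw [sum_const, Nat.card_Ico, nsmul_eq_mul, Nat.cast_sub hk]; simp
  rw [hsum, s1, s2, s3]
  simp only [zero_add, Nat.Ico_zero_eq_range, range_one, sum_singleton, hw0]
  nlinarith

variable {V : Type} [Fintype V] [DecidableEq V] {G : SimpleGraph V}

/-- support of a joined antiweb -/
def JoinedAntiweb.Supp (J : JoinedAntiweb G) (v : V) : Prop :=
  (∃ i a, J.emb i a = v) ∨ v ∈ J.Q

lemma JoinedAntiweb.layer (J : JoinedAntiweb G) (v : V) (hv : J.Supp v) (y : V → ℝ) (y0 : ℝ)
    (h0 : ∀ a, 0 ≤ y a) (h1 : ∀ a, y a ≤ y0)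
    (he : ∀ a b, G.Adj a b → y a + y b ≤ y0) (hyv : y v = y0) : J.lhs y ≤ y0 := by
  have hz : ∀ u, G.Adj v u → y u = 0 := fun u hu => by
    have := he v u hu
    have := h0 u
    linarith
  have hy0 : 0 ≤ y0 := hyv ▸ h0 v
  unfold JoinedAntiweb.lhs
  rcases hv with ⟨i, a, rfl⟩ | hq
  · have e1 : ∑ q ∈ J.Q, y q = 0 := sum_eq_zero fun q hq => hz q (J.join_clique i a q hq)
    have e2 : ∑ j, (1 / ((antiweb (J.n j) (J.k j)).indepNum : ℝ)) * ∑ b, y (J.emb j b) =
        (1 / ((antiweb (J.n i) (J.k i)).indepNum : ℝ)) * ∑ b, y (J.emb i b) := by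
      refine sum_eq_single i (fun j _ hj => ?_) (fun h => absurd (mem_univ i) h)
      rw [sum_eq_zero fun b _ => hz _ (J.join_webs i j (Ne.symm hj) a b), mul_zero]
    rw [e1, e2, add_zero]
    have hb := antiweb_layer (J.n i) (J.k i) a (fun b => y (J.emb i b)) y0 (fun b => h0 _)
      (fun b => h1 _) (fun b c h => he _ _ ((J.emb i).map_rel_iff.2 h)) hyv
    have hα : 1 ≤ (antiweb (J.n i) (J.k i)).indepNum := by
      have := indepNum_ge (antiweb (J.n i) (J.k i)) {a} (by simp)
      simpa using this
    have hα' : (0 : ℝ) < (antiweb (J.n i) (J.k i)).indepNum := by exact_mod_cast hα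
    rw [one_div, inv_mul_le_iff₀ hα']
    exact hb
  · have e1 : ∑ j, (1 / ((antiweb (J.n j) (J.k j)).indepNum : ℝ)) * ∑ b, y (J.emb j b) = 0 := by
      refine sum_eq_zero fun j _ => ?_
      rw [sum_eq_zero fun b _ => hz _ (J.join_clique j b v hq).symm, mul_zero]
    have e2 : ∑ q ∈ J.Q, y q = y v := by
      refine sum_eq_single v (fun q hq' hne => hz q (J.clique hq hq' (Ne.symm hne)))
        (fun h => absurd hq h)
    rw [e1, e2, hyv, zero_add]

/-- coefficient vector of the joined antiweb constraint -/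
noncomputable def JoinedAntiweb.coef (J : JoinedAntiweb G) (v : V) : ℝ := J.lhs (Pi.single v 1)

lemma JoinedAntiweb.lhs_eq (J : JoinedAntiweb G) (x : V → ℝ) :
    J.lhs x = ∑ v, J.coef v * x v := by
  unfold JoinedAntiweb.coef JoinedAntiweb.lhs
  simp only [add_mul, sum_add_distrib, sum_mul, mul_assoc]
  congr 1
  · rw [sum_comm]
    refine sum_congr rfl fun i _ => ?_
    rw [← mul_sum, sum_comm]
    congr 1
    refine sum_congr rfl fun a _ => ?_
    simp [Pi.single_apply]
  · rw [sum_comm]
    refine sum_congr rfl fun q _ => ?_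
    simp [Pi.single_apply]

lemma JoinedAntiweb.coef_nonneg (J : JoinedAntiweb G) (v : V) : 0 ≤ J.coef v := by
  unfold JoinedAntiweb.coef JoinedAntiweb.lhs
  have : ∀ u, (0 : ℝ) ≤ (Pi.single v 1 : V → ℝ) u := fun u => by
    rw [Pi.single_apply]; split_ifs <;> norm_num
  refine add_nonneg (sum_nonneg fun i _ => mul_nonneg (by positivity)
    (sum_nonneg fun a _ => this _)) (sum_nonneg fun q _ => this _)

lemma JoinedAntiweb.coef_zero (J : JoinedAntiweb G) (v : V) (hv : ¬ J.Supp v) : J.coef v = 0 := by
  unfold JoinedAntiweb.coef JoinedAntiweb.lhs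
  unfold JoinedAntiweb.Supp at hv
  push Not at hv
  rw [sum_eq_zero, sum_eq_zero, add_zero]
  · intro q hq
    rw [Pi.single_apply, if_neg]
    rintro rfl
    exact hv.2 hq
  · intro i _
    rw [sum_eq_zero, mul_zero]
    intro a _
    rw [Pi.single_apply, if_neg (hv.1 i a)]

lemma JoinedAntiweb.coef_mem (J : JoinedAntiweb G) (v : V) :
    J.coef v ∈ (fun m : ℕ => 1 / (m : ℝ)) '' Set.Iic (Fintype.card V) := by
  by_cases hv : J.Supp v
  · rcases hv with ⟨i, a, rfl⟩ | hq
    · refine ⟨(antiweb (J.n i) (J.k i)).indepNum, ?_, ?_⟩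
      · obtain ⟨s, hs⟩ := (antiweb (J.n i) (J.k i)).exists_isNIndepSet_indepNum
        have h1 : s.card ≤ Fintype.card (Fin (J.n i)) := card_le_univ s
        have h2 : Fintype.card (Fin (J.n i)) ≤ Fintype.card V :=
          Fintype.card_le_of_injective _ (J.emb i).injective
        have := hs.card_eq
        simp only [Set.mem_Iic]
        omega
      · unfold JoinedAntiweb.coef JoinedAntiweb.lhs
        rw [sum_eq_zero (s := J.Q), add_zero, sum_eq_single i, sum_eq_single a]
        · simp
        · intro b _ hb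
          rw [Pi.single_apply, if_neg]
          exact fun h => hb ((J.emb i).injective h)
        · simp
        · intro j _ hj
          rw [sum_eq_zero, mul_zero]
          intro b _
          rw [Pi.single_apply, if_neg]
          exact (J.join_webs j i hj b a).ne
        · simp
        · intro q hq
          rw [Pi.single_apply, if_neg]
          exact (J.join_clique i a q hq).ne.symm
    · refine ⟨1, ?_, ?_⟩
      · simp only [Set.mem_Iic]
        exact Fintype.card_pos_iff.2 ⟨v⟩
      · unfold JoinedAntiweb.coef JoinedAntiweb.lhs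
        rw [sum_eq_zero (s := univ), zero_add, sum_eq_single v]
        · simp
        · intro q _ hq'
          rw [Pi.single_apply, if_neg hq']
        · exact fun h => absurd hq h
        · intro j _
          rw [sum_eq_zero, mul_zero]
          intro b _
          rw [Pi.single_apply, if_neg]
          exact (J.join_clique j b v hq).ne
  · exact ⟨0, by simp, by simp [J.coef_zero v hv]⟩

lemma coef_finite (G : SimpleGraph V) : (Set.range fun J : JoinedAntiweb G => J.coef).Finite := by
  refine (Set.Finite.pi' (fun _ : V => (Set.finite_Iic (Fintype.card V)).image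
    (fun m : ℕ => 1 / (m : ℝ)))).subset ?_
  rintro _ ⟨J, rfl⟩ v
  exact J.coef_mem v

lemma cone_facts {z : Option V → ℝ} (hz : z ∈ coneOf (ESTAB G)) (h0 : 0 ≤ z none) :
    (∀ a, 0 ≤ z (some a)) ∧ (∀ a, z (some a) ≤ z none) ∧
      ∀ a b, G.Adj a b → z (some a) + z (some b) ≤ z none := by
  obtain ⟨y, ⟨hy1, hy2⟩, hy⟩ := hz
  refine ⟨fun a => ?_, fun a => ?_, fun a b hab => ?_⟩
  · rw [hy]; exact mul_nonneg h0 (hy1 a).1
  · rw [hy]; have := (hy1 a).2; nlinarith
  · rw [hy, hy]; have := hy2 a b hab; nlinarith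

lemma tight_kills {Y : Matrix (Option V) (Option V) ℝ} (hY : Y ∈ Mplus (ESTAB G))
    (h1 : Y none none = 1) (J : JoinedAntiweb G) (ht : J.lhs (fun j => Y (some j) none) = 1)
    (i : V) : J.lhs (fun j => Y (some j) (some i)) = Y (some i) none := by
  obtain ⟨hpsd, hdiag, hc1, -⟩ := hY
  have hsym : ∀ p q, Y p q = Y q p := fun p q => by
    have := hpsd.isHermitian.apply p q
    simpa using this.symm
  set u : Option V → ℝ := fun p => p.elim 1 (fun j => - J.coef j) with hu
  have hr : ∀ q, (Y.mulVec u) q = Y none q - J.lhs (fun j => Y (some j) q) := by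
    intro q
    rw [J.lhs_eq]
    simp only [Matrix.mulVec, dotProduct, Fintype.sum_option, hu, Option.elim, mul_one, mul_neg,
      sum_neg_distrib, hsym q]
    rw [sub_eq_add_neg]
    congr 2
    exact sum_congr rfl fun j _ => mul_comm _ _
  have hle : u ⬝ᵥ Y.mulVec u ≤ 0 := by
    simp only [dotProduct, Fintype.sum_option, hr]
    have : Y none none - J.lhs (fun j => Y (some j) none) = 0 := by rw [h1, ht]; ring
    rw [this, mul_zero, zero_add]
    refine sum_nonpos fun j _ => ?_
    by_cases hj : J.Supp j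
    · have hnn : 0 ≤ Y none (some j) := by
        rw [hsym, hdiag]; exact hpsd.diag_nonneg
      obtain ⟨f1, f2, f3⟩ := cone_facts (hc1 j) hnn
      have := J.layer j hj (fun a => Y (some a) (some j)) (Y none (some j)) f1 f2 f3
        (by rw [hsym none, hdiag])
      have h3 := J.coef_nonneg j
      simp only [hu, Option.elim]
      nlinarith
    · simp [hu, J.coef_zero j hj]
  have hge : 0 ≤ u ⬝ᵥ Y.mulVec u := by
    have := hpsd.dotProduct_mulVec_nonneg u
    simpa using this
  have hz : Y.mulVec u = 0 := by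
    have := (hpsd.dotProduct_mulVec_zero_iff u).1 (by simpa using le_antisymm hle hge)
    exact this
  have := hr (some i)
  rw [hz] at this
  simp only [Pi.zero_apply] at this
  rw [hsym (some i) none]
  linarith

/-- the trivial joined antiweb given by a clique -/
def cliqueJA (Q : Finset V) (hQ : G.IsClique (Q : Set V)) : JoinedAntiweb G where
  m := 0
  n := Fin.elim0
  k := Fin.elim0
  emb := fun i => i.elim0
  Q := Q
  clique := hQ
  join_webs := fun i => i.elim0
  join_clique := fun i => i.elim0

lemma extreme_integral {x : V → ℝ} (hx : x ∈ (ASTABstar G).extremePoints ℝ)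
    (hL : x ∈ LSplus (ESTAB G)) :
    ∃ S : Finset V, G.IsIndepSet (S : Set V) ∧ x = incid S := by
  obtain ⟨hbox, Y, hY, h1, hxY⟩ := hL
  have hY' := hY
  obtain ⟨hpsd, hdiag, hc1, hc2⟩ := hY'
  have hsym : ∀ p q, Y p q = Y q p := fun p q => by
    have := hpsd.isHermitian.apply p q
    simpa using this.symm
  have hxeq : (fun j => Y (some j) none) = x := funext hxY
  have hint : ∀ i, x i = 0 ∨ x i = 1 := by
    intro i
    set d : V → ℝ := fun j => Y (some j) (some i) - x i * x j with hd
    have ev : ∀ᶠ t : ℝ in nhds 0, x + t • d ∈ ASTABstar G := by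
      have cont : ∀ c : V → ℝ, Filter.Tendsto (fun t : ℝ => ∑ v, c v * (x + t • d) v) (nhds 0)
          (nhds (∑ v, c v * x v)) := by
        intro c
        have : Continuous (fun t : ℝ => ∑ v, c v * (x + t • d) v) := by fun_prop
        have h := this.tendsto 0
        simpa using h
      have e1 : ∀ᶠ t : ℝ in nhds 0, ∀ j, 0 ≤ (x + t • d) j ∧ (x + t • d) j ≤ 1 := by
        rw [Filter.eventually_all]
        intro j
        have cj : Filter.Tendsto (fun t : ℝ => (x + t • d) j) (nhds 0) (nhds (x j)) := by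
          have : Continuous (fun t : ℝ => (x + t • d) j) := by fun_prop
          simpa using this.tendsto 0
        rcases (hbox j).1.eq_or_lt with hj0 | hj0
        · have : d j = 0 := by
            obtain ⟨y, -, hy⟩ := hc1 j
            have := hy i
            simp only at this
            simp only [hd]
            rw [hsym, this, hsym none, hxY, ← hj0]; ring
          refine Filter.Eventually.of_forall fun t => ?_
          simp [this, hbox j]
        rcases (hbox j).2.eq_or_lt with hj1 | hj1
        · have : d j = 0 := by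
            obtain ⟨y, -, hy⟩ := hc2 j
            have := hy i
            simp only at this
            rw [h1, hsym none, hxY, hxY, hj1] at this
            simp only [hd]
            rw [hsym, hj1]; linarith
          refine Filter.Eventually.of_forall fun t => ?_
          simp [this, hbox j]
        exact ((cj.eventually (lt_mem_nhds hj0)).and (cj.eventually (gt_mem_nhds hj1))).mono
          fun t ht => ⟨ht.1.le, ht.2.le⟩
      have e2 : ∀ᶠ t : ℝ in nhds 0, ∀ c ∈ Set.range fun J : JoinedAntiweb G => J.coef,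
          ∑ v, c v * (x + t • d) v ≤ 1 := by
        rw [Filter.eventually_all_finite (coef_finite G)]
        rintro _ ⟨J, rfl⟩
        rcases (hx.1.2 J).eq_or_lt with ht | ht
        · have hk := tight_kills hY h1 J (by rw [hxeq, ht]) i
          refine Filter.Eventually.of_forall fun t => ?_
          rw [J.lhs_eq] at hk ht
          rw [hxY] at hk
          have : ∑ v, J.coef v * (x + t • d) v = ∑ v, J.coef v * x v +
              t * (∑ v, J.coef v * Y (some v) (some i) - x i * ∑ v, J.coef v * x v) := by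
            simp only [hd, Pi.add_apply, Pi.smul_apply, smul_eq_mul, mul_sum, ← sum_sub_distrib,
              ← sum_add_distrib]
            exact sum_congr rfl fun v _ => by ring
          rw [this, hk, ht]; simp
        · rw [J.lhs_eq] at ht
          exact ((cont J.coef).eventually (gt_mem_nhds ht)).mono fun t ht => ht.le
      refine (e1.and e2).mono fun t ht => ⟨ht.1, fun J => ?_⟩
      rw [J.lhs_eq]
      exact ht.2 _ ⟨J, rfl⟩
    have ev' : ∀ᶠ t : ℝ in nhds 0, x + (-t) • d ∈ ASTABstar G := by
      have : Filter.Tendsto (fun t : ℝ => -t) (nhds 0) (nhds 0) := by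
        simpa using (continuous_neg (G := ℝ)).tendsto 0
      exact this.eventually ev
    obtain ⟨t, ⟨ht1, ht2⟩, ht0⟩ :=
      (((ev.and ev').filter_mono nhdsWithin_le_nhds).and
        (self_mem_nhdsWithin (a := (0 : ℝ)) (s := {0}ᶜ))).exists
    have hm := hx.2 ht1 ht2 ⟨1 / 2, 1 / 2, by norm_num, by norm_num, by norm_num, by
      ext v; simp; ring⟩
    have h2 := congrFun hm i
    simp only [Pi.add_apply, Pi.smul_apply, smul_eq_mul, add_eq_left, mul_eq_zero] at h2
    have h3 : d i = 0 := h2.resolve_left ht0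
    simp only [hd] at h3
    rw [← hdiag, hxY] at h3
    have : x i * (1 - x i) = 0 := by linarith
    rcases mul_eq_zero.1 this with h | h
    · exact Or.inl h
    · exact Or.inr (by linarith)
  refine ⟨univ.filter fun v => x v = 1, ?_, ?_⟩
  · intro a ha b hb hab hadj
    simp only [coe_filter, mem_univ, true_and, Set.mem_ofPred_eq] at ha hb
    have := hx.1.2 (cliqueJA {a, b} (by simpa using fun _ => hadj))
    unfold JoinedAntiweb.lhs cliqueJA at this
    simp only [univ_eq_empty, sum_empty, zero_add] at this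
    rw [sum_pair hab, ha, hb] at this
    norm_num at this
  · ext v
    rcases hint v with h | h <;> simp [incid, h]

lemma stab_finite (G : SimpleGraph V) :
    {x | ∃ S : Finset V, G.IsIndepSet (S : Set V) ∧ x = incid S}.Finite := by
  refine (Set.finite_range (incid (V := V))).subset ?_
  rintro _ ⟨S, -, rfl⟩
  exact ⟨S, rfl⟩

lemma convex_ASTAB (G : SimpleGraph V) : Convex ℝ (ASTABstar G) := by
  intro x hx y hy s t hs ht hst
  refine ⟨fun i => ?_, fun J => ?_⟩
  · have := hx.1 i
    have := hy.1 i
    simp only [Pi.add_apply, Pi.smul_apply, smul_eq_mul]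
    constructor <;> nlinarith
  · have h1 := hx.2 J
    have h2 := hy.2 J
    rw [J.lhs_eq] at h1 h2 ⊢
    have : ∑ v, J.coef v * (s • x + t • y) v =
        s * ∑ v, J.coef v * x v + t * ∑ v, J.coef v * y v := by
      simp only [Pi.add_apply, Pi.smul_apply, smul_eq_mul, mul_sum, ← sum_add_distrib]
      exact sum_congr rfl fun v _ => by ring
    rw [this]; nlinarith

lemma compact_ASTAB (G : SimpleGraph V) : IsCompact (ASTABstar G) := by
  refine (isCompact_Icc (a := (0 : V → ℝ)) (b := 1)).of_isClosed_subset ?_ ?_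
  · have : ASTABstar G = (⋂ i, {x : V → ℝ | 0 ≤ x i} ∩ {x | x i ≤ 1}) ∩
        ⋂ J : JoinedAntiweb G, {x | ∑ v, J.coef v * x v ≤ 1} := by
      ext x
      simp [ASTABstar, JoinedAntiweb.lhs_eq]
    rw [this]
    refine (isClosed_iInter fun i => (isClosed_le (by fun_prop) (by fun_prop)).inter
      (isClosed_le (by fun_prop) (by fun_prop))).inter
      (isClosed_iInter fun J => isClosed_le (by fun_prop) (by fun_prop))
  · exact fun x hx => ⟨fun i => (hx.1 i).1, fun i => (hx.1 i).2⟩

lemma STAB_subset_ASTAB (G : SimpleGraph V) : STAB G ⊆ ASTABstar G := by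
  refine convexHull_min ?_ (convex_ASTAB G)
  rintro _ ⟨S, hS, rfl⟩
  have h0 : ∀ a, 0 ≤ incid S a := fun a => by unfold incid; split_ifs <;> norm_num
  have h1 : ∀ a, incid S a ≤ 1 := fun a => by unfold incid; split_ifs <;> norm_num
  refine ⟨fun i => ⟨h0 i, h1 i⟩, fun J => ?_⟩
  by_cases h : ∃ v ∈ S, J.Supp v
  · obtain ⟨v, hv, hJ⟩ := h
    refine J.layer v hJ _ 1 h0 h1 (fun a b hab => ?_) (by simp [incid, hv])
    unfold incid
    split_ifs with ha hb
    · exact absurd hab (hS ha hb hab.ne)
    all_goals norm_num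
  · push Not at h
    rw [J.lhs_eq, sum_eq_zero]
    · norm_num
    · intro v _
      by_cases hv : v ∈ S
      · rw [J.coef_zero v (h v hv), zero_mul]
      · simp [incid, hv]

theorem backward (G : SimpleGraph V) (h : LSplus (ESTAB G) = ASTABstar G) :
    LSplus (ESTAB G) = STAB G := by
  rw [h]
  refine Set.Subset.antisymm ?_ (STAB_subset_ASTAB G)
  rw [← closure_convexHull_extremePoints (compact_ASTAB G) (convex_ASTAB G)]
  refine closure_minimal (convexHull_mono fun x hx => ?_) ((stab_finite G).isClosed_convexHull ℝ)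
  exact extreme_integral hx (h ▸ hx.1)

end Pool.Agent.Lib.MP_2081ef_co
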