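import Mathlib

/-! Farkas' lemma for real linear functionals (Bartl's algebraic proof). -/

namespace Pool.Agent.Lib.MP_2081ef_co

open Finset

theorem farkas_fin {M : Type*} [AddCommGroup M] [Module ℝ M] :
    ∀ (m : ℕ) (A : Fin m → (M →ₗ[ℝ] ℝ)) (c : M →ₗ[ℝ] ℝ),
      (∀ x, (∀ k, 0 ≤ A k x) → 0 ≤ c x) →
      ∃ l : Fin m → ℝ, (∀ k, 0 ≤ l k) ∧ ∀ x, c x = ∑ k, l k * A k x := by
  intro m
  induction m with
  | zero =>
    intro A c h
    refine ⟨fun k => 0, fun k => le_rfl, fun x => ?_⟩
    have h1 := h x (fun k => k.elim0)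
    have h2 := h (-x) (fun k => k.elim0)
    rw [map_neg] at h2
    simp only [univ_eq_empty, sum_empty]
    linarith
  | succ m ih =>
    intro A c h
    by_cases h0 : ∀ x, (∀ k : Fin m, 0 ≤ A k.succ x) → 0 ≤ c x
    · obtain ⟨l, hl, hc⟩ := ih (fun k => A k.succ) c h0
      refine ⟨Fin.cons 0 l, fun k => ?_, fun x => ?_⟩
      · refine Fin.cases ?_ (fun j => ?_) k
        · simp
        · simpa using hl j
      · rw [Fin.sum_univ_succ, hc x]
        simp
    · push Not at h0
      obtain ⟨y, hy, hcy⟩ := h0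
      have hA0 : A 0 y < 0 := by
        by_contra hh
        push Not at hh
        have := h y fun k => Fin.cases hh (fun j => hy j) k
        linarith
      let T : M →ₗ[ℝ] M := LinearMap.id - ((A 0 y)⁻¹ • A 0).smulRight y
      have hT : ∀ (B : M →ₗ[ℝ] ℝ) x, B (T x) = B x - (A 0 y)⁻¹ * A 0 x * B y := by
        intro B x
        simp [T]
      obtain ⟨l, hl, hc⟩ := ih (fun k => (A k.succ).comp T) (c.comp T) (by
        intro x hx
        refine h (T x) fun k => Fin.cases ?_ (fun j => hx j) k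
        rw [hT]
        have : (A 0 y)⁻¹ * A 0 x * A 0 y = A 0 x := by
          field_simp [hA0.ne]
        rw [this]; simp)
      have hs : 0 ≤ ∑ k, l k * A k.succ y := sum_nonneg fun k _ => mul_nonneg (hl k) (hy k)
      refine ⟨Fin.cons ((A 0 y)⁻¹ * (c y - ∑ k, l k * A k.succ y)) l, fun k => ?_, fun x => ?_⟩
      · refine Fin.cases ?_ (fun j => ?_) k
        · simp only [Fin.cons_zero]
          exact mul_nonneg_of_nonpos_of_nonpos (inv_lt_zero.2 hA0).le (by linarith)
        · simpa using hl j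
      · have h1 := hc x
        simp only [LinearMap.comp_apply, hT] at h1
        rw [Fin.sum_univ_succ]
        simp only [Fin.cons_zero, Fin.cons_succ]
        have h2 : ∑ k, l k * (A k.succ x - (A 0 y)⁻¹ * A 0 x * A k.succ y) =
            ∑ k, l k * A k.succ x - (A 0 y)⁻¹ * A 0 x * ∑ k, l k * A k.succ y := by
          rw [mul_sum, ← sum_sub_distrib]
          exact sum_congr rfl fun k _ => by ring
        rw [h2] at h1
        linarith

/-- Farkas' lemma: a functional that is nonnegative on the cone cut out by finitely many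
functionals is a nonnegative combination of them. -/
theorem farkas {M : Type*} [AddCommGroup M] [Module ℝ M] {κ : Type*} [Fintype κ]
    (A : κ → (M →ₗ[ℝ] ℝ)) (c : M →ₗ[ℝ] ℝ) (h : ∀ x, (∀ k, 0 ≤ A k x) → 0 ≤ c x) :
    ∃ l : κ → ℝ, (∀ k, 0 ≤ l k) ∧ ∀ x, c x = ∑ k, l k * A k x := by
  let e := Fintype.equivFin κ
  obtain ⟨l, hl, hc⟩ := farkas_fin _ (fun j => A (e.symm j)) c fun x hx =>
    h x fun k => by simpa using hx (e k)
  refine ⟨fun k => l (e k), fun k => hl _, fun x => ?_⟩
  rw [hc x]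
  exact (Fintype.sum_equiv e _ _ fun k => by simp).symm

end Pool.Agent.Lib.MP_2081ef_co
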