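import Pool.Agent.Lib.MP_2081ef_co.Perturb
import Pool.Agent.Lib.MP_2081ef_co.Farkas

/-! The dual certificate of an `LS₊`-valid facet: `f - μ f² = ∑ λ_E E` on all stable sets. -/

namespace Pool.Agent.Lib.MP_2081ef_co

open Finset

variable {V : Type} [Fintype V] [DecidableEq V]

/-- symmetric matrices whose first column is the diagonal -/
def symSp (V : Type) : Submodule ℝ (Option V → Option V → ℝ) where
  carrier := {Z | (∀ p q, Z p q = Z q p) ∧ ∀ i, Z (some i) none = Z (some i) (some i)}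
  add_mem' := by
    rintro a b ⟨ha1, ha2⟩ ⟨hb1, hb2⟩
    exact ⟨fun p q => by simp only [Pi.add_apply, ha1 p q, hb1 p q],
      fun i => by simp only [Pi.add_apply, ha2 i, hb2 i]⟩
  zero_mem' := ⟨fun _ _ => rfl, fun _ => rfl⟩
  smul_mem' := by
    rintro c a ⟨ha1, ha2⟩
    exact ⟨fun p q => by simp only [Pi.smul_apply, ha1 p q],
      fun i => by simp only [Pi.smul_apply, ha2 i]⟩

/-- entry functional -/
def ent (p q : Option V) : symSp V →ₗ[ℝ] ℝ where
  toFun Z := Z.1 p q
  map_add' _ _ := rfl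
  map_smul' _ _ := rfl

omit [Fintype V] [DecidableEq V] in
@[simp] lemma ent_apply (p q : Option V) (Z : symSp V) : ent p q Z = Z.1 p q := rfl

/-- index set of the events (and `none` for the square) -/
abbrev EvI (V : Type) :=
  Option ((V × V) ⊕ (V × V) ⊕ (V × V × V) ⊕ (V × V) ⊕ (V × V × V))

/-- the linear functional of an event -/
noncomputable def evL (s : Option V → ℝ) : EvI V → (symSp V →ₗ[ℝ] ℝ)
  | none => ∑ p, ∑ q, (s p * s q) • ent p q
  | some (.inl (i, j)) => ent (some i) (some j)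
  | some (.inr (.inl (i, j))) => ent (some i) (some i) - ent (some i) (some j)
  | some (.inr (.inr (.inl (i, u, w)))) =>
      ent (some i) (some i) - ent (some i) (some u) - ent (some i) (some w)
  | some (.inr (.inr (.inr (.inl (i, j))))) =>
      ent none none - ent (some i) (some i) - ent (some j) (some j) + ent (some i) (some j)
  | some (.inr (.inr (.inr (.inr (i, u, w))))) =>
      ent none none - ent (some i) (some i) - ent (some u) (some u) - ent (some w) (some w)
        + ent (some i) (some u) + ent (some i) (some w)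

/-- tightness of an event on the family `R` -/
def evT (G : SimpleGraph V) (R : Finset (Finset V)) : EvI V → Prop
  | none => True
  | some (.inl (i, j)) => ∀ S ∈ R, ¬ (i ∈ S ∧ j ∈ S)
  | some (.inr (.inl (i, j))) => ∀ S ∈ R, i ∈ S → j ∈ S
  | some (.inr (.inr (.inl (i, u, w)))) => G.Adj u w ∧ ∀ S ∈ R, i ∈ S → u ∈ S ∨ w ∈ S
  | some (.inr (.inr (.inr (.inl (i, j))))) => ∀ S ∈ R, i ∈ S ∨ j ∈ S
  | some (.inr (.inr (.inr (.inr (i, u, w))))) => G.Adj u w ∧ ∀ S ∈ R, i ∈ S ∨ u ∈ S ∨ w ∈ S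

/-- The certificate as an identity of functionals on symmetric matrices. -/
theorem cert_fun (G : SimpleGraph V) (R : Finset (Finset V))
    (hR : ∀ S ∈ R, G.IsIndepSet (S : Set V))
    (hne : R.Nonempty) (s : Option V → ℝ) (hs : ∀ S ∈ R, ∑ p, s p * chi S p = 0)
    (hker : ∀ c : Option V → ℝ, (∀ S ∈ R, ∑ p, c p * chi S p = 0) → ∃ t : ℝ, c = t • s)
    (hb : 0 < s none)
    (hval : ∀ x ∈ LSplus (ESTAB G), 0 ≤ s none + ∑ v, s (some v) * x v) :
    ∃ (μ : ℝ) (e1 e2 c1 : V → V → ℝ) (e3 c2 : V → V → V → ℝ), 0 ≤ μ ∧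
      (∀ i j, 0 ≤ e1 i j) ∧ (∀ i j, 0 ≤ e2 i j) ∧ (∀ i j, 0 ≤ c1 i j) ∧
      (∀ i u w, 0 ≤ e3 i u w) ∧ (∀ i u w, 0 ≤ c2 i u w) ∧
      (∀ i j, e1 i j ≠ 0 → ∀ S ∈ R, ¬ (i ∈ S ∧ j ∈ S)) ∧
      (∀ i u w, e3 i u w ≠ 0 → G.Adj u w) ∧ (∀ i u w, c2 i u w ≠ 0 → G.Adj u w) ∧
      ∀ Z : Option V → Option V → ℝ, (∀ p q, Z p q = Z q p) →
        (∀ i, Z (some i) none = Z (some i) (some i)) →
        ∑ q, Z none q * s q = μ * ∑ p, ∑ q, s p * Z p q * s q
          + ∑ i, ∑ j, e1 i j * Z (some i) (some j)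
          + ∑ i, ∑ j, e2 i j * (Z (some i) (some i) - Z (some i) (some j))
          + ∑ i, ∑ u, ∑ w, e3 i u w *
              (Z (some i) (some i) - Z (some i) (some u) - Z (some i) (some w))
          + ∑ i, ∑ j, c1 i j *
              (Z none none - Z (some i) (some i) - Z (some j) (some j) + Z (some i) (some j))
          + ∑ i, ∑ u, ∑ w, c2 i u w *
              (Z none none - Z (some i) (some i) - Z (some u) (some u) - Z (some w) (some w)
                + Z (some i) (some u) + Z (some i) (some w)) := by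
  classical
  let A : EvI V → (symSp V →ₗ[ℝ] ℝ) := fun k => if evT G R k then evL s k else 0
  let D : symSp V →ₗ[ℝ] ℝ := ∑ q, s q • ent none q
  have hD : ∀ Z : symSp V, D Z = ∑ q, Z.1 none q * s q := by
    intro Z
    simp only [D, LinearMap.coe_sum, Finset.sum_apply, LinearMap.smul_apply, ent_apply,
      smul_eq_mul]
    exact sum_congr rfl fun q _ => mul_comm _ _
  have hQ : ∀ Z : symSp V, evL s none Z = ∑ p, ∑ q, s p * Z.1 p q * s q := by
    intro Z
    simp only [evL, LinearMap.coe_sum, Finset.sum_apply, LinearMap.smul_apply, ent_apply,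
      smul_eq_mul]
    exact sum_congr rfl fun p _ => sum_congr rfl fun q _ => by ring
  -- the moment matrix of the empty set
  let Z1 : symSp V := ⟨fun p q => if p = none ∧ q = none then 1 else 0,
    fun p q => by simp only [and_comm], fun i => by simp⟩
  have hA1 : ∀ k, 0 ≤ A k Z1 := by
    intro k
    simp only [A]
    split_ifs
    · rcases k with _ | ⟨⟨i, j⟩ | ⟨i, j⟩ | ⟨i, u, w⟩ | ⟨i, j⟩ | ⟨i, u, w⟩⟩
      · rw [hQ]
        simp only [Z1, Fintype.sum_option]
        simp
        positivity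
      all_goals simp [evL, Z1]
    · simp
  have hQ1 : 0 < evL s none Z1 := by
    rw [hQ]
    simp only [Z1, Fintype.sum_option]
    simp
    positivity
  have key : ∀ Z : symSp V, (∀ k, 0 ≤ A k Z) → 0 ≤ D Z := by
    intro Z hZ
    by_contra hneg
    push Not at hneg
    obtain ⟨ε, hε1, hε⟩ := ((ev_pos (-D Z) (-D Z1) (by linarith)).and
      self_mem_nhdsWithin).exists
    have hε' : 0 < ε := hε
    set W : symSp V := Z + ε • Z1 with hW
    have hAW : ∀ k, 0 ≤ A k W := fun k => by
      rw [hW, map_add, map_smul, smul_eq_mul]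
      have := hZ k
      have := hA1 k
      positivity
    have hT : ∀ k, evT G R k → 0 ≤ evL s k W := fun k hk => by
      have := hAW k
      simpa only [A, if_pos hk] using this
    have hQW : 0 < evL s none W := by
      rw [hW, map_add, map_smul, smul_eq_mul]
      have h0 := hZ none
      have hT0 : evT G R none := trivial
      simp only [A, if_pos hT0] at h0
      positivity
    have hDW : D W < 0 := by
      rw [hW, map_add, map_smul, smul_eq_mul]
      linarith
    obtain ⟨x, hx, hx'⟩ := perturb G R hR hne s hs hker W.1 W.2.1 W.2.2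
      (fun i j h => by simpa [evL] using hT (some (.inl (i, j))) h)
      (fun i j h => by simpa [evL] using hT (some (.inr (.inl (i, j)))) h)
      (fun i u w h h' => by
        have := hT (some (.inr (.inr (.inl (i, u, w))))) ⟨h, h'⟩
        simp only [evL, LinearMap.sub_apply, ent_apply] at this
        linarith)
      (fun i j h => by
        have := hT (some (.inr (.inr (.inr (.inl (i, j)))))) h
        simpa only [evL, LinearMap.sub_apply, LinearMap.add_apply, ent_apply] using this)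
      (fun i u w h h' => by
        have := hT (some (.inr (.inr (.inr (.inr (i, u, w)))))) ⟨h, h'⟩
        simpa only [evL, LinearMap.sub_apply, LinearMap.add_apply, ent_apply] using this)
      (by rw [← hD]; exact hDW) (by rw [← hQ]; exact hQW)
    have := hval x hx
    linarith
  obtain ⟨l, hl, hc⟩ := farkas A D key
  let m : EvI V → ℝ := fun k => if evT G R k then l k else 0
  have hm : ∀ k, 0 ≤ m k := fun k => by
    simp only [m]; split_ifs
    · exact hl k
    · exact le_rfl
  have hm0 : ∀ k, m k ≠ 0 → evT G R k := fun k hk => by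
    by_contra h
    exact hk (by simp only [m, if_neg h])
  have hc' : ∀ Z, D Z = ∑ k, m k * evL s k Z := fun Z => by
    rw [hc Z]
    refine sum_congr rfl fun k _ => ?_
    simp only [A, m]
    split_ifs <;> simp
  refine ⟨m none, fun i j => m (some (.inl (i, j))), fun i j => m (some (.inr (.inl (i, j)))),
    fun i j => m (some (.inr (.inr (.inr (.inl (i, j)))))),
    fun i u w => m (some (.inr (.inr (.inl (i, u, w))))),
    fun i u w => m (some (.inr (.inr (.inr (.inr (i, u, w)))))), hm _, fun _ _ => hm _,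
    fun _ _ => hm _, fun _ _ => hm _, fun _ _ _ => hm _, fun _ _ _ => hm _,
    fun i j h => hm0 _ h, fun i u w h => (hm0 _ h).1, fun i u w h => (hm0 _ h).1,
    fun Z h1 h2 => ?_⟩
  have hZ : Z ∈ symSp V := ⟨h1, h2⟩
  have := hc' ⟨Z, hZ⟩
  rw [hD, Fintype.sum_option (f := fun k => m k * evL s k ⟨Z, hZ⟩), hQ] at this
  simp only [Fintype.sum_sum_type, Fintype.sum_prod_type, evL, LinearMap.sub_apply,
    LinearMap.add_apply, ent_apply] at this
  rw [this]
  ring

/-- value of the affine function `s` at the set `T` -/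
def fval (s : Option V → ℝ) (T : Finset V) : ℝ := s none + ∑ v ∈ T, s (some v)

lemma fval_eq (s : Option V → ℝ) (T : Finset V) : ∑ p, s p * chi T p = fval s T := by
  simp [fval, chi, Fintype.sum_option]

/-- The dual certificate `f - μ f² = ∑ λ_E E`, read on stable sets `T`: `e1` = pairs
`x_i x_j`, `e2` = halves `x_i (1 - x_j)`, `e3` = links `x_i (1 - x_u - x_w)`, `c1` = co-halves
`(1 - x_i)(1 - x_j)`, `c2` = co-links `(1 - x_i)(1 - x_u - x_w)`. -/
structure Cert (G : SimpleGraph V) (s : Option V → ℝ) where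
  μ : ℝ
  e1 : V → V → ℝ
  e2 : V → V → ℝ
  c1 : V → V → ℝ
  e3 : V → V → V → ℝ
  c2 : V → V → V → ℝ
  hμ : 0 ≤ μ
  he1 : ∀ i j, 0 ≤ e1 i j
  he2 : ∀ i j, 0 ≤ e2 i j
  hc1 : ∀ i j, 0 ≤ c1 i j
  he3 : ∀ i u w, 0 ≤ e3 i u w
  hc2 : ∀ i u w, 0 ≤ c2 i u w
  adj3 : ∀ i u w, e3 i u w ≠ 0 → G.Adj u w
  adj2 : ∀ i u w, c2 i u w ≠ 0 → G.Adj u w
  eq : ∀ T : Finset V, G.IsIndepSet (T : Set V) →
    fval s T - μ * fval s T ^ 2 =
      ∑ i, ∑ j, (if i ∈ T ∧ j ∈ T then e1 i j else 0)
      + ∑ i, ∑ j, (if i ∈ T ∧ j ∉ T then e2 i j else 0)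
      + ∑ i, ∑ u, ∑ w, (if i ∈ T ∧ u ∉ T ∧ w ∉ T then e3 i u w else 0)
      + ∑ i, ∑ j, (if i ∉ T ∧ j ∉ T then c1 i j else 0)
      + ∑ i, ∑ u, ∑ w, (if i ∉ T ∧ u ∉ T ∧ w ∉ T then c2 i u w else 0)

/-- An `LS₊`-valid inequality whose tight stable sets determine it up to scaling has a
certificate. -/
theorem cert_of_valid (G : SimpleGraph V) (R : Finset (Finset V))
    (hR : ∀ S ∈ R, G.IsIndepSet (S : Set V))
    (hne : R.Nonempty) (s : Option V → ℝ) (hs : ∀ S ∈ R, ∑ p, s p * chi S p = 0)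
    (hker : ∀ c : Option V → ℝ, (∀ S ∈ R, ∑ p, c p * chi S p = 0) → ∃ t : ℝ, c = t • s)
    (hb : 0 < s none)
    (hval : ∀ x ∈ LSplus (ESTAB G), 0 ≤ s none + ∑ v, s (some v) * x v) :
    Nonempty (Cert G s) := by
  obtain ⟨μ, e1, e2, c1, e3, c2, hμ, he1, he2, hc1, he3, hc2, -, a3, a2, hid⟩ :=
    cert_fun G R hR hne s hs hker hb hval
  refine ⟨⟨μ, e1, e2, c1, e3, c2, hμ, he1, he2, hc1, he3, hc2, a3, a2, fun T hT => ?_⟩⟩
  have nb : ∀ u w, G.Adj u w → ¬ (u ∈ T ∧ w ∈ T) := fun u w h hh =>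
    hT (mem_coe.2 hh.1) (mem_coe.2 hh.2) h.ne h
  have h := hid (fun p q => chi T p * chi T q) (fun p q => mul_comm _ _) (fun i => by
    simp only [chi, Option.elim]; split_ifs <;> norm_num)
  have h1 : ∑ q, chi T none * chi T q * s q = fval s T := by
    rw [← fval_eq]
    exact sum_congr rfl fun q _ => by simp [chi, mul_comm]
  have h2 : ∑ p, ∑ q, s p * (chi T p * chi T q) * s q = fval s T ^ 2 := by
    rw [← fval_eq, sq, sum_mul_sum]
    exact sum_congr rfl fun p _ => sum_congr rfl fun q _ => by ring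
  rw [h1, h2] at h
  have k1 : ∑ i, ∑ j, e1 i j * (chi T (some i) * chi T (some j)) =
      ∑ i, ∑ j, (if i ∈ T ∧ j ∈ T then e1 i j else 0) := by
    refine sum_congr rfl fun i _ => sum_congr rfl fun j _ => ?_
    by_cases hi : i ∈ T <;> by_cases hj : j ∈ T <;> simp [chi, hi, hj]
  have k2 : ∑ i, ∑ j, e2 i j * (chi T (some i) * chi T (some i) - chi T (some i) * chi T (some j))
      = ∑ i, ∑ j, (if i ∈ T ∧ j ∉ T then e2 i j else 0) := by
    refine sum_congr rfl fun i _ => sum_congr rfl fun j _ => ?_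
    by_cases hi : i ∈ T <;> by_cases hj : j ∈ T <;> simp [chi, hi, hj]
  have k3 : ∑ i, ∑ u, ∑ w, e3 i u w * (chi T (some i) * chi T (some i)
        - chi T (some i) * chi T (some u) - chi T (some i) * chi T (some w))
      = ∑ i, ∑ u, ∑ w, (if i ∈ T ∧ u ∉ T ∧ w ∉ T then e3 i u w else 0) := by
    refine sum_congr rfl fun i _ => sum_congr rfl fun u _ => sum_congr rfl fun w _ => ?_
    by_cases h0 : e3 i u w = 0
    · simp [h0]
    · have := nb u w (a3 i u w h0)
      by_cases hu : u ∈ T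
      · have hw : w ∉ T := fun hw => this ⟨hu, hw⟩
        by_cases hi : i ∈ T <;> simp [chi, hi, hu, hw]
      · by_cases hi : i ∈ T <;> by_cases hw : w ∈ T <;> simp [chi, hi, hu, hw]
  have k4 : ∑ i, ∑ j, c1 i j * (chi T none * chi T none - chi T (some i) * chi T (some i)
        - chi T (some j) * chi T (some j) + chi T (some i) * chi T (some j))
      = ∑ i, ∑ j, (if i ∉ T ∧ j ∉ T then c1 i j else 0) := by
    refine sum_congr rfl fun i _ => sum_congr rfl fun j _ => ?_
    by_cases hi : i ∈ T <;> by_cases hj : j ∈ T <;> simp [chi, hi, hj]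
  have k5 : ∑ i, ∑ u, ∑ w, c2 i u w * (chi T none * chi T none - chi T (some i) * chi T (some i)
        - chi T (some u) * chi T (some u) - chi T (some w) * chi T (some w)
        + chi T (some i) * chi T (some u) + chi T (some i) * chi T (some w))
      = ∑ i, ∑ u, ∑ w, (if i ∉ T ∧ u ∉ T ∧ w ∉ T then c2 i u w else 0) := by
    refine sum_congr rfl fun i _ => sum_congr rfl fun u _ => sum_congr rfl fun w _ => ?_
    by_cases h0 : c2 i u w = 0
    · simp [h0]
    · have := nb u w (a2 i u w h0)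
      by_cases hu : u ∈ T
      · have hw : w ∉ T := fun hw => this ⟨hu, hw⟩
        by_cases hi : i ∈ T <;> simp [chi, hi, hu, hw]
      · by_cases hi : i ∈ T <;> by_cases hw : w ∈ T <;> simp [chi, hi, hu, hw]
  rw [k1, k2, k3, k4, k5] at h
  linarith

end Pool.Agent.Lib.MP_2081ef_co
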