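import Pool.Agent.Lib.MP_2081ef_co.Facet

/-! Row and pair identities of a certificate; the pure covering form. -/

namespace Pool.Agent.Lib.MP_2081ef_co

open Finset

variable {V : Type} [Fintype V] [DecidableEq V] {G : SimpleGraph V} {s : Option V → ℝ}

namespace Cert

variable (C : Cert G s)

/-- mass of the items (halves and links) with apex `i` that miss `T` -/
def rho (i : V) (T : Finset V) : ℝ :=
  ∑ j, (if j ∉ T then C.e2 i j else 0) + ∑ u, ∑ w, (if u ∉ T ∧ w ∉ T then C.e3 i u w else 0)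

/-- mass of the co-items with apex `i` that miss `T` -/
def kap (i : V) (T : Finset V) : ℝ :=
  ∑ j, (if j ∉ T then C.c1 i j else 0) + ∑ u, ∑ w, (if u ∉ T ∧ w ∉ T then C.c2 i u w else 0)

lemma rho_nonneg (i : V) (T : Finset V) : 0 ≤ C.rho i T :=
  add_nonneg (sum_nonneg fun j _ => by split_ifs; exacts [le_rfl, C.he2 i j])
    (sum_nonneg fun u _ => sum_nonneg fun w _ => by split_ifs; exacts [C.he3 i u w, le_rfl])

lemma kap_nonneg (i : V) (T : Finset V) : 0 ≤ C.kap i T :=
  add_nonneg (sum_nonneg fun j _ => by split_ifs; exacts [le_rfl, C.hc1 i j])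
    (sum_nonneg fun u _ => sum_nonneg fun w _ => by split_ifs; exacts [C.hc2 i u w, le_rfl])

/-- the certificate identity, grouped by apex -/
lemma eq' (T : Finset V) (hT : G.IsIndepSet (T : Set V)) :
    fval s T - C.μ * fval s T ^ 2 =
      ∑ i ∈ T, ∑ j ∈ T, C.e1 i j + ∑ i ∈ T, C.rho i T + ∑ i ∈ Tᶜ, C.kap i T := by
  rw [C.eq T hT]
  have h1 : ∑ i, ∑ j, (if i ∈ T ∧ j ∈ T then C.e1 i j else 0) = ∑ i ∈ T, ∑ j ∈ T, C.e1 i j := by
    rw [← sum_subset (subset_univ T) fun i _ hi => by simp [hi]]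
    exact sum_congr rfl fun i hi => by simp [hi]
  have h2 : ∑ i, ∑ j, (if i ∈ T ∧ j ∉ T then C.e2 i j else 0)
      + ∑ i, ∑ u, ∑ w, (if i ∈ T ∧ u ∉ T ∧ w ∉ T then C.e3 i u w else 0) = ∑ i ∈ T, C.rho i T := by
    rw [← sum_add_distrib, ← sum_subset (subset_univ T) fun i _ hi => by simp [hi]]
    exact sum_congr rfl fun i hi => by simp only [hi, true_and, rho]
  have h3 : ∑ i, ∑ j, (if i ∉ T ∧ j ∉ T then C.c1 i j else 0)
      + ∑ i, ∑ u, ∑ w, (if i ∉ T ∧ u ∉ T ∧ w ∉ T then C.c2 i u w else 0) = ∑ i ∈ Tᶜ, C.kap i T := by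
    rw [← sum_add_distrib, ← sum_subset (subset_univ Tᶜ) fun i _ hi => by
      have : i ∈ T := by simpa using hi
      simp [this]]
    exact sum_congr rfl fun i hi => by
      have : i ∉ T := by simpa using hi
      simp only [this, not_false_eq_true, true_and, kap]
  linarith

/-- tightness on roots -/
lemma tight (S : Finset V) (hS : G.IsIndepSet (S : Set V)) (h0 : fval s S = 0) :
    (∀ i ∈ S, ∀ j ∈ S, C.e1 i j = 0) ∧ (∀ i ∈ S, C.rho i S = 0) ∧ ∀ i ∉ S, C.kap i S = 0 := by
  have h := C.eq' S hS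
  rw [h0] at h
  have a1 : 0 ≤ ∑ i ∈ S, ∑ j ∈ S, C.e1 i j := sum_nonneg fun i _ => sum_nonneg fun j _ => C.he1 i j
  have a2 : 0 ≤ ∑ i ∈ S, C.rho i S := sum_nonneg fun i _ => C.rho_nonneg i S
  have a3 : 0 ≤ ∑ i ∈ Sᶜ, C.kap i S := sum_nonneg fun i _ => C.kap_nonneg i S
  refine ⟨fun i hi j hj => ?_, fun i hi => ?_, fun i hi => ?_⟩
  · have := (sum_eq_zero_iff_of_nonneg fun i _ => sum_nonneg fun j _ => C.he1 i j).1
      (show ∑ i ∈ S, ∑ j ∈ S, C.e1 i j = 0 by linarith) i hi
    exact (sum_eq_zero_iff_of_nonneg fun j _ => C.he1 i j).1 this j hj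
  · exact (sum_eq_zero_iff_of_nonneg fun i _ => C.rho_nonneg i S).1
      (show ∑ i ∈ S, C.rho i S = 0 by linarith) i hi
  · exact (sum_eq_zero_iff_of_nonneg fun i _ => C.kap_nonneg i S).1
      (show ∑ i ∈ Sᶜ, C.kap i S = 0 by linarith) i (mem_compl.2 hi)

lemma half_of_rho {i j : V} {T : Finset V} (h : C.rho i T = 0) (hj : C.e2 i j ≠ 0) : j ∈ T := by
  by_contra hn
  have a1 : C.e2 i j ≤ ∑ j, (if j ∉ T then C.e2 i j else 0) := by
    refine le_trans (by simp [hn]) (single_le_sum (f := fun j => if j ∉ T then C.e2 i j else 0)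
      (fun j _ => by split_ifs; exacts [le_rfl, C.he2 i j]) (mem_univ j))
  have a2 : 0 ≤ ∑ u, ∑ w, (if u ∉ T ∧ w ∉ T then C.e3 i u w else 0) :=
    sum_nonneg fun u _ => sum_nonneg fun w _ => by split_ifs; exacts [C.he3 i u w, le_rfl]
  have := C.he2 i j
  unfold rho at h
  exact hj (by linarith)

lemma link_of_rho {i u w : V} {T : Finset V} (h : C.rho i T = 0) (hj : C.e3 i u w ≠ 0) :
    u ∈ T ∨ w ∈ T := by
  by_contra hn
  push Not at hn
  have nn : ∀ u w, 0 ≤ (if u ∉ T ∧ w ∉ T then C.e3 i u w else 0) := fun u w => by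
    split_ifs; exacts [C.he3 i u w, le_rfl]
  have a1 : C.e3 i u w ≤ ∑ u, ∑ w, (if u ∉ T ∧ w ∉ T then C.e3 i u w else 0) := by
    refine le_trans ?_ (single_le_sum
      (f := fun u => ∑ w, (if u ∉ T ∧ w ∉ T then C.e3 i u w else 0))
      (fun u _ => sum_nonneg fun w _ => nn u w) (mem_univ u))
    exact le_trans (by simp [hn]) (single_le_sum
      (f := fun w => if u ∉ T ∧ w ∉ T then C.e3 i u w else 0) (fun w _ => nn u w) (mem_univ w))
  have a2 : 0 ≤ ∑ j, (if j ∉ T then C.e2 i j else 0) :=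
    sum_nonneg fun j _ => by split_ifs; exacts [le_rfl, C.he2 i j]
  have := C.he3 i u w
  unfold rho at h
  exact hj (by linarith)

/-- total co-mass -/
lemma comass : s none - C.μ * s none ^ 2 = ∑ i, C.kap i ∅ := by
  have := C.eq' ∅ (by simp)
  simpa [fval] using this

lemma kap_anti (i : V) {T T' : Finset V} (h : T ⊆ T') : C.kap i T' ≤ C.kap i T := by
  refine add_le_add (sum_le_sum fun j _ => ?_) (sum_le_sum fun u _ => sum_le_sum fun w _ => ?_)
  · by_cases h1 : j ∈ T
    · simp [h1, h h1]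
    · by_cases h2 : j ∈ T' <;> simp [h1, h2, C.hc1 i j]
  · by_cases h2 : u ∉ T' ∧ w ∉ T'
    · rw [if_pos h2, if_pos ⟨fun e => h2.1 (h e), fun e => h2.2 (h e)⟩]
    · rw [if_neg h2]; split_ifs; exacts [C.hc2 i u w, le_rfl]

lemma rho_anti (i : V) {T T' : Finset V} (h : T ⊆ T') : C.rho i T' ≤ C.rho i T := by
  refine add_le_add (sum_le_sum fun j _ => ?_) (sum_le_sum fun u _ => sum_le_sum fun w _ => ?_)
  · by_cases h1 : j ∈ T
    · simp [h1, h h1]
    · by_cases h2 : j ∈ T' <;> simp [h1, h2, C.he2 i j]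
  · by_cases h2 : u ∉ T' ∧ w ∉ T'
    · rw [if_pos h2, if_pos ⟨fun e => h2.1 (h e), fun e => h2.2 (h e)⟩]
    · rw [if_neg h2]; split_ifs; exacts [C.he3 i u w, le_rfl]

/-- mass of the items with apex `i` that avoid `i` and contain `j` -/
def phi (i j : V) : ℝ := C.rho i {i} - C.rho i {i, j}

lemma phi_nonneg (i j : V) : 0 ≤ C.phi i j := sub_nonneg.2 (C.rho_anti i (by simp))

/-- on a stable set each item contains at most one vertex: `rho` is modular -/
lemma rho_eq (i : V) (T : Finset V) (hT : G.IsIndepSet (T : Set V)) (hi : i ∈ T) :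
    C.rho i T = C.rho i {i} - ∑ j ∈ T.erase i, C.phi i j := by
  have nb : ∀ u w, G.Adj u w → ¬ (u ∈ T ∧ w ∈ T) := fun u w h hh =>
    hT (mem_coe.2 hh.1) (mem_coe.2 hh.2) h.ne h
  have e : ∀ j, C.phi i j = ∑ z, ((if z ∉ ({i} : Finset V) then C.e2 i z else 0) -
        (if z ∉ ({i, j} : Finset V) then C.e2 i z else 0)) +
      ∑ u, ∑ w, ((if u ∉ ({i} : Finset V) ∧ w ∉ ({i} : Finset V) then C.e3 i u w else 0) -
        (if u ∉ ({i, j} : Finset V) ∧ w ∉ ({i, j} : Finset V) then C.e3 i u w else 0)) := by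
    intro j
    simp only [phi, rho, sum_sub_distrib]
    ring
  simp only [e, sum_add_distrib]
  rw [sum_comm (s := T.erase i), sum_comm (s := T.erase i)]
  simp only [sum_comm (s := T.erase i), rho]
  have k1 : ∀ z, (if z ∉ T then C.e2 i z else 0) = (if z ∉ ({i} : Finset V) then C.e2 i z else 0) -
      ∑ j ∈ T.erase i, ((if z ∉ ({i} : Finset V) then C.e2 i z else 0) -
        (if z ∉ ({i, j} : Finset V) then C.e2 i z else 0)) := by
    intro z
    by_cases hz : z = i
    · simp [hz, hi]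
    · have : ∀ j, ((if z ∉ ({i} : Finset V) then C.e2 i z else 0) -
          (if z ∉ ({i, j} : Finset V) then C.e2 i z else 0)) = if z = j then C.e2 i z else 0 := by
        intro j
        by_cases h : z = j <;> simp [hz, h]
        intro h'
        exact absurd (h.trans h') hz
      simp only [this, sum_ite_eq, mem_erase]
      by_cases hT : z ∈ T <;> simp [hz, hT]
  have k2 : ∀ u w, (if u ∉ T ∧ w ∉ T then C.e3 i u w else 0) =
      (if u ∉ ({i} : Finset V) ∧ w ∉ ({i} : Finset V) then C.e3 i u w else 0) -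
      ∑ j ∈ T.erase i, ((if u ∉ ({i} : Finset V) ∧ w ∉ ({i} : Finset V) then C.e3 i u w else 0) -
        (if u ∉ ({i, j} : Finset V) ∧ w ∉ ({i, j} : Finset V) then C.e3 i u w else 0)) := by
    intro u w
    by_cases h0 : C.e3 i u w = 0
    · simp [h0]
    have hA := C.adj3 i u w h0
    by_cases hu : u = i
    · simp [hu, hi]
    by_cases hw : w = i
    · simp [hw, hi]
    have : ∀ j, ((if u ∉ ({i} : Finset V) ∧ w ∉ ({i} : Finset V) then C.e3 i u w else 0) -
        (if u ∉ ({i, j} : Finset V) ∧ w ∉ ({i, j} : Finset V) then C.e3 i u w else 0)) =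
        (if u = j then C.e3 i u w else 0) + (if w = j then C.e3 i u w else 0) := by
      intro j
      simp only [mem_singleton, mem_insert, hu, hw, false_or, not_false_eq_true, and_self, if_true]
      by_cases h1 : u = j
      · have h2 : ¬ w = j := fun e => hA.ne (h1.trans e.symm)
        simp [h1, h2]
      · by_cases h2 : w = j <;> simp [h1, h2]
    simp only [this, sum_add_distrib, sum_ite_eq, mem_erase]
    have := nb u w hA
    by_cases h1 : u ∈ T
    · have h2 : w ∉ T := fun e => this ⟨h1, e⟩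
      simp [hu, hw, h1, h2]
    · by_cases h2 : w ∈ T <;> simp [hu, hw, h1, h2]
  simp only [k1, k2, sum_sub_distrib]
  ring

end Cert

section Pure

variable {a : V → ℝ} (C : Cert G (sOf a))

lemma Cert.mu_le : C.μ ≤ 1 := by
  have := C.comass
  have h : 0 ≤ ∑ i, C.kap i ∅ := sum_nonneg fun i _ => C.kap_nonneg i ∅
  simp only [sOf, Option.elim] at this
  linarith

lemma Cert.kap_zero (h : C.μ = 1) (i : V) (T : Finset V) : C.kap i T = 0 := by
  have := C.comass
  simp only [sOf, Option.elim, h] at this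
  have h0 := (sum_eq_zero_iff_of_nonneg fun i _ => C.kap_nonneg i ∅).1
    (show ∑ i, C.kap i ∅ = 0 by linarith) i (mem_univ i)
  exact le_antisymm (h0 ▸ C.kap_anti i (empty_subset T)) (C.kap_nonneg i T)

lemma IsFacet.exists_root (hF : IsFacet G a) (i : V) :
    ∃ S : Finset V, G.IsIndepSet (S : Set V) ∧ ∑ v ∈ S, a v = 1 ∧ i ∈ S := by
  by_contra hn
  push Not at hn
  have := hF.ker (fun v => if v = i then 1 else 0) (fun S h1 h2 => by
    simp [hn S h1 h2]) i
  simp at this

lemma Cert.e1_diag (hF : IsFacet G a) (i : V) : C.e1 i i = 0 := by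
  obtain ⟨S, h1, h2, hi⟩ := hF.exists_root i
  exact (C.tight S h1 (by rw [fval_sOf, h2, sub_self])).1 i hi i hi

/-- pure case: the row mass -/
lemma Cert.row (hF : IsFacet G a) (h : C.μ = 1) (i : V) : C.rho i {i} = a i * (1 - a i) := by
  have := C.eq' {i} (by simp)
  simp only [fval_sOf, sum_singleton, C.kap_zero h, sum_const_zero, C.e1_diag hF, h] at this
  linarith

/-- pure case: the pair identity -/
lemma Cert.pair (hF : IsFacet G a) (h : C.μ = 1) {i j : V} (hij : i ≠ j) (hn : ¬ G.Adj i j) :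
    C.phi i j + C.phi j i = 2 * a i * a j + (C.e1 i j + C.e1 j i) := by
  have hI : G.IsIndepSet (({i, j} : Finset V) : Set V) := by
    intro p hp q hq hpq hA
    simp only [coe_insert, coe_singleton, Set.mem_insert_iff, Set.mem_singleton_iff] at hp hq
    rcases hp with rfl | rfl <;> rcases hq with rfl | rfl
    exacts [hpq rfl, hn hA, hn hA.symm, hpq rfl]
  have := C.eq' {i, j} hI
  simp only [fval_sOf, sum_pair hij, C.kap_zero h, sum_const_zero, C.e1_diag hF, h] at this
  have r1 := C.row hF h i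
  have r2 := C.row hF h j
  unfold Cert.phi
  rw [pair_comm j i]
  linarith

end Pure

end Pool.Agent.Lib.MP_2081ef_co
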