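import Pool.Agent.Lib.MP_2081ef_co.Defs

/-! Critical edges and joined critical rank constraints. -/

namespace Pool.Agent.Lib.MP_2081ef_co

open Finset

/-- The graph of critical edges: edges whose deletion increases the stability number. -/
def crit {W : Type} (G : SimpleGraph W) : SimpleGraph W where
  Adj p q := G.Adj p q ∧ G.indepNum < (G.deleteEdges {s(p, q)}).indepNum
  symm := ⟨fun p q h => ⟨h.1.symm, by rw [Sym2.eq_swap]; exact h.2⟩⟩
  loopless := ⟨fun p h => G.irrefl h.1⟩

/-- The critical edges form a connected spanning subgraph in which every vertex has at least two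
neighbours. -/
def CritTwo {W : Type} (G : SimpleGraph W) : Prop :=
  (crit G).Connected ∧ ∀ v, ∃ p q, p ≠ q ∧ (crit G).Adj v p ∧ (crit G).Adj v q

variable {V : Type} [Fintype V] [DecidableEq V]

/-- An induced subgraph of `G` that is the complete join of induced subgraphs `G[B_1], …, G[B_m]`
satisfying `CritTwo` and a clique `Q`. -/
structure JoinedCrit (G : SimpleGraph V) where
  m : ℕ
  B : Fin m → Finset V
  two : ∀ i, CritTwo (G.induce (B i : Set V))
  Q : Finset V
  clique : G.IsClique (Q : Set V)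
  join_parts : ∀ i j, i ≠ j → ∀ a ∈ B i, ∀ b ∈ B j, G.Adj a b
  join_clique : ∀ i, ∀ a ∈ B i, ∀ q ∈ Q, G.Adj a q

/-- Left-hand side `∑ x(B_i)/α(G[B_i]) + x(Q)` of the joined rank constraint. -/
noncomputable def JoinedCrit.lhs {G : SimpleGraph V} (J : JoinedCrit G) (x : V → ℝ) : ℝ :=
  ∑ i, (1 / ((G.induce (J.B i : Set V)).indepNum : ℝ)) * ∑ a ∈ J.B i, x a + ∑ q ∈ J.Q, x q

end Pool.Agent.Lib.MP_2081ef_co
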