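import Pool.Agent.Lib.MP_2081ef_co.Defs

/-! Cycles and circulants. -/

namespace Pool.Agent.Lib.MP_2081ef_co

open Finset

lemma exists_cycle {V : Type} [Fintype V] (H : SimpleGraph V) (hc : H.Connected)
    (two : ∀ v, ∃ p q, p ≠ q ∧ H.Adj v p ∧ H.Adj v q)
    (le2 : ∀ v p q, p ≠ q → H.Adj v p → H.Adj v q → ∀ t, H.Adj v t → t = p ∨ t = q) :
    ∃ (m : ℕ) (_ : NeZero m) (e : ZMod m ≃ V), 3 ≤ m ∧ ∀ t, H.Adj (e t) (e (t + 1)) := by
  classical
  have hn : ∀ a b, ∃ c, H.Adj b c ∧ c ≠ a := fun a b => by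
    obtain ⟨p, q, hpq, hp, hq⟩ := two b
    by_cases h : p = a
    · exact ⟨q, hq, fun h' => hpq (h.trans h'.symm)⟩
    · exact ⟨p, hp, h⟩
  choose nxt hn1 hn2 using hn
  obtain ⟨v0⟩ := hc.nonempty
  obtain ⟨p0, -, -, hp0, -⟩ := two v0
  let f : ℕ → V × V := fun t => (fun x : V × V => (x.2, nxt x.1 x.2))^[t] (v0, p0)
  have hf : ∀ t, f (t + 1) = ((f t).2, nxt (f t).1 (f t).2) := fun t => by
    simp only [f, Function.iterate_succ_apply']
  set p : ℕ → V := fun t => (f t).1 with hp
  have p1 : ∀ t, p (t + 1) = (f t).2 := fun t => by simp only [hp, hf]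
  have p2 : ∀ t, p (t + 2) = nxt (p t) (p (t + 1)) := fun t => by
    rw [p1 (t + 1), hf, p1]
  have padj : ∀ t, H.Adj (p t) (p (t + 1)) := fun t => by
    cases t with
    | zero => rw [p1]; exact hp0
    | succ t => rw [p2]; exact hn1 _ _
  have pne : ∀ t, p (t + 2) ≠ p t := fun t => by rw [p2]; exact hn2 _ _
  have hex : ∃ m, ∃ s < m, p s = p m := by
    obtain ⟨a, b, hab, h⟩ := Finite.exists_ne_map_eq_of_infinite p
    rcases lt_or_gt_of_ne hab with h1 | h1
    · exact ⟨b, a, h1, h⟩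
    · exact ⟨a, b, h1, h.symm⟩
  set m := Nat.find hex with hm
  have inj : ∀ a < m, ∀ b < m, p a = p b → a = b := fun a ha b hb h => by
    by_contra hab
    rcases lt_or_gt_of_ne hab with h1 | h1
    · exact Nat.find_min hex hb ⟨a, h1, h⟩
    · exact Nat.find_min hex ha ⟨b, h1, h.symm⟩
  obtain ⟨s, hs, hsm⟩ : ∃ s < m, p s = p m := Nat.find_spec hex
  have hs1 : s + 1 ≠ m := fun h => (padj s).ne (by rw [h]; exact hsm)
  have hs2 : s + 2 ≠ m := fun h => pne s (by rw [h]; exact hsm.symm)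
  obtain ⟨l, hl⟩ : ∃ l, m = l + 1 := ⟨m - 1, by omega⟩
  have hlast : H.Adj (p s) (p l) := by rw [hsm, hl]; exact (padj l).symm
  have hs0 : s = 0 := by
    by_contra h0
    obtain ⟨s', rfl⟩ : ∃ s', s = s' + 1 := ⟨s - 1, by omega⟩
    rcases le2 _ _ _ (pne s') (padj (s' + 1)) (padj s').symm _ hlast with h | h
    · have := inj l (by omega) (s' + 2) (by omega) h
      omega
    · have := inj l (by omega) s' (by omega) h
      omega
  subst hs0
  have hm3 : 3 ≤ m := by omega
  have hm1 : p (m + 1) = p 1 := by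
    have h1 : p 1 ≠ p l := fun h => by
      have := inj 1 (by omega) l (by omega) h
      omega
    rcases le2 _ _ _ h1 (padj 0) hlast (p (m + 1)) (by rw [hsm]; exact padj m) with h | h
    · exact h
    · exact (pne l (by rw [← h, hl])).elim
  have per2 : ∀ t, p (t + m) = p t ∧ p (t + 1 + m) = p (t + 1) := fun t => by
    induction t with
    | zero => exact ⟨by simpa using hsm.symm, by rw [← hm1]; congr 1; omega⟩
    | succ t ih =>
      refine ⟨ih.2, ?_⟩
      have e1 : t + 1 + 1 + m = t + m + 2 := by omega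
      have e2 : t + m + 1 = t + 1 + m := by omega
      rw [e1, p2, e2, ih.1, ih.2, ← p2]
  have per : Function.Periodic p m := fun t => (per2 t).1
  have surj : ∀ v, ∃ t, p t = v := by
    have key : ∀ a b, H.Walk a b → (∃ t, p t = a) → ∃ t, p t = b := by
      intro a b w
      induction w with
      | nil => exact id
      | cons h _ ih =>
        rintro ⟨t, rfl⟩
        apply ih
        have e1 : p (t + l + 1) = p t := by rw [← per t, hl, add_assoc]
        rcases le2 (p t) _ _ (pne (t + l)) (e1 ▸ padj (t + l + 1)) (e1 ▸ (padj (t + l)).symm)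
          _ h with h | h
        · exact ⟨_, h.symm⟩
        · exact ⟨_, h.symm⟩
    intro v
    obtain ⟨w⟩ := hc.preconnected (p 0) v
    exact key _ _ w ⟨0, rfl⟩
  have : NeZero m := ⟨by omega⟩
  have cast : ∀ a : ℕ, p (a : ZMod m).val = p a := fun a => by
    rw [ZMod.val_natCast, per.map_mod_nat]
  refine ⟨m, inferInstance, Equiv.ofBijective (fun x : ZMod m => p x.val) ⟨fun a b h => ?_,
    fun v => ?_⟩, hm3, fun t => ?_⟩
  · exact ZMod.val_injective m (inj _ (ZMod.val_lt a) _ (ZMod.val_lt b) h)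
  · obtain ⟨t, rfl⟩ := surj v
    exact ⟨t, cast t⟩
  · simp only [Equiv.ofBijective_apply]
    have : t + 1 = ((t.val + 1 : ℕ) : ZMod m) := by simp
    rw [this, cast]
    exact padj _

lemma circ (m k : ℕ) [NeZero m] (hk : 2 ≤ k) (hkm : k ≤ m) (N : Finset (ZMod m))
    (hcard : N.card + 1 = k) (h0 : (0 : ZMod m) ∉ N) (hsym : ∀ d ∈ N, 1 - d ∈ N)
    (hm1 : (-1 : ZMod m) ∉ N) (hex : ∀ d ∈ N, -d ∉ N)
    (htot : ∀ x ∈ insert 0 N, ∀ y ∈ insert 0 N, x ≠ y → x - y ∈ N ∨ y - x ∈ N) :
    (∃ u : ZMod m, k * u = 1) ∧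
      ∀ d, d ∈ N ↔ ∃ c : ℕ, 1 ≤ c ∧ c < k ∧ (k : ZMod m) * d = c := by
  set S := insert 0 N with hS
  have hScard : S.card = k := by rw [hS, card_insert_of_notMem h0, hcard]
  have h1 : (1 : ZMod m) ∉ N := fun h => h0 (by simpa using hsym 1 h)
  have main : ∀ x ∈ S, (k : ZMod m) * x + (((S.erase x).filter fun y => x - y ∉ N).card : ℕ) =
      2 * ∑ d ∈ N, d := by
    intro x hx
    set μ : ZMod m → ZMod m := fun y => if x - y ∈ N then x - y else x - y + 1 with hμ
    have hmem : ∀ y ∈ S.erase x, μ y ∈ N := fun y hy => by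
      obtain ⟨a1, a2⟩ := mem_erase.1 hy
      simp only [hμ]
      split_ifs with h
      · exact h
      · rcases htot x hx y a2 a1.symm with h' | h'
        · exact (h h').elim
        · have := hsym _ h'
          rwa [show 1 - (y - x) = x - y + 1 by ring] at this
    have hinj : Set.InjOn μ (S.erase x : Set (ZMod m)) := fun y hy z hz h => by
      by_contra hne
      have a1 := (mem_erase.1 (mem_coe.1 hy)).2
      have a2 := (mem_erase.1 (mem_coe.1 hz)).2
      simp only [hμ] at h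
      split_ifs at h
      · exact hne (by linear_combination -h)
      · rcases htot y a1 z a2 hne with h' | h'
        · exact hm1 (by rwa [show y - z = -1 by linear_combination -h] at h')
        · exact h1 (by rwa [show z - y = 1 by linear_combination h] at h')
      · rcases htot y a1 z a2 hne with h' | h'
        · exact h1 (by rwa [show y - z = 1 by linear_combination -h] at h')
        · exact hm1 (by rwa [show z - y = -1 by linear_combination h] at h')
      · exact hne (by linear_combination -h)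
    have himg : (S.erase x).image μ = N := by
      refine eq_of_subset_of_card_le (fun d hd => ?_) ?_
      · obtain ⟨y, hy, rfl⟩ := mem_image.1 hd
        exact hmem y hy
      · rw [card_image_of_injOn hinj, card_erase_of_mem hx]; omega
    have e1 : ∑ d ∈ N, d = ∑ y ∈ S.erase x, μ y := by
      rw [← himg, sum_image hinj]
    have e2 : ∑ y ∈ S.erase x, μ y = ∑ y ∈ S.erase x, (x - y) +
        (((S.erase x).filter fun y => x - y ∉ N).card : ℕ) := by
      rw [card_filter, Nat.cast_sum, ← sum_add_distrib]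
      refine sum_congr rfl fun y _ => ?_
      simp only [hμ]
      split_ifs <;> simp
    have e3 : ∑ y ∈ S.erase x, y + x = ∑ d ∈ N, d := by
      rw [sum_erase_add _ _ hx, hS, sum_insert h0, zero_add]
    have e4 : (((S.erase x).card : ℕ) : ZMod m) + 1 = k := by
      rw [← hScard, ← card_erase_add_one hx]; simp
    rw [sum_sub_distrib, sum_const, nsmul_eq_mul] at e2
    linear_combination -e1 - e2 - x * e4 + e3 - e1 + e1
  have m0 : 2 * ∑ d ∈ N, d = ((k - 1 : ℕ) : ZMod m) := by
    rw [← main 0 (mem_insert_self _ _), filter_true_of_mem, card_erase_of_mem (mem_insert_self _ _),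
      hScard]
    · simp
    · intro y hy h
      obtain ⟨a1, a2⟩ := mem_erase.1 hy
      rcases mem_insert.1 a2 with h' | h'
      · exact a1 h'
      · exact hex y h' (by simpa using h)
  have fwd : ∀ d ∈ N, ∃ c : ℕ, 1 ≤ c ∧ c < k ∧ (k : ZMod m) * d = c := by
    intro x hx
    have hxS : x ∈ S := mem_insert_of_mem hx
    have a1 := main x hxS
    have a2 := card_filter_add_card_filter_not (s := S.erase x) (fun y => x - y ∈ N)
    rw [card_erase_of_mem hxS, hScard] at a2
    refine ⟨((S.erase x).filter fun y => x - y ∈ N).card, ?_, by omega, ?_⟩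
    · refine card_pos.2 ⟨0, mem_filter.2 ⟨mem_erase.2 ⟨?_, mem_insert_self _ _⟩, by simpa using hx⟩⟩
      rintro rfl
      exact h0 hx
    · rw [m0, ← a2, Nat.cast_add] at a1
      linear_combination a1
  have nz : ∀ d ∈ N, (k : ZMod m) * d ≠ 0 := fun d hd h => by
    obtain ⟨c, c1, c2, c3⟩ := fwd d hd
    rw [h, eq_comm, ZMod.natCast_eq_zero_iff] at c3
    have := Nat.le_of_dvd (by omega) c3
    omega
  have hinj : Set.InjOn (fun d => (k : ZMod m) * d) (N : Set (ZMod m)) := fun x hx y hy h => by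
    by_contra hne
    rcases htot x (mem_insert_of_mem hx) y (mem_insert_of_mem hy) hne with h' | h'
    · exact nz _ h' (by linear_combination h)
    · exact nz _ h' (by linear_combination -h)
  have himg : N.image (fun d => (k : ZMod m) * d) =
      (Ico 1 k).image fun c : ℕ => (c : ZMod m) := by
    refine eq_of_subset_of_card_le (fun z hz => ?_) ?_
    · obtain ⟨d, hd, rfl⟩ := mem_image.1 hz
      obtain ⟨c, c1, c2, c3⟩ := fwd d hd
      exact mem_image.2 ⟨c, mem_Ico.2 ⟨c1, c2⟩, c3.symm⟩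
    · rw [card_image_of_injOn hinj]
      refine card_image_le.trans ?_
      rw [Nat.card_Ico]; omega
  have bwd : ∀ c : ℕ, 1 ≤ c → c < k → ∃ d ∈ N, (k : ZMod m) * d = c := fun c c1 c2 => by
    have : (c : ZMod m) ∈ N.image (fun d => (k : ZMod m) * d) := by
      rw [himg]; exact mem_image.2 ⟨c, mem_Ico.2 ⟨c1, c2⟩, rfl⟩
    exact mem_image.1 this
  obtain ⟨u, -, hu⟩ := bwd 1 le_rfl (by omega)
  rw [Nat.cast_one] at hu
  refine ⟨⟨u, hu⟩, fun d => ⟨fwd d, ?_⟩⟩
  rintro ⟨c, c1, c2, c3⟩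
  obtain ⟨d', hd', h⟩ := bwd c c1 c2
  have : d = d' := by linear_combination u * (c3 - h) - (d - d') * hu
  rwa [this]

lemma zmod_diff (m k : ℕ) [NeZero m] (hkm : k ≤ m) (a b : ZMod m) :
    (∃ c : ℕ, 1 ≤ c ∧ c < k ∧ a - b = c) ↔
      (1 ≤ (a.val : ℤ) - b.val ∧ (a.val : ℤ) - b.val < k) ∨
        (1 ≤ (a.val : ℤ) - b.val + m ∧ (a.val : ℤ) - b.val + m < k) := by
  have ha := ZMod.val_lt a
  have hb := ZMod.val_lt b
  have e : a - b = (((a.val : ℤ) - b.val : ℤ) : ZMod m) := by simp
  constructor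
  · rintro ⟨c, c1, c2, c3⟩
    rw [e, ← Int.cast_natCast c, ZMod.intCast_eq_intCast_iff_dvd_sub] at c3
    obtain ⟨q, hq⟩ := c3
    have q1 : -1 < q := by
      by_contra h
      push Not at h
      nlinarith
    have q2 : q < 2 := by
      by_contra h
      push Not at h
      nlinarith
    obtain rfl | rfl : q = 0 ∨ q = 1 := by omega
    · left; omega
    · right; omega
  · rintro (⟨h1, h2⟩ | ⟨h1, h2⟩)
    · refine ⟨((a.val : ℤ) - b.val).toNat, by omega, by omega, ?_⟩
      rw [e, ← Int.cast_natCast (Int.toNat _), Int.toNat_of_nonneg (by omega)]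
    · refine ⟨((a.val : ℤ) - b.val + m).toNat, by omega, by omega, ?_⟩
      rw [e, ← Int.cast_natCast (Int.toNat _), Int.toNat_of_nonneg (by omega)]
      simp

lemma antiweb_iff (m k : ℕ) [NeZero m] (hkm : k ≤ m) (a b : ZMod m) :
    (antiweb m k).Adj ⟨a.val, ZMod.val_lt a⟩ ⟨b.val, ZMod.val_lt b⟩ ↔
      a ≠ b ∧ ¬ (∃ c : ℕ, 1 ≤ c ∧ c < k ∧ a - b = c) ∧ ¬ (∃ c : ℕ, 1 ≤ c ∧ c < k ∧ b - a = c) := by
  have ha := ZMod.val_lt a
  have hb := ZMod.val_lt b
  rw [zmod_diff m k hkm, zmod_diff m k hkm, ← (ZMod.val_injective m).ne_iff]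
  simp only [antiweb, ne_eq, Fin.mk.injEq, le_abs, abs_le]
  omega

end Pool.Agent.Lib.MP_2081ef_co
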