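import Mathlib

/-! Definitions for the LS+-perfect graph conjecture. -/

namespace Pool.Agent.Lib.MP_2081ef_co

open Finset

variable {V : Type} [Fintype V] [DecidableEq V]

/-- The incidence vector of a finite vertex set. -/
def incid (S : Finset V) : V → ℝ := fun v => if v ∈ S then 1 else 0

/-- `STAB(G)`: convex hull of the incidence vectors of the stable sets. -/
def STAB (G : SimpleGraph V) : Set (V → ℝ) :=
  convexHull ℝ {x | ∃ S : Finset V, G.IsIndepSet (S : Set V) ∧ x = incid S}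

/-- `ESTAB(G)`: the edge relaxation. -/
def ESTAB (G : SimpleGraph V) : Set (V → ℝ) :=
  {x | (∀ i, 0 ≤ x i ∧ x i ≤ 1) ∧ ∀ i j, G.Adj i j → x i + x j ≤ 1}

/-- The antiweb `A_n^k` on `0, …, n-1`: `ij` is an edge iff `i ≠ j` and `k ≤ |i-j| ≤ n-k`. -/
def antiweb (n k : ℕ) : SimpleGraph (Fin n) where
  Adj i j := i ≠ j ∧ (k : ℤ) ≤ |((i : ℕ) : ℤ) - ((j : ℕ) : ℤ)| ∧
    |((i : ℕ) : ℤ) - ((j : ℕ) : ℤ)| ≤ (n : ℤ) - (k : ℤ)
  symm := ⟨fun i j h => ⟨h.1.symm, by rw [abs_sub_comm]; exact h.2.1, by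
    rw [abs_sub_comm]; exact h.2.2⟩⟩
  loopless := ⟨fun i h => h.1 rfl⟩

/-- An induced subgraph of `G` that is the complete join of antiwebs `A_1, …, A_m` and a
clique `Q`. -/
structure JoinedAntiweb (G : SimpleGraph V) where
  m : ℕ
  n : Fin m → ℕ
  k : Fin m → ℕ
  emb : ∀ i, antiweb (n i) (k i) ↪g G
  Q : Finset V
  clique : G.IsClique (Q : Set V)
  join_webs : ∀ i j, i ≠ j → ∀ a b, G.Adj (emb i a) (emb j b)
  join_clique : ∀ i a, ∀ q ∈ Q, G.Adj (emb i a) q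

/-- Left-hand side `∑ x(A_i)/α(A_i) + x(Q)` of the joined antiweb constraint. -/
noncomputable def JoinedAntiweb.lhs {G : SimpleGraph V} (J : JoinedAntiweb G) (x : V → ℝ) : ℝ :=
  ∑ i, (1 / ((antiweb (J.n i) (J.k i)).indepNum : ℝ)) * ∑ a, x (J.emb i a) + ∑ q ∈ J.Q, x q

/-- `ASTAB*(G)`: points of the unit cube satisfying all joined antiweb constraints. -/
def ASTABstar (G : SimpleGraph V) : Set (V → ℝ) :=
  {x | (∀ i, 0 ≤ x i ∧ x i ≤ 1) ∧ ∀ J : JoinedAntiweb G, J.lhs x ≤ 1}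

/-- `cone(K) = {(x₀, x) : x = x₀ y, y ∈ K}`; the coordinate `0` is `none`. -/
def coneOf (K : Set (V → ℝ)) : Set (Option V → ℝ) :=
  {z | ∃ y ∈ K, ∀ i, z (some i) = z none * y i}

/-- `M₊(K)`. -/
def Mplus (K : Set (V → ℝ)) : Set (Matrix (Option V) (Option V) ℝ) :=
  {Y | Y.PosSemidef ∧ (∀ p, Y p none = Y p p) ∧
    (∀ i : V, (fun p => Y p (some i)) ∈ coneOf K) ∧
    (∀ i : V, (fun p => Y p none - Y p (some i)) ∈ coneOf K)}

/-- The Lovász–Schrijver operator `LS₊(K)`. -/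
def LSplus (K : Set (V → ℝ)) : Set (V → ℝ) :=
  {x | (∀ i, 0 ≤ x i ∧ x i ≤ 1) ∧
    ∃ Y ∈ Mplus K, Y none none = 1 ∧ ∀ i, Y (some i) none = x i}

end Pool.Agent.Lib.MP_2081ef_co
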