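import Pool.Agent.Lib.MP_2081ef_co.ThmA
import Pool.Agent.Lib.MP_2081ef_co.Back

/-! Passing to induced subgraphs, and the class theorem. -/

namespace Pool.Agent.Lib.MP_2081ef_co

open Finset

variable {V : Type} [Fintype V] [DecidableEq V] {G : SimpleGraph V}
variable {W : Type} [Fintype W] [DecidableEq W] {G' : SimpleGraph W}

/-- extension by zero -/
noncomputable def ext0 (f : G' ↪g G) (z : Option W → ℝ) (p : Option V) : ℝ :=
  ∑ q, (if p = q.map f then 1 else 0) * z q

lemma ext0_map (f : G' ↪g G) (z : Option W → ℝ) (q : Option W) : ext0 f z (q.map f) = z q := by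
  have hinj : Function.Injective (Option.map f) := Option.map_injective f.injective
  simp only [ext0, hinj.eq_iff]
  simp

lemma ext0_none (f : G' ↪g G) (z : Option W → ℝ) : ext0 f z none = z none := ext0_map f z none

lemma ext0_some (f : G' ↪g G) (z : Option W → ℝ) (a : W) :
    ext0 f z (some (f a)) = z (some a) := ext0_map f z (some a)

lemma ext0_out (f : G' ↪g G) (z : Option W → ℝ) (v : V) (h : ∀ a, f a ≠ v) :
    ext0 f z (some v) = 0 := by
  refine sum_eq_zero fun q _ => ?_
  cases q with
  | none => simp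
  | some a => simp [(h a).symm]

lemma ext0_cone (f : G' ↪g G) (z : Option W → ℝ) (h00 : 0 ≤ z none) (h0 : ∀ a, 0 ≤ z (some a))
    (h1 : ∀ a, z (some a) ≤ z none) (h2 : ∀ a b, G'.Adj a b → z (some a) + z (some b) ≤ z none) :
    ext0 f z ∈ coneOf (ESTAB G) := by
  have a0 : ∀ v, 0 ≤ ext0 f z (some v) := fun v => by
    by_cases h : ∃ a, f a = v
    · obtain ⟨a, rfl⟩ := h
      rw [ext0_some]; exact h0 a
    · push Not at h
      rw [ext0_out f z v h]
  have a1 : ∀ v, ext0 f z (some v) ≤ z none := fun v => by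
    by_cases h : ∃ a, f a = v
    · obtain ⟨a, rfl⟩ := h
      rw [ext0_some]; exact h1 a
    · push Not at h
      rw [ext0_out f z v h]; exact h00
  refine mem_cone _ a0 (fun v => by rw [ext0_none]; exact a1 v) fun v w hvw => ?_
  rw [ext0_none]
  by_cases h : ∃ a, f a = v
  · obtain ⟨a, rfl⟩ := h
    by_cases h' : ∃ b, f b = w
    · obtain ⟨b, rfl⟩ := h'
      rw [ext0_some, ext0_some]
      exact h2 a b (f.map_rel_iff.1 hvw)
    · push Not at h'
      rw [ext0_out f z w h', add_zero]; exact a1 _
  · push Not at h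
    rw [ext0_out f z v h, zero_add]; exact a1 _

theorem lsplus_ext (f : G' ↪g G) {x : W → ℝ} (hx : x ∈ LSplus (ESTAB G')) :
    ∃ y ∈ LSplus (ESTAB G), (∀ a, y (f a) = x a) ∧ ∀ v, (∀ a, f a ≠ v) → y v = 0 := by
  obtain ⟨hx01, Y, ⟨hpsd, hdiag, hc1, hc2⟩, hY0, hYx⟩ := hx
  have hsym : ∀ p q, Y p q = Y q p := fun p q => by
    have := hpsd.isHermitian.apply p q
    simpa using this.symm
  set E : Matrix (Option V) (Option W) ℝ := Matrix.of fun p q => if p = q.map f then 1 else 0
    with hE
  set Z := E * Y * E.conjTranspose with hZ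
  have hZe : ∀ p p', Z p p' = ext0 f (fun q => ext0 f (fun q' => Y q q') p') p := fun p p' => by
    simp only [hZ, Matrix.mul_apply, Matrix.conjTranspose_apply, hE, Matrix.of_apply, ext0,
      star_trivial, sum_mul, mul_sum]
    rw [sum_comm]
    exact sum_congr rfl fun q _ => sum_congr rfl fun q' _ => by ring
  have col : ∀ q', (fun p => Z p (q'.map f)) = ext0 f fun q => Y q q' := fun q' => by
    funext p
    simp only [hZe, ext0_map]
  have colz : ∀ v, (∀ a, f a ≠ v) → ∀ p, Z p (some v) = 0 := fun v h p => by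
    simp only [hZe, ext0_out f _ v h]
    simp [ext0]
  have c0 : ∀ p, Z p none = ext0 f (fun q => Y q none) p := fun p => congrFun (col none) p
  have f1 : ∀ i, (∀ a, 0 ≤ Y (some a) (some i)) ∧ (∀ a, Y (some a) (some i) ≤ Y none (some i)) ∧
      ∀ a b, G'.Adj a b → Y (some a) (some i) + Y (some b) (some i) ≤ Y none (some i) :=
    fun i => cone_facts (hc1 i) (by rw [hsym, hYx]; exact (hx01 i).1)
  have n2 : ∀ i, 0 ≤ Y none none - Y none (some i) := fun i => by
    rw [hsym none (some i), hYx, hY0]; exact sub_nonneg.2 (hx01 i).2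
  have f2 := fun i => cone_facts (hc2 i) (n2 i)
  refine ⟨fun v => Z (some v) none, ⟨fun v => ?_, Z, ⟨hpsd.mul_mul_conjTranspose_same E, ?_, ?_, ?_⟩,
    ?_, fun _ => rfl⟩, fun a => ?_, fun v h => ?_⟩
  · simp only [c0]
    by_cases h : ∃ a, f a = v
    · obtain ⟨a, rfl⟩ := h
      rw [ext0_some, hYx]; exact hx01 a
    · push Not at h
      rw [ext0_out f _ v h]; norm_num
  · intro p
    cases p with
    | none => rfl
    | some v =>
      by_cases h : ∃ a, f a = v
      · obtain ⟨a, rfl⟩ := h
        have := congrFun (col (some a)) (some (f a))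
        simp only [Option.map_some] at this
        rw [c0, this, ext0_some, ext0_some, hdiag]
      · push Not at h
        rw [c0, ext0_out f _ v h, colz v h]
  · intro v
    by_cases h : ∃ a, f a = v
    · obtain ⟨a, rfl⟩ := h
      have := col (some a)
      simp only [Option.map_some] at this
      rw [this]
      exact ext0_cone f _ (by rw [hsym, hYx]; exact (hx01 a).1) (f1 a).1 (f1 a).2.1 (f1 a).2.2
    · push Not at h
      simp only [colz v h]
      exact mem_cone _ (fun _ => le_rfl) (fun _ => le_rfl) fun _ _ _ => by simp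
  · intro v
    by_cases h : ∃ a, f a = v
    · obtain ⟨a, rfl⟩ := h
      have e : (fun p => Z p none - Z p (some (f a))) =
          ext0 f fun q => Y q none - Y q (some a) := by
        funext p
        have := congrFun (col (some a)) p
        simp only [Option.map_some] at this
        rw [c0, this]
        simp only [ext0, mul_sub, sum_sub_distrib]
      rw [e]
      exact ext0_cone f _ (n2 a) (f2 a).1 (f2 a).2.1 (f2 a).2.2
    · push Not at h
      simp only [colz v h, sub_zero, c0]
      refine ext0_cone f _ (by rw [hY0]; norm_num) (fun a => by rw [hYx]; exact (hx01 a).1)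
        (fun a => by rw [hYx, hY0]; exact (hx01 a).2) fun a b hab => ?_
      have a1 := (f1 a).2.2 a b hab
      have a2 := (f2 a).2.1 b
      have a3 := hdiag (some a)
      have a4 := hsym none (some a)
      linarith
  · rw [c0, ext0_none, hY0]
  · simp only [c0, ext0_some, hYx]
  · simp only [c0, ext0_out f _ v h]

theorem thmA_induce (B : Finset V) (h : CritTwo (G.induce (B : Set V)))
    (hval : ∀ x ∈ LSplus (ESTAB G), ∑ v ∈ B, x v ≤ (G.induce (B : Set V)).indepNum) :
    Nonempty (G.induce (B : Set V) ≃g antiweb B.card (G.induce (B : Set V)).indepNum) := by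
  have := thmA h fun x hx => by
    obtain ⟨y, hy, h1, -⟩ := lsplus_ext (SimpleGraph.Embedding.induce (G := G) (B : Set V)) hx
    refine le_trans (le_of_eq ?_) (hval y hy)
    rw [← sum_coe_sort B y]
    exact sum_congr rfl fun a _ => (h1 a).symm
  have hc : Fintype.card (B : Set V) = B.card := by simp
  rwa [hc] at this

lemma indepNum_le_of_emb {X X' : Type} [Fintype X] [Fintype X'] {A : SimpleGraph X}
    {A' : SimpleGraph X'} (f : A ↪g A') : A.indepNum ≤ A'.indepNum := by
  obtain ⟨S, hS⟩ := A.exists_isNIndepSet_indepNum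
  have : A'.IsIndepSet ((S.map f.toEmbedding : Finset X') : Set X') := by
    intro a ha b hb hab hA
    obtain ⟨a, ha', rfl⟩ := mem_map.1 (mem_coe.1 ha)
    obtain ⟨b, hb', rfl⟩ := mem_map.1 (mem_coe.1 hb)
    exact hS.isIndepSet (mem_coe.2 ha') (mem_coe.2 hb') (fun h => hab (by rw [h]))
      (f.map_rel_iff.1 hA)
  have := this.card_le_indepNum
  rwa [card_map, hS.card_eq] at this

lemma rank_valid (B : Finset V) {x : V → ℝ} (hx : x ∈ STAB G) :
    ∑ v ∈ B, x v ≤ (G.induce (B : Set V)).indepNum := by
  have hconv : Convex ℝ {x : V → ℝ | ∑ v ∈ B, x v ≤ (G.induce (B : Set V)).indepNum} := by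
    intro x hx y hy a b ha hb hab
    simp only [Set.mem_ofPred_eq, Pi.add_apply, Pi.smul_apply, smul_eq_mul, sum_add_distrib,
      ← mul_sum] at hx hy ⊢
    have e : ((G.induce (B : Set V)).indepNum : ℝ) =
      a * (G.induce (B : Set V)).indepNum + b * (G.induce (B : Set V)).indepNum := by
      rw [← add_mul, hab, one_mul]
    rw [e]
    exact add_le_add (mul_le_mul_of_nonneg_left hx ha) (mul_le_mul_of_nonneg_left hy hb)
  refine convexHull_min ?_ hconv hx
  rintro _ ⟨S, hS, rfl⟩
  have hI : (G.induce (B : Set V)).IsIndepSet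
      ((univ.filter fun a : (B : Set V) => a.1 ∈ S : Finset (B : Set V)) : Set (B : Set V)) := by
    intro a ha b hb hab hA
    exact hS (mem_coe.2 (mem_filter.1 (mem_coe.1 ha)).2) (mem_coe.2 (mem_filter.1 (mem_coe.1 hb)).2)
      (fun h => hab (Subtype.ext h)) hA
  have h1 := hI.card_le_indepNum
  simp only [Set.mem_ofPred_eq]
  rw [← sum_coe_sort B]
  refine le_trans (le_of_eq ?_) (Nat.cast_le.2 h1)
  rw [card_filter, Nat.cast_sum]
  refine sum_congr rfl fun a _ => ?_
  simp [incid]

theorem class_thm (hC : ∀ x ∈ ASTABstar G, (∀ J : JoinedCrit G, J.lhs x ≤ 1) → x ∈ STAB G) :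
    LSplus (ESTAB G) = STAB G ↔ LSplus (ESTAB G) = ASTABstar G := by
  refine ⟨fun h => ?_, backward G⟩
  rw [h]
  refine Set.Subset.antisymm (STAB_subset_ASTAB G) fun x hx => hC x hx fun J => ?_
  have iso := fun i => (thmA_induce (J.B i) (J.two i) fun x hx => rank_valid _ (h ▸ hx)).some
  let J' : JoinedAntiweb G :=
    { m := J.m
      n := fun i => (J.B i).card
      k := fun i => (G.induce (J.B i : Set V)).indepNum
      emb := fun i => (SimpleGraph.Embedding.induce (G := G) (J.B i : Set V)).comp
        (iso i).symm.toEmbedding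
      Q := J.Q
      clique := J.clique
      join_webs := fun i j hij a b => J.join_parts i j hij _ ((iso i).symm a).2 _ ((iso j).symm b).2
      join_clique := fun i a q hq => J.join_clique i _ ((iso i).symm a).2 q hq }
  refine le_trans (le_of_eq ?_) (hx.2 J')
  simp only [JoinedCrit.lhs, JoinedAntiweb.lhs, J']
  congr 1
  refine sum_congr rfl fun i _ => ?_
  rw [le_antisymm (indepNum_le_of_emb (iso i).symm.toEmbedding)
    (indepNum_le_of_emb (iso i).toEmbedding), ← sum_coe_sort (J.B i) x]
  congr 1
  exact ((iso i).symm.toEquiv.sum_comp fun a : (J.B i : Set V) => x a).symm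

lemma LSplus_subset_ASTAB (G : SimpleGraph V) : LSplus (ESTAB G) ⊆ ASTABstar G := by
  rintro x ⟨hx01, Y, ⟨hpsd, hdiag, hc1, -⟩, h1, hYx⟩
  refine ⟨hx01, fun J => ?_⟩
  have hsym : ∀ p q, Y p q = Y q p := fun p q => by
    have := hpsd.isHermitian.apply p q
    simpa using this.symm
  set u : Option V → ℝ := fun p => p.elim 1 (fun j => - J.coef j) with hu
  have hr : ∀ q, (Y.mulVec u) q = Y none q - J.lhs (fun j => Y (some j) q) := by
    intro q
    rw [J.lhs_eq]
    simp only [Matrix.mulVec, dotProduct, Fintype.sum_option, hu, Option.elim, mul_one, mul_neg,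
      sum_neg_distrib, hsym q]
    rw [sub_eq_add_neg]
    congr 2
    exact sum_congr rfl fun j _ => mul_comm _ _
  have hge : 0 ≤ u ⬝ᵥ Y.mulVec u := by
    have := hpsd.dotProduct_mulVec_nonneg u
    simpa using this
  simp only [dotProduct, Fintype.sum_option, hr] at hge
  have hle : ∑ j, u (some j) * (Y none (some j) - J.lhs fun a => Y (some a) (some j)) ≤ 0 := by
    refine sum_nonpos fun j _ => ?_
    by_cases hj : J.Supp j
    · have hnn : 0 ≤ Y none (some j) := by
        rw [hsym, hdiag]; exact hpsd.diag_nonneg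
      obtain ⟨f1, f2, f3⟩ := cone_facts (hc1 j) hnn
      have := J.layer j hj (fun a => Y (some a) (some j)) (Y none (some j)) f1 f2 f3
        (by rw [hsym none, hdiag])
      have h3 := J.coef_nonneg j
      simp only [hu, Option.elim]
      nlinarith
    · simp [hu, J.coef_zero j hj]
  have e : (fun j => Y (some j) none) = x := funext hYx
  rw [e, h1] at hge
  simp only [hu, Option.elim] at hge hle
  linarith

theorem thmA_iff (B : Finset V) (h : CritTwo (G.induce (B : Set V))) :
    (∀ x ∈ LSplus (ESTAB G), ∑ v ∈ B, x v ≤ (G.induce (B : Set V)).indepNum) ↔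
      Nonempty (G.induce (B : Set V) ≃g antiweb B.card (G.induce (B : Set V)).indepNum) := by
  refine ⟨thmA_induce B h, fun ⟨iso⟩ x hx => ?_⟩
  let J' : JoinedAntiweb G :=
    { m := 1
      n := fun _ => B.card
      k := fun _ => (G.induce (B : Set V)).indepNum
      emb := fun _ => (SimpleGraph.Embedding.induce (G := G) (B : Set V)).comp iso.symm.toEmbedding
      Q := ∅
      clique := by simp
      join_webs := fun i j hij => (hij (Subsingleton.elim i j)).elim
      join_clique := fun i a q hq => (notMem_empty q hq).elim }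
  have h1 := (LSplus_subset_ASTAB G hx).2 J'
  simp only [JoinedAntiweb.lhs, J', sum_empty, add_zero, Fin.sum_univ_one] at h1
  rw [← le_antisymm (indepNum_le_of_emb iso.toEmbedding)
    (indepNum_le_of_emb iso.symm.toEmbedding)] at h1
  have e : ∑ v ∈ B, x v = ∑ a, x ((SimpleGraph.Embedding.induce (G := G) (B : Set V)).comp
      iso.symm.toEmbedding a) := by
    rw [← sum_coe_sort B x]
    exact (iso.symm.toEquiv.sum_comp fun a : (B : Set V) => x a).symm
  obtain ⟨σ⟩ := exists_swap h
  obtain ⟨v⟩ := σ.conn.nonempty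
  obtain ⟨p, -, -, hp, -⟩ := σ.two v
  have hpos : (0 : ℝ) < (G.induce (B : Set V)).indepNum := by
    have := σ.card_ctx hp
    exact_mod_cast (by omega : 0 < (G.induce (B : Set V)).indepNum)
  rw [e]
  rwa [one_div, inv_mul_le_iff₀ hpos, mul_one] at h1

end Pool.Agent.Lib.MP_2081ef_co
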