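import Pool.Agent.Lib.MP_2081ef_co.Cert
import Pool.Agent.Lib.MP_2081ef_co.Ind

/-! Reduction of the conjecture to co-connected full support facets with a certificate. -/

namespace Pool.Agent.Lib.MP_2081ef_co

open Finset Filter Topology

variable {V : Type} [Fintype V] [DecidableEq V]

/-- `a · x ≤ 1` is a full support facet of `STAB(G)`: positive, valid, and the tight stable sets
(roots) span. -/
structure IsFacet (G : SimpleGraph V) (a : V → ℝ) : Prop where
  pos : ∀ v, 0 < a v
  valid : ∀ S : Finset V, G.IsIndepSet (S : Set V) → ∑ v ∈ S, a v ≤ 1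
  ker : ∀ c : V → ℝ, (∀ S : Finset V, G.IsIndepSet (S : Set V) → ∑ v ∈ S, a v = 1 →
    ∑ v ∈ S, c v = 0) → ∀ v, c v = 0

/-- the same for the subgraph induced on `B`, phrased inside `V` -/
structure FacetOn (G : SimpleGraph V) (B : Finset V) (a : V → ℝ) : Prop where
  pos : ∀ v ∈ B, 0 < a v
  valid : ∀ S ⊆ B, G.IsIndepSet (S : Set V) → ∑ v ∈ S, a v ≤ 1
  ker : ∀ c : V → ℝ, (∀ S ⊆ B, G.IsIndepSet (S : Set V) → ∑ v ∈ S, a v = 1 →
    ∑ v ∈ S, c v = 0) → ∀ v ∈ B, c v = 0

/-- `G` is not a complete join of two nonempty parts -/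
def CoConn (G : SimpleGraph V) : Prop :=
  ∀ C : Finset V, C.Nonempty → (∀ u ∈ C, ∀ w ∉ C, G.Adj u w) → C = univ

/-- the affine function `1 - a · x` -/
def sOf (a : V → ℝ) : Option V → ℝ := fun p => p.elim 1 fun v => -a v

omit [Fintype V] [DecidableEq V] in
lemma fval_sOf (a : V → ℝ) (T : Finset V) : fval (sOf a) T = 1 - ∑ v ∈ T, a v := by
  simp [fval, sOf, sub_eq_add_neg]

lemma exists_sep (G : SimpleGraph V) (y : V → ℝ) (hy : ∀ v, 0 ≤ y v) (hn : y ∉ STAB G) :
    ∃ a : V → ℝ, (∀ v, 0 ≤ a v) ∧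
      (∀ S : Finset V, G.IsIndepSet (S : Set V) → ∑ v ∈ S, a v ≤ 1) ∧ 1 < ∑ v, a v * y v := by
  obtain ⟨f, u, h1, h2⟩ := geometric_hahn_banach_closed_point (convex_convexHull ℝ _)
    ((stab_finite G).isClosed_convexHull ℝ) hn
  have hf : ∀ x : V → ℝ, f x = ∑ v, f (Pi.single v 1) * x v := by
    intro x
    conv_lhs => rw [pi_eq_sum_univ' x]
    rw [map_sum]
    refine sum_congr rfl fun v _ => ?_
    rw [map_smul, smul_eq_mul, mul_comm]
  have hS : ∀ S : Finset V, G.IsIndepSet (S : Set V) → ∑ v ∈ S, f (Pi.single v 1) < u := by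
    intro S hS
    have := h1 (incid S) (subset_convexHull ℝ _ ⟨S, hS, rfl⟩)
    rw [hf] at this
    simpa [incid] using this
  have hu : 0 < u := by simpa using hS ∅ (by simp)
  refine ⟨fun v => u⁻¹ * max (f (Pi.single v 1)) 0, fun v => by positivity, fun S hS' => ?_, ?_⟩
  · rw [← mul_sum, inv_mul_le_iff₀ hu, mul_one]
    have := hS (S.filter fun v => 0 ≤ f (Pi.single v 1))
      (hS'.mono (by exact_mod_cast filter_subset _ _))
    rw [sum_filter] at this
    refine le_trans (le_of_eq (sum_congr rfl fun v _ => ?_)) this.le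
    split_ifs with h
    · exact max_eq_left h
    · exact max_eq_right (le_of_not_ge h)
  · simp only [mul_assoc]
    rw [← mul_sum, lt_inv_mul_iff₀ hu, mul_one]
    refine h2.trans_le ?_
    rw [hf]
    exact sum_le_sum fun v _ => mul_le_mul_of_nonneg_right (le_max_left _ _) (hy v)

theorem exists_facetOn (G : SimpleGraph V) (y : V → ℝ) (hy : ∀ v, 0 ≤ y v) (hn : y ∉ STAB G) :
    ∃ (B : Finset V) (a : V → ℝ), FacetOn G B a ∧ 1 < ∑ v ∈ B, a v * y v := by
  obtain ⟨a0, h0, h1, h2⟩ := exists_sep G y hy hn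
  set A : Set (V → ℝ) := {a | (∀ v, 0 ≤ a v) ∧
    ∀ S : Finset V, G.IsIndepSet (S : Set V) → ∑ v ∈ S, a v ≤ 1} with hA
  have hAc : IsCompact A := by
    refine (isCompact_Icc (a := (0 : V → ℝ)) (b := 1)).of_isClosed_subset ?_ ?_
    · have : A = (⋂ i, {x : V → ℝ | 0 ≤ x i}) ∩
          ⋂ S : Finset V, ⋂ _ : G.IsIndepSet (S : Set V), {x | ∑ v ∈ S, x v ≤ 1} := by
        ext x
        simp [hA]
      rw [this]
      exact (isClosed_iInter fun i => isClosed_le (by fun_prop) (by fun_prop)).inter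
        (isClosed_iInter fun S => isClosed_iInter fun _ => isClosed_le (by fun_prop) (by fun_prop))
    · intro x hx
      refine ⟨fun i => hx.1 i, fun i => ?_⟩
      simpa using hx.2 {i} (by simp)
  obtain ⟨a1, ha1, hmax⟩ := hAc.exists_isMaxOn (f := fun a => ∑ v, a v * y v) ⟨a0, h0, h1⟩
    (by fun_prop)
  set K := A ∩ {a | ∑ v, a v * y v = ∑ v, a1 v * y v} with hK
  have hKc : IsCompact K := hAc.inter_right (isClosed_eq (by fun_prop) (by fun_prop))
  obtain ⟨a, ha, hmax2⟩ := hKc.exists_isMaxOn (f := fun a => ∑ v, a v ^ 2) ⟨a1, ha1, rfl⟩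
    (by fun_prop)
  have hext : ∀ d : V → ℝ, a + d ∈ A → a - d ∈ A → ∀ v, d v = 0 := by
    intro d hp hm
    have e0 : ∑ v, a v * y v = ∑ v, a1 v * y v := ha.2
    have p1 : ∑ v, (a + d) v * y v ≤ ∑ v, a1 v * y v := hmax hp
    have m1 : ∑ v, (a - d) v * y v ≤ ∑ v, a1 v * y v := hmax hm
    have e1 : ∑ v, (a + d) v * y v + ∑ v, (a - d) v * y v = 2 * ∑ v, a v * y v := by
      rw [mul_sum, ← sum_add_distrib]
      exact sum_congr rfl fun v _ => by simp only [Pi.add_apply, Pi.sub_apply]; ring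
    have p2 : ∑ v, (a + d) v ^ 2 ≤ ∑ v, a v ^ 2 :=
      hmax2 (⟨hp, show ∑ v, (a + d) v * y v = _ by linarith⟩ : a + d ∈ K)
    have m2 : ∑ v, (a - d) v ^ 2 ≤ ∑ v, a v ^ 2 :=
      hmax2 (⟨hm, show ∑ v, (a - d) v * y v = _ by linarith⟩ : a - d ∈ K)
    have e2 : ∑ v, (a + d) v ^ 2 + ∑ v, (a - d) v ^ 2 = 2 * ∑ v, a v ^ 2 + 2 * ∑ v, d v ^ 2 := by
      rw [mul_sum, mul_sum, ← sum_add_distrib, ← sum_add_distrib]
      exact sum_congr rfl fun v _ => by simp only [Pi.add_apply, Pi.sub_apply]; ring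
    have h3 : ∑ v, d v ^ 2 = 0 :=
      le_antisymm (by linarith) (sum_nonneg fun v _ => by positivity)
    intro v
    have := (sum_eq_zero_iff_of_nonneg fun v _ => by positivity).1 h3 v (mem_univ v)
    simpa using this
  refine ⟨univ.filter fun v => 0 < a v, a, ⟨fun v hv => (mem_filter.1 hv).2,
    fun S _ hS => ha.1.2 S hS, fun c hc => ?_⟩, ?_⟩
  · set d : V → ℝ := fun v => if 0 < a v then c v else 0 with hd
    have dz : ∀ v, a v = 0 → d v = 0 := fun v hv => by simp [hd, hv]
    have dS : ∀ S : Finset V, G.IsIndepSet (S : Set V) → ∑ v ∈ S, a v = 1 → ∑ v ∈ S, d v = 0 := by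
      intro S hS h
      rw [hd, ← sum_filter]
      refine hc _ (fun v hv => mem_filter.2 ⟨mem_univ v, (mem_filter.1 hv).2⟩)
        (hS.mono (by exact_mod_cast filter_subset _ _)) ?_
      rw [sum_filter, ← h]
      refine sum_congr rfl fun v _ => ?_
      split_ifs with h'
      · rfl
      · exact le_antisymm (ha.1.1 v) (le_of_not_gt h')
    have ev : ∀ σ : ℝ, ∀ᶠ ε in 𝓝[>] (0 : ℝ), a + (ε * σ) • d ∈ A := by
      intro σ
      have e1 : ∀ᶠ ε in 𝓝[>] (0 : ℝ), ∀ v, 0 ≤ a v + ε * (σ * d v) := by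
        simp only [eventually_all]
        exact fun v => ev_nonneg _ _ (ha.1.1 v) fun h => by simp [dz v h]
      have e2 : ∀ᶠ ε in 𝓝[>] (0 : ℝ), ∀ S : Finset V, G.IsIndepSet (S : Set V) →
          0 ≤ (1 - ∑ v ∈ S, a v) + ε * (-(σ * ∑ v ∈ S, d v)) := by
        simp only [eventually_all]
        exact fun S hS => ev_nonneg _ _ (sub_nonneg.2 (ha.1.2 S hS)) fun h => by
          rw [dS S hS (by linarith)]; simp
      filter_upwards [e1, e2] with ε h1 h2
      refine ⟨fun v => ?_, fun S hS => ?_⟩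
      · have := h1 v
        simp only [Pi.add_apply, Pi.smul_apply, smul_eq_mul]
        linarith [mul_assoc ε σ (d v)]
      · have := h2 S hS
        simp only [Pi.add_apply, Pi.smul_apply, smul_eq_mul, sum_add_distrib, ← mul_sum]
        linarith [mul_assoc ε σ (∑ v ∈ S, d v)]
    obtain ⟨ε, hp, hm, hε⟩ := ((ev 1).and ((ev (-1)).and self_mem_nhdsWithin)).exists
    have hε' : 0 < ε := hε
    have := hext (ε • d) (by simpa using hp) (by simpa [sub_eq_add_neg] using hm)
    intro v hv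
    have h4 := this v
    have h5 : 0 < a v := (mem_filter.1 hv).2
    simp only [Pi.smul_apply, smul_eq_mul, hd, if_pos h5] at h4
    exact (mul_eq_zero.1 h4).resolve_left hε'.ne'
  · have e0 : ∑ v, a v * y v = ∑ v, a1 v * y v := ha.2
    have p1 : ∑ v, a0 v * y v ≤ ∑ v, a1 v * y v := hmax (⟨h0, h1⟩ : a0 ∈ A)
    rw [sum_filter]
    refine (h2.trans_le (p1.trans e0.ge)).trans_le (le_of_eq (sum_congr rfl fun v _ => ?_))
    split_ifs with h'
    · rfl
    · rw [le_antisymm (le_of_not_gt h') (ha.1.1 v), zero_mul]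

variable {G : SimpleGraph V}

omit [Fintype V] [DecidableEq V] in
lemma indep_map (B : Finset V) (S : Finset (B : Set V)) :
    (G.induce (B : Set V)).IsIndepSet (S : Set (B : Set V)) ↔
      G.IsIndepSet ((S.map (Function.Embedding.subtype _) : Finset V) : Set V) := by
  constructor
  · intro h a ha b hb hab hA
    obtain ⟨a, ha', rfl⟩ := mem_map.1 (mem_coe.1 ha)
    obtain ⟨b, hb', rfl⟩ := mem_map.1 (mem_coe.1 hb)
    exact h (mem_coe.2 ha') (mem_coe.2 hb') (fun e => hab (by rw [e])) hA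
  · intro h a ha b hb hab hA
    exact h (mem_coe.2 (mem_map_of_mem _ (mem_coe.1 ha))) (mem_coe.2 (mem_map_of_mem _ (mem_coe.1 hb)))
      (fun e => hab (Subtype.ext e)) hA

lemma FacetOn.isFacet {B : Finset V} {a : V → ℝ} (h : FacetOn G B a) :
    IsFacet (G.induce (B : Set V)) (fun v => a v) := by
  have hsub : ∀ S : Finset (B : Set V), S.map (Function.Embedding.subtype _) ⊆ B := by
    intro S v hv
    obtain ⟨b, -, rfl⟩ := mem_map.1 hv
    exact b.2
  refine ⟨fun v => h.pos v v.2, fun S hS => ?_, fun c hc v => ?_⟩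
  · have := h.valid _ (hsub S) ((indep_map B S).1 hS)
    rwa [sum_map] at this
  · have := h.ker (fun v => if hv : v ∈ (B : Set V) then c ⟨v, hv⟩ else 0) (fun S hSB hS h1 => by
      have e : (S.subtype (· ∈ (B : Set V))).map (Function.Embedding.subtype _) = S :=
        subtype_map_of_mem fun x hx => hSB hx
      rw [← e] at hS h1 ⊢
      rw [sum_map] at h1 ⊢
      rw [← hc _ ((indep_map B _).2 hS) h1]
      exact sum_congr rfl fun x _ => by simp) v v.2
    simpa using this

lemma FacetOn.stab_valid {B : Finset V} {a : V → ℝ} (h : FacetOn G B a) {y : V → ℝ}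
    (hy : y ∈ STAB G) : ∑ v ∈ B, a v * y v ≤ 1 := by
  have hconv : Convex ℝ {x : V → ℝ | ∑ v ∈ B, a v * x v ≤ 1} := by
    intro x hx y hy s t hs ht hst
    simp only [Set.mem_ofPred_eq] at hx hy ⊢
    have : ∑ v ∈ B, a v * (s • x + t • y) v =
        s * ∑ v ∈ B, a v * x v + t * ∑ v ∈ B, a v * y v := by
      simp only [Pi.add_apply, Pi.smul_apply, smul_eq_mul, mul_sum, ← sum_add_distrib]
      exact sum_congr rfl fun v _ => by ring
    rw [this]; nlinarith
  refine convexHull_min ?_ hconv hy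
  rintro _ ⟨S, hS, rfl⟩
  have := h.valid (B.filter (· ∈ S)) (filter_subset _ _)
    (hS.mono fun v hv => (mem_filter.1 (mem_coe.1 hv)).2)
  rw [sum_filter] at this
  simpa [incid] using this

lemma FacetOn.ls_valid (hperf : LSplus (ESTAB G) ⊆ STAB G) {B : Finset V} {a : V → ℝ}
    (h : FacetOn G B a) : ∀ x ∈ LSplus (ESTAB (G.induce (B : Set V))),
      ∑ v : (B : Set V), a v * x v ≤ 1 := by
  intro x hx
  obtain ⟨y, hy, h1, -⟩ := lsplus_ext (SimpleGraph.Embedding.induce (G := G) (B : Set V)) hx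
  refine le_trans (le_of_eq ?_) (h.stab_valid (hperf hy))
  rw [← sum_coe_sort B fun v => a v * y v]
  exact sum_congr rfl fun v _ => by rw [← h1 v]; rfl

/-- An `LS₊`-valid full support facet has a certificate. -/
theorem IsFacet.cert [Nonempty V] {a : V → ℝ} (h : IsFacet G a)
    (hval : ∀ x ∈ LSplus (ESTAB G), ∑ v, a v * x v ≤ 1) : Nonempty (Cert G (sOf a)) := by
  classical
  set R : Finset (Finset V) :=
    univ.filter fun S => G.IsIndepSet (S : Set V) ∧ ∑ v ∈ S, a v = 1 with hR
  have mR : ∀ S, S ∈ R ↔ G.IsIndepSet (S : Set V) ∧ ∑ v ∈ S, a v = 1 := fun S => by simp [hR]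
  refine cert_of_valid G R (fun S hS => ((mR S).1 hS).1) ?_ (sOf a) (fun S hS => ?_)
    (fun c hc => ⟨c none, ?_⟩) (by simp [sOf]) fun x hx => ?_
  · by_contra hne
    have := h.ker (fun _ => 1) (fun S h1 h2 => (hne ⟨S, (mR S).2 ⟨h1, h2⟩⟩).elim)
      (Classical.arbitrary V)
    norm_num at this
  · rw [fval_eq, fval_sOf, ((mR S).1 hS).2, sub_self]
  · have := h.ker (fun v => c (some v) + c none * a v) fun S h1 h2 => by
      have := hc S ((mR S).2 ⟨h1, h2⟩)
      rw [fval_eq, fval] at this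
      rw [sum_add_distrib, ← mul_sum, h2]
      linarith
    funext p
    cases p with
    | none => simp [sOf]
    | some v =>
      have := this v
      simp only [sOf, Pi.smul_apply, Option.elim, smul_eq_mul]
      linarith
  · have := hval x hx
    simp only [sOf, Option.elim, neg_mul, sum_neg_distrib]
    linarith

/-- complement of `G[B]`, as a graph on `V` -/
def coG (G : SimpleGraph V) (B : Finset V) : SimpleGraph V where
  Adj p q := p ≠ q ∧ p ∈ B ∧ q ∈ B ∧ ¬ G.Adj p q
  symm := ⟨fun _ _ h => ⟨h.1.symm, h.2.2.1, h.2.1, fun e => h.2.2.2 e.symm⟩⟩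
  loopless := ⟨fun _ h => h.1 rfl⟩

open Classical in
/-- co-component of `v` in `G[B]` -/
noncomputable def coC (G : SimpleGraph V) (B : Finset V) (v : V) : Finset V :=
  B.filter fun w => (coG G B).Reachable v w

lemma mem_coC {B : Finset V} {v w : V} : w ∈ coC G B v ↔ w ∈ B ∧ (coG G B).Reachable v w := by
  simp [coC]

lemma coC_eq {B : Finset V} {v w : V} (h : (coG G B).Reachable v w) : coC G B w = coC G B v := by
  ext z
  simp only [mem_coC]
  exact and_congr_right fun _ => ⟨fun h' => h.trans h', fun h' => h.symm.trans h'⟩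

omit [Fintype V] in
lemma coC_reach {B : Finset V} {p q : V} (hp : p ∈ B) (hq : q ∈ B) (h : ¬ G.Adj p q) :
    (coG G B).Reachable p q := by
  by_cases e : p = q
  · rw [e]
  · exact SimpleGraph.Adj.reachable (G := coG G B) ⟨e, hp, hq, h⟩

lemma FacetOn.comp {B : Finset V} {a : V → ℝ} (h : FacetOn G B a) (v : V) :
    FacetOn G (coC G B v) a := by
  have hsub : coC G B v ⊆ B := fun w hw => (mem_coC.1 hw).1
  refine ⟨fun w hw => h.pos w (hsub hw), fun S hS => h.valid S (hS.trans hsub), fun c hc w hw => ?_⟩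
  have := h.ker (fun z => if z ∈ coC G B v then c z else 0) (fun S hSB hS h1 => by
    by_cases hm : ∃ s ∈ S, s ∈ coC G B v
    · obtain ⟨s, hs, hs'⟩ := hm
      have hSC : S ⊆ coC G B v := fun t ht => mem_coC.2 ⟨hSB ht, (mem_coC.1 hs').2.trans
        (coC_reach (hSB hs) (hSB ht) fun hA => hS (mem_coe.2 hs) (mem_coe.2 ht) hA.ne hA)⟩
      rw [← hc S hSC hS h1]
      exact sum_congr rfl fun t ht => if_pos (hSC ht)
    · push Not at hm
      exact sum_eq_zero fun t ht => if_neg (hm t ht)) w (hsub hw)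
  simpa [hw] using this

lemma coConn_comp (B : Finset V) (v : V) : CoConn (G.induce (coC G B v : Set V)) := by
  rintro C ⟨u, hu⟩ hC
  have key : ∀ w, Relation.ReflTransGen (coG G B).Adj u.1 w →
      ∃ h : w ∈ (coC G B v : Set V), (⟨w, h⟩ : (coC G B v : Set V)) ∈ C := by
    intro w hw
    induction hw with
    | refl => exact ⟨u.2, hu⟩
    | @tail p q _ hpq ih =>
      obtain ⟨hp, hpC⟩ := ih
      have hq : q ∈ (coC G B v : Set V) :=
        mem_coe.2 (mem_coC.2 ⟨hpq.2.2.1, (mem_coC.1 (mem_coe.1 hp)).2.trans hpq.reachable⟩)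
      refine ⟨hq, ?_⟩
      by_contra hn
      exact hpq.2.2.2 (hC _ hpC _ hn)
  refine eq_univ_of_forall fun w => ?_
  obtain ⟨_, h⟩ := key w.1 ((SimpleGraph.reachable_iff_reflTransGen _ _).1
    ((mem_coC.1 (mem_coe.1 u.2)).2.symm.trans (mem_coC.1 (mem_coe.1 w.2)).2))
  exact h

/-- The conclusion wanted for a co-connected full support facet: the graph is an antiweb (a single
vertex is `antiweb 1 1`) and the facet is its rank facet. -/
def Core {W : Type} (H : SimpleGraph W) (a : W → ℝ) : Prop :=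
  ∃ n k, Nonempty (H ≃g antiweb n k) ∧ ∀ v, a v = 1 / (H.indepNum : ℝ)

theorem FacetOn.joined {B : Finset V} {a : V → ℝ}
    (core : ∀ v ∈ B, Core (G.induce (coC G B v : Set V)) (fun w => a w)) :
    ∃ J : JoinedAntiweb G, ∀ x, J.lhs x = ∑ v ∈ B, a v * x v := by
  set 𝒞 := B.image (coC G B) with h𝒞
  let e := 𝒞.equivFin
  have hrep : ∀ i : Fin 𝒞.card, ∃ v ∈ B, coC G B v = (e.symm i).1 := fun i =>
    mem_image.1 (e.symm i).2
  choose r hr hre using hrep
  choose n k iso ha using fun i => core (r i) (hr i)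
  let J : JoinedAntiweb G :=
    { m := 𝒞.card
      n := n
      k := k
      emb := fun i => (SimpleGraph.Embedding.induce (G := G) (coC G B (r i) : Set V)).comp
        (iso i).some.symm.toEmbedding
      Q := ∅
      clique := by simp
      join_webs := fun i j hij p q => by
        by_contra hn
        have hp0 : ((iso i).some.symm p).1 ∈ coC G B (r i) := ((iso i).some.symm p).2
        have hq0 : ((iso j).some.symm q).1 ∈ coC G B (r j) := ((iso j).some.symm q).2
        have hp := mem_coC.1 hp0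
        have hq := mem_coC.1 hq0
        have := coC_eq (hp.2.trans ((coC_reach hp.1 hq.1 hn).trans hq.2.symm))
        rw [hre, hre] at this
        exact hij (e.symm.injective (Subtype.ext this)).symm
      join_clique := fun i a q hq => (notMem_empty q hq).elim }
  refine ⟨J, fun x => ?_⟩
  simp only [JoinedAntiweb.lhs, J, sum_empty, add_zero]
  rw [← sum_fiberwise_of_maps_to (s := B) (t := 𝒞) (g := coC G B)
    (fun v hv => mem_image_of_mem _ hv), ← sum_coe_sort 𝒞, ← e.symm.sum_comp]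
  refine sum_congr rfl fun i _ => ?_
  have hf : B.filter (fun v => coC G B v = (e.symm i).1) = coC G B (r i) := by
    ext w
    rw [mem_filter, ← hre, mem_coC]
    refine and_congr_right fun hw => ⟨fun h => ?_, fun h => coC_eq h⟩
    have : w ∈ coC G B w := mem_coC.2 ⟨hw, SimpleGraph.Reachable.refl _⟩
    rw [h] at this
    exact (mem_coC.1 this).2
  rw [hf, ← le_antisymm (indepNum_le_of_emb (iso i).some.toEmbedding)
    (indepNum_le_of_emb (iso i).some.symm.toEmbedding),
    ← sum_coe_sort (coC G B (r i)) fun v => a v * x v, mul_sum]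
  refine Eq.trans ?_ ((iso i).some.symm.toEquiv.sum_comp
    fun v : (coC G B (r i) : Set V) => a v * x v)
  refine sum_congr rfl fun p _ => ?_
  have := ha i ((iso i).some.symm.toEquiv p)
  simp only at this
  rw [this]; rfl

/-- Reduction of the forward implication to co-connected full support facets with a
certificate. -/
theorem reduction (hperf : LSplus (ESTAB G) = STAB G)
    (core : ∀ (B : Finset V) (a : V → ℝ), B.Nonempty → CoConn (G.induce (B : Set V)) →
      FacetOn G B a → IsFacet (G.induce (B : Set V)) (fun v => a v) →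
      (∀ x ∈ LSplus (ESTAB (G.induce (B : Set V))), ∑ v : (B : Set V), a v * x v ≤ 1) →
      Cert (G.induce (B : Set V)) (sOf fun v => a v) →
      Core (G.induce (B : Set V)) (fun v => a v)) :
    LSplus (ESTAB G) = ASTABstar G := by
  refine Set.Subset.antisymm (LSplus_subset_ASTAB G) fun y hy => ?_
  rw [hperf]
  by_contra hn
  obtain ⟨B, a, hF, h1⟩ := exists_facetOn G y (fun v => (hy.1 v).1) hn
  obtain ⟨J, hJ⟩ := FacetOn.joined (G := G) (B := B) (a := a) fun v hv => by
    have hC := hF.comp v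
    have hne : v ∈ coC G B v := mem_coC.2 ⟨hv, SimpleGraph.Reachable.refl _⟩
    have : Nonempty (coC G B v : Set V) := ⟨⟨v, hne⟩⟩
    exact core _ a ⟨v, hne⟩ (coConn_comp B v) hC hC.isFacet (hC.ls_valid hperf.le)
      (hC.isFacet.cert (hC.ls_valid hperf.le)).some
  have := hy.2 J
  rw [hJ] at this
  linarith

end Pool.Agent.Lib.MP_2081ef_co
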