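import Pool.Agent.Lib.MP_2081ef_co.PropP

/-! Hajnal type counting: the local structure of the swap system. -/

namespace Pool.Agent.Lib.MP_2081ef_co

open Finset

variable {V : Type} [Fintype V] [DecidableEq V] {G : SimpleGraph V} {k : ℕ}

/-- a core `C` inside `U`, non-adjacent to everything in `U` -/
def Good (G : SimpleGraph V) (U C : Finset V) : Prop :=
  C ⊆ U ∧ ∀ c ∈ C, ∀ u ∈ U, ¬ G.Adj c u

lemma hajnal_step (σ : Swap G k) {U C S : Finset V} (h : Good G U C) (hS : G.IsNIndepSet k S) :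
    Good G (U ∪ S) (C ∩ S) ∧ U.card + C.card ≤ (U ∪ S).card + (C ∩ S).card := by
  refine ⟨⟨fun c hc => mem_union_right _ (mem_inter.1 hc).2, fun c hc u hu hA => ?_⟩, ?_⟩
  · rcases mem_union.1 hu with hu | hu
    · exact h.2 c (mem_inter.1 hc).1 u hu hA
    · exact not_both hS hA (mem_inter.1 hc).2 hu
  · have hI : G.IsIndepSet (((U ∩ S) ∪ C : Finset V) : Set V) := by
      intro a ha b hb _ hA
      rcases mem_union.1 (mem_coe.1 ha) with ha | ha
      · rcases mem_union.1 (mem_coe.1 hb) with hb | hb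
        · exact not_both hS hA (mem_inter.1 ha).2 (mem_inter.1 hb).2
        · exact h.2 b hb a (mem_inter.1 ha).1 hA.symm
      · rcases mem_union.1 (mem_coe.1 hb) with hb | hb
        · exact h.2 a ha b (mem_inter.1 hb).1 hA
        · exact h.2 a ha b (h.1 hb) hA
    have h1 := σ.maxi _ hI
    have h2 := card_union_add_card_inter (U ∩ S) C
    have h3 : U ∩ S ∩ C = C ∩ S := by
      ext a
      simp only [mem_inter]
      exact ⟨fun h' => ⟨h'.2, h'.1.2⟩, fun h' => ⟨⟨h.1 h'.1, h'.2⟩, h'.1⟩⟩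
    have h4 := card_union_add_card_inter U S
    rw [h3] at h2
    rw [hS.card_eq] at h4
    omega

lemma hajnal (σ : Swap G k) (F : Finset (Finset V)) (hF : ∀ S ∈ F, G.IsNIndepSet k S)
    (U' C' : Finset V) (hU : ∀ S ∈ F, S ⊆ U') :
    ∀ U C, Good G U C → U ⊆ U' → (∀ c ∈ C, (∀ S ∈ F, c ∈ S) → c ∈ C') →
      U.card + C.card ≤ U'.card + C'.card := by
  induction F using Finset.induction_on with
  | empty =>
    intro U C _ h1 h2
    exact add_le_add (card_le_card h1) (card_le_card fun c hc => h2 c hc (by simp))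
  | insert S F _ ih =>
    intro U C h h1 h2
    obtain ⟨a1, a2⟩ := hajnal_step σ h (hF S (mem_insert_self _ _))
    refine a2.trans (ih (fun T hT => hF T (mem_insert_of_mem hT))
      (fun T hT => hU T (mem_insert_of_mem hT)) _ _ a1
      (union_subset h1 (hU S (mem_insert_self _ _))) fun c hc hc' => ?_)
    refine h2 c (mem_inter.1 hc).1 fun T hT => ?_
    rcases mem_insert.1 hT with rfl | hT
    · exact (mem_inter.1 hc).2
    · exact hc' T hT

/-- union of the roots through `v` -/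
noncomputable def Uv (G : SimpleGraph V) (k : ℕ) (v : V) : Finset V := by
  classical exact univ.filter fun j => ∃ S, G.IsNIndepSet k S ∧ v ∈ S ∧ j ∈ S

/-- intersection of the roots through `v` -/
noncomputable def Cv (G : SimpleGraph V) (k : ℕ) (v : V) : Finset V := by
  classical exact univ.filter fun j => ∀ S, G.IsNIndepSet k S → v ∈ S → j ∈ S

/-- non-neighbours of `v`, including `v` -/
noncomputable def Nv (G : SimpleGraph V) (v : V) : Finset V := by
  classical exact univ.filter fun j => ¬ G.Adj v j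

lemma mem_Uv {v j : V} : j ∈ Uv G k v ↔ ∃ S, G.IsNIndepSet k S ∧ v ∈ S ∧ j ∈ S := by simp [Uv]
lemma mem_Cv {v j : V} : j ∈ Cv G k v ↔ ∀ S, G.IsNIndepSet k S → v ∈ S → j ∈ S := by simp [Cv]
lemma mem_Nv {v j : V} : j ∈ Nv G v ↔ ¬ G.Adj v j := by simp [Nv]

lemma Uv_symm {i j : V} : j ∈ Uv G k i ↔ i ∈ Uv G k j := by
  simp only [mem_Uv]
  exact ⟨fun ⟨S, a, b, c⟩ => ⟨S, a, c, b⟩, fun ⟨S, a, b, c⟩ => ⟨S, a, c, b⟩⟩

namespace Swap

variable (σ : Swap G k)
include σ

lemma toV {U C : Finset V} (v : V) (h : Good G U C) (hU : U ⊆ Uv G k v) :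
    U.card + C.card ≤ (Uv G k v).card + (Cv G k v).card :=
  hajnal σ ((roots G k).filter fun S => v ∈ S) (fun S hS => mem_roots.1 (mem_filter.1 hS).1) _ _
    (fun S hS j hj => mem_Uv.2 ⟨S, mem_roots.1 (mem_filter.1 hS).1, (mem_filter.1 hS).2, hj⟩)
    U C h hU fun c _ hc => mem_Cv.2 fun S hS hv => hc S (mem_filter.2 ⟨mem_roots.2 hS, hv⟩)

lemma toAll {U C : Finset V} (h : Good G U C) : U.card + C.card ≤ Fintype.card V := by
  have := hajnal σ (roots G k) (fun S hS => mem_roots.1 hS) univ ∅ (fun S _ => subset_univ _)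
    U C h (subset_univ _) fun c _ hc => by
      obtain ⟨p, -, -, hp, -⟩ := σ.two c
      rcases mem_insert.1 (hc _ (mem_roots.2 (σ.root' hp))) with h | h
      · exact (hp.ne h).elim
      · exact (σ.notMem hp h).elim
  simpa using this

lemma Cv_sub (v : V) : Cv G k v ⊆ Uv G k v := by
  obtain ⟨p, -, -, hp, -⟩ := σ.two v
  exact fun j hj => mem_Uv.2 ⟨_, σ.root hp, mem_insert_self _ _,
    mem_Cv.1 hj _ (σ.root hp) (mem_insert_self _ _)⟩

lemma good_v (v : V) : Good G (Uv G k v) (Cv G k v) := by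
  refine ⟨σ.Cv_sub v, fun c hc u hu hA => ?_⟩
  obtain ⟨S, hS, h1, h2⟩ := mem_Uv.1 hu
  exact not_both hS hA (mem_Cv.1 hc S hS h1) h2

lemma delta_nonneg (v : V) : 2 * k ≤ (Uv G k v).card + (Cv G k v).card := by
  obtain ⟨p, -, -, hp, -⟩ := σ.two v
  have hS := σ.root hp
  have := σ.toV v (U := insert v (σ.ctx v p)) (C := insert v (σ.ctx v p))
    ⟨Subset.rfl, fun c hc u hu hA => not_both hS hA hc hu⟩
    (fun j hj => mem_Uv.2 ⟨_, hS, mem_insert_self _ _, hj⟩)
  rw [hS.card_eq] at this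
  omega

lemma card_ctx {p q : V} (h : σ.H.Adj p q) : (σ.ctx p q).card + 1 = k := by
  have := (σ.root h).card_eq
  rwa [card_insert_of_notMem (σ.notMem h)] at this

lemma ctx_nadj {p q j : V} (h : σ.H.Adj p q) (hj : j ∈ σ.ctx p q) : ¬ G.Adj p j := fun hA =>
  not_both (σ.root h) hA (mem_insert_self _ _) (mem_insert_of_mem hj)

lemma fold_good {v p q : V} (hpq : p ≠ q) (hp : σ.H.Adj v p) (hq : σ.H.Adj v q) :
    Good G (insert v (insert p (insert q (σ.ctx v p ∪ σ.ctx v q)))) (σ.ctx v p ∩ σ.ctx v q) ∧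
    (insert v (insert p (insert q (σ.ctx v p ∪ σ.ctx v q)))).card +
      (σ.ctx v p ∩ σ.ctx v q).card = 2 * k + 1 ∧
    ∀ j ∈ σ.ctx v p ∩ σ.ctx v q,
      insert v (insert p (insert q (σ.ctx v p ∪ σ.ctx v q))) ⊆ Uv G k j := by
  have key : ∀ j ∈ σ.ctx v p ∩ σ.ctx v q,
      insert v (insert p (insert q (σ.ctx v p ∪ σ.ctx v q))) ⊆ Uv G k j := by
    intro j hj u hu
    obtain ⟨h1, h2⟩ := mem_inter.1 hj
    simp only [mem_insert, mem_union] at hu
    rcases hu with rfl | rfl | rfl | hu | hu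
    · exact mem_Uv.2 ⟨_, σ.root hp, mem_insert_of_mem h1, mem_insert_self _ _⟩
    · exact mem_Uv.2 ⟨_, σ.root' hp, mem_insert_of_mem h1, mem_insert_self _ _⟩
    · exact mem_Uv.2 ⟨_, σ.root' hq, mem_insert_of_mem h2, mem_insert_self _ _⟩
    · exact mem_Uv.2 ⟨_, σ.root hp, mem_insert_of_mem h1, mem_insert_of_mem hu⟩
    · exact mem_Uv.2 ⟨_, σ.root hq, mem_insert_of_mem h2, mem_insert_of_mem hu⟩
  refine ⟨⟨fun c hc => by simp [(mem_inter.1 hc).1], fun c hc u hu hA => ?_⟩, ?_, key⟩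
  · obtain ⟨S, hS, h1, h2⟩ := mem_Uv.1 (key c hc hu)
    exact not_both hS hA h1 h2
  · have a1 : q ∉ σ.ctx v p := fun h => σ.ctx_nadj hp h (σ.adj hq)
    have a2 : p ∉ σ.ctx v q := fun h => σ.ctx_nadj hq h (σ.adj hp)
    rw [card_insert_of_notMem (by simp [hp.ne, hq.ne, σ.notMem hp, σ.notMem hq]),
      card_insert_of_notMem (by simp [hpq, a2, σ.notMem' hp]),
      card_insert_of_notMem (by simp [a1, σ.notMem' hq])]
    have := card_union_add_card_inter (σ.ctx v p) (σ.ctx v q)
    have := σ.card_ctx hp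
    have := σ.card_ctx hq
    omega

lemma card_ge : 2 * k + 1 ≤ Fintype.card V := by
  obtain ⟨v⟩ := σ.conn.nonempty
  obtain ⟨p, q, hpq, hp, hq⟩ := σ.two v
  obtain ⟨h1, h2, -⟩ := σ.fold_good hpq hp hq
  rw [← h2]
  exact σ.toAll h1

lemma small_A (hn : Fintype.card V ≤ 2 * k + 1) (v : V) :
    (Uv G k v).card + (Cv G k v).card ≤ 2 * k := by
  obtain ⟨p, q, hpq, hp, hq⟩ := σ.two v
  have hv : v ∈ Cv G k v := mem_Cv.2 fun _ _ h => h
  have nU : ∀ p, σ.H.Adj v p → p ∉ Uv G k v := fun p hp h => by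
    obtain ⟨S, hS, h1, h2⟩ := mem_Uv.1 h
    exact not_both hS (σ.adj hp) h1 h2
  have nA : ∀ p, σ.H.Adj v p → ∀ c ∈ (Cv G k v).erase v, ¬ G.Adj c p := fun p hp c hc hA => by
    obtain ⟨h1, h2⟩ := mem_erase.1 hc
    rcases mem_insert.1 (mem_Cv.1 h2 _ (σ.root hp) (mem_insert_self _ _)) with h | h
    · exact h1 h
    · exact not_both (σ.root' hp) hA (mem_insert_of_mem h) (mem_insert_self _ _)
  have := σ.toAll (U := insert p (insert q (Uv G k v))) (C := (Cv G k v).erase v)
    ⟨fun c hc => mem_insert_of_mem (mem_insert_of_mem (σ.Cv_sub v (mem_erase.1 hc).2)),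
      fun c hc u hu => by
        simp only [mem_insert] at hu
        rcases hu with rfl | rfl | hu
        · exact nA _ hp c hc
        · exact nA _ hq c hc
        · exact (σ.good_v v).2 c (mem_erase.1 hc).2 u hu⟩
  rw [card_insert_of_notMem (by simp [hpq, nU p hp]), card_insert_of_notMem (nU q hq),
    card_erase_of_mem hv] at this
  have := card_pos.2 ⟨v, hv⟩
  omega

lemma small_B (hn : Fintype.card V ≤ 2 * k + 1) (v : V) : (Nv G v).card + 1 ≤ 2 * k := by
  obtain ⟨p, q, hpq, hp, hq⟩ := σ.two v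
  have := card_le_univ (insert p (insert q (Nv G v)))
  rw [card_insert_of_notMem (by simp [hpq, mem_Nv, σ.adj hp]),
    card_insert_of_notMem (by simp [mem_Nv, σ.adj hq])] at this
  omega

lemma no_two_way {i j : V} (hij : i ≠ j) (h1 : j ∈ Cv G k i) (h2 : i ∈ Cv G k j) : False := by
  obtain ⟨p, -, -, hp, -⟩ := σ.two i
  rcases mem_insert.1 (mem_Cv.1 h1 _ (σ.root hp) (mem_insert_self _ _)) with h | h
  · exact hij h.symm
  · rcases mem_insert.1 (mem_Cv.1 h2 _ (σ.root' hp) (mem_insert_of_mem h)) with h | h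
    · exact hp.ne h
    · exact σ.notMem hp h

lemma no_link {i u w : V} (hiu : i ≠ u) (huw : G.Adj u w) (h1 : i ∈ Cv G k u)
    (hl : ∀ S, G.IsNIndepSet k S → i ∈ S → u ∈ S ∨ w ∈ S) : False := by
  have key : ∀ p, σ.H.Adj u p → w = p := fun p hp => by
    rcases mem_insert.1 (mem_Cv.1 h1 _ (σ.root hp) (mem_insert_self _ _)) with h | h
    · exact (hiu h).elim
    · rcases hl _ (σ.root' hp) (mem_insert_of_mem h) with h | h
      · rcases mem_insert.1 h with h | h
        · exact (hp.ne h).elim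
        · exact (σ.notMem hp h).elim
      · rcases mem_insert.1 h with h | h
        · exact h
        · exact (σ.ctx_nadj hp h huw).elim
  obtain ⟨p, q, hpq, hp, hq⟩ := σ.two u
  exact hpq ((key p hp).symm.trans (key q hq))

lemma big_A (hn : 2 * k + 2 ≤ Fintype.card V) (hval : ∀ x ∈ LSplus (ESTAB G), ∑ v, x v ≤ k)
    (v : V) : (Uv G k v).card + (Cv G k v).card ≤ 2 * k := by
  set y : V → V → ℝ := fun i j => if i = j then 2 else
    incid (Uv G k i) j + incid (Cv G k i) j + incid (Cv G k j) i with hy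
  have y0 : ∀ i j, 0 ≤ y i j := fun i j => by
    simp only [hy, incid]; split_ifs <;> norm_num
  have y2 : ∀ i j, y i j ≤ 2 := fun i j => by
    have := σ.no_two_way (i := i) (j := j)
    simp only [hy, incid]; split_ifs <;> first | (exfalso; tauto) | norm_num
  have yz : ∀ i j, i ≠ j → j ∉ Uv G k i → y i j = 0 := fun i j hij h => by
    have a1 : j ∉ Cv G k i := fun h' => h (σ.Cv_sub i h')
    have a2 : i ∉ Cv G k j := fun h' => h (Uv_symm.1 (σ.Cv_sub j h'))
    simp [hy, incid, hij, h, a1, a2]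
  have yd : ∀ i, y i i = 2 := fun i => by simp [hy]
  have nadj : ∀ i j, G.Adj i j → j ∉ Uv G k i := fun i j hA h => by
    obtain ⟨S, hS, h1, h2⟩ := mem_Uv.1 h
    exact not_both hS hA h1 h2
  have hP := propP σ hn hval y
    (fun i j => by
      by_cases h : i = j
      · rw [h]
      · simp only [hy, if_neg h, if_neg (Ne.symm h), incid, Uv_symm (i := i) (j := j)]
        ring)
    (fun i j _ => y0 i j) (fun i j _ => by rw [yd]; exact y2 i j)
    (fun i u w huw hl => by
      rw [yd]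
      by_cases h1 : i = u
      · subst h1
        rw [yd, yz i w huw.ne (nadj i w huw)]; norm_num
      by_cases h2 : i = w
      · subst h2
        rw [yd, yz i u h1 (nadj i u huw.symm)]; norm_num
      have a1 : i ∉ Cv G k u := fun h => σ.no_link h1 huw h hl
      have a2 : i ∉ Cv G k w := fun h => σ.no_link h2 huw.symm h fun S hS hi => (hl S hS hi).symm
      by_cases b1 : u ∈ Cv G k i
      · have : w ∉ Uv G k i := fun h => (σ.good_v i).2 u b1 w h huw
        rw [yz i w h2 this]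
        have := y2 i u
        linarith
      by_cases b2 : w ∈ Cv G k i
      · have : u ∉ Uv G k i := fun h => (σ.good_v i).2 w b2 u h huw.symm
        rw [yz i u h1 this]
        have := y2 i w
        linarith
      simp only [hy, incid, if_neg h1, if_neg h2, if_neg a1, if_neg a2, if_neg b1, if_neg b2]
      split_ifs <;> norm_num)
  have hrow : ∀ i, (((Uv G k i).card + (Cv G k i).card : ℕ) : ℝ) ≤ ∑ j, y i j := fun i => by
    have : (((Uv G k i).card + (Cv G k i).card : ℕ) : ℝ) =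
        ∑ j, (incid (Uv G k i) j + incid (Cv G k i) j) := by
      simp [incid, sum_add_distrib]
    rw [this]
    refine sum_le_sum fun j _ => ?_
    simp only [hy, incid]
    split_ifs <;> norm_num
  have h1 : ∑ i, (((Uv G k i).card + (Cv G k i).card : ℕ) : ℝ) ≤ ∑ _i : V, ((2 * k : ℕ) : ℝ) := by
    refine (sum_le_sum fun i _ => hrow i).trans (hP.trans (le_of_eq ?_))
    simp [yd]; ring
  have h2 : ∑ i, ((Uv G k i).card + (Cv G k i).card) ≤ ∑ _i : V, 2 * k := by exact_mod_cast h1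
  have h3 := (sum_eq_sum_iff_of_le (fun i (_ : i ∈ univ) => σ.delta_nonneg i)).1
    (le_antisymm (sum_le_sum fun i _ => σ.delta_nonneg i) h2) v (mem_univ v)
  omega

lemma big_B (hn : 2 * k + 2 ≤ Fintype.card V) (hval : ∀ x ∈ LSplus (ESTAB G), ∑ v, x v ≤ k) :
    ∑ v, ((Nv G v).card + 1) ≤ ∑ _v : V, 2 * k := by
  set y : V → V → ℝ := fun i j => incid (Nv G i) j + ee j i with hy
  have yd : ∀ i, y i i = 2 := fun i => by simp [hy, incid, mem_Nv, ee]; norm_num
  have y1 : ∀ i j, i ≠ j → y i j ≤ 1 := fun i j h => by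
    simp only [hy, incid, ee_ne (Ne.symm h)]; split_ifs <;> norm_num
  have yz : ∀ i j, G.Adj i j → y i j = 0 := fun i j h => by
    simp [hy, incid, mem_Nv, h, ee_ne h.ne.symm]
  have hP := propP σ hn hval y
    (fun i j => by
      have : j ∈ Nv G i ↔ i ∈ Nv G j := by rw [mem_Nv, mem_Nv, G.adj_comm]
      simp only [hy, incid, this, ee, eq_comm (a := i) (b := j)])
    (fun i j _ => by
      have := ee_nonneg j i
      simp only [hy, incid]; split_ifs <;> linarith)
    (fun i j _ => by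
      by_cases h : i = j
      · rw [h]
      · have := y1 i j h
        rw [yd]; linarith)
    (fun i u w huw _ => by
      by_cases h1 : i = u
      · subst h1
        rw [yz i w huw]; simp
      by_cases h2 : i = w
      · subst h2
        rw [yz i u huw.symm]; simp
      have := y1 i u h1
      have := y1 i w h2
      rw [yd]; linarith)
  have hrow : ∀ i, ∑ j, y i j = (((Nv G i).card + 1 : ℕ) : ℝ) := fun i => by
    simp [hy, incid, sum_add_distrib, ee]
  have h1 : ∑ i, (((Nv G i).card + 1 : ℕ) : ℝ) ≤ ∑ _i : V, ((2 * k : ℕ) : ℝ) := by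
    simp only [← hrow]
    refine hP.trans (le_of_eq ?_)
    simp [yd]; ring
  exact_mod_cast h1

theorem local_structure (hk : 2 ≤ k) (hval : ∀ x ∈ LSplus (ESTAB G), ∑ v, x v ≤ k)
    {v p q : V} (hpq : p ≠ q) (hp : σ.H.Adj v p) (hq : σ.H.Adj v q) :
    (∀ t, σ.H.Adj v t → t = p ∨ t = q) ∧ Disjoint (σ.ctx v p) (σ.ctx v q) ∧
      ∀ j, j ≠ v → ¬ G.Adj v j → j ∈ σ.ctx v p ∨ j ∈ σ.ctx v q := by
  have hA : ∀ v, (Uv G k v).card + (Cv G k v).card ≤ 2 * k := fun v => by
    by_cases hn : Fintype.card V ≤ 2 * k + 1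
    · exact σ.small_A hn v
    · exact σ.big_A (by omega) hval v
  have hB : ∑ v, ((Nv G v).card + 1) ≤ ∑ _v : V, 2 * k := by
    by_cases hn : Fintype.card V ≤ 2 * k + 1
    · exact sum_le_sum fun v _ => σ.small_B hn v
    · exact σ.big_B (by omega) hval
  have hdis : ∀ {v p q : V}, p ≠ q → σ.H.Adj v p → σ.H.Adj v q →
      Disjoint (σ.ctx v p) (σ.ctx v q) := fun {v p q} hpq hp hq => by
    rw [disjoint_left]
    intro j h1 h2
    obtain ⟨a1, a2, a3⟩ := σ.fold_good hpq hp hq
    have := σ.toV j a1 (a3 j (mem_inter.2 ⟨h1, h2⟩))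
    have := hA j
    omega
  have hcard : ∀ {v p q : V}, p ≠ q → σ.H.Adj v p → σ.H.Adj v q →
      (insert v (σ.ctx v p ∪ σ.ctx v q)).card + 1 = 2 * k := fun {v p q} hpq hp hq => by
    rw [card_insert_of_notMem (by simp [σ.notMem hp, σ.notMem hq]),
      card_union_of_disjoint (hdis hpq hp hq)]
    have := σ.card_ctx hp
    have := σ.card_ctx hq
    omega
  have hsub : ∀ {v p q : V}, σ.H.Adj v p → σ.H.Adj v q →
      insert v (σ.ctx v p ∪ σ.ctx v q) ⊆ Nv G v := fun {v p q} hp hq j hj => by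
    simp only [mem_insert, mem_union] at hj
    rw [mem_Nv]
    rcases hj with rfl | h | h
    · exact G.irrefl
    · exact σ.ctx_nadj hp h
    · exact σ.ctx_nadj hq h
  have hlow : ∀ v, 2 * k ≤ (Nv G v).card + 1 := fun v => by
    obtain ⟨p, q, hpq, hp, hq⟩ := σ.two v
    have := hcard hpq hp hq
    have := card_le_card (hsub hp hq)
    omega
  have heq := (sum_eq_sum_iff_of_le (fun i (_ : i ∈ univ) => hlow i)).1
    (le_antisymm (sum_le_sum fun i _ => hlow i) hB) v (mem_univ v)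
  have hN : insert v (σ.ctx v p ∪ σ.ctx v q) = Nv G v :=
    eq_of_subset_of_card_le (hsub hp hq) (by have := hcard hpq hp hq; omega)
  have third : ∀ j, j ≠ v → ¬ G.Adj v j → j ∈ σ.ctx v p ∨ j ∈ σ.ctx v q := fun j h1 h2 => by
    have := mem_Nv.2 h2
    rw [← hN] at this
    simpa [h1] using this
  refine ⟨fun t ht => ?_, hdis hpq hp hq, third⟩
  by_contra hne
  push Not at hne
  have hc := σ.card_ctx ht
  obtain ⟨j, hj⟩ : (σ.ctx v t).Nonempty := card_pos.1 (by omega)
  rcases third j (fun h => σ.notMem ht (h ▸ hj)) (σ.ctx_nadj ht hj) with h | h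
  · exact disjoint_left.1 (hdis hne.1 ht hp) hj h
  · exact disjoint_left.1 (hdis hne.2 ht hq) hj h

end Swap

end Pool.Agent.Lib.MP_2081ef_co
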