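import Pool.Agent.Lib.MP_2081ef_co.Facet

/-! Weighted facets without nested root sets: Hajnal equality, partners, independent roots. -/

namespace Pool.Agent.Lib.MP_2081ef_co.NN

open Finset

variable {V : Type} [Fintype V] [DecidableEq V] {G : SimpleGraph V} {a : V → ℝ}

/-- a tight stable set -/
def Root (G : SimpleGraph V) (a : V → ℝ) (S : Finset V) : Prop :=
  G.IsIndepSet (S : Set V) ∧ ∑ v ∈ S, a v = 1

open Classical in
/-- the non-neighbours of `i`, including `i` -/
noncomputable def nn (G : SimpleGraph V) (i : V) : Finset V := univ.filter fun j => ¬ G.Adj i j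

omit [DecidableEq V] in
lemma mem_nn {i j : V} : j ∈ nn G i ↔ ¬ G.Adj i j := by simp [nn]

/-- full support facet, no nested root sets, small non-neighbourhoods -/
structure Setup (G : SimpleGraph V) (a : V → ℝ) : Prop where
  fac : IsFacet G a
  sep : ∀ u v, u ≠ v → ∃ S, Root G a S ∧ v ∈ S ∧ u ∉ S
  tight : ∀ i, a i + ∑ j ∈ nn G i, a j ≤ 2

omit [Fintype V] [DecidableEq V] in
lemma Root.nadj {S : Finset V} (h : Root G a S) {u v : V} (hu : u ∈ S) (hv : v ∈ S) :
    ¬ G.Adj u v := fun hA => h.1 (mem_coe.2 hu) (mem_coe.2 hv) hA.ne hA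

omit [Fintype V] [DecidableEq V] in
lemma indep_of {S : Finset V} (h : ∀ u ∈ S, ∀ v ∈ S, ¬ G.Adj u v) : G.IsIndepSet (S : Set V) :=
  fun u hu v hv _ => h u (mem_coe.1 hu) v (mem_coe.1 hv)

omit [DecidableEq V] in
lemma Root.nonempty {S : Finset V} (h : Root G a S) : S.Nonempty := by
  rw [nonempty_iff_ne_empty]
  rintro rfl
  simpa using h.2

lemma sum_eq_ite (S : Finset V) (c : V → ℝ) :
    ∑ v ∈ S, c v = ∑ v, if v ∈ S then c v else 0 := by simp

/-- union of a family -/
def cup (X : Finset (Finset V)) : Finset V := univ.filter fun v => ∃ S ∈ X, v ∈ S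

/-- intersection of a family -/
def cap (X : Finset (Finset V)) : Finset V := univ.filter fun v => ∀ S ∈ X, v ∈ S

lemma mem_cup {X : Finset (Finset V)} {v : V} : v ∈ cup X ↔ ∃ S ∈ X, v ∈ S := by simp [cup]
lemma mem_cap {X : Finset (Finset V)} {v : V} : v ∈ cap X ↔ ∀ S ∈ X, v ∈ S := by simp [cap]

/-- the Hajnal weight -/
def hw (a : V → ℝ) (X : Finset (Finset V)) : ℝ := ∑ v ∈ cup X, a v + ∑ v ∈ cap X, a v

lemma hw_single {S : Finset V} (h : Root G a S) : hw a {S} = 2 := by
  have e1 : cup {S} = S := by ext v; simp [mem_cup]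
  have e2 : cap {S} = S := by ext v; simp [mem_cap]
  rw [hw, e1, e2, h.2]
  norm_num

lemma hw_insert (hF : IsFacet G a) {X : Finset (Finset V)} (hX : ∀ T ∈ X, Root G a T)
    {S : Finset V} (hS : Root G a S) (hne : X.Nonempty) : hw a X ≤ hw a (insert S X) := by
  have hI : G.IsIndepSet (((S ∩ cup X) ∪ cap X : Finset V) : Set V) := by
    have key : ∀ c ∈ cap X, ∀ u ∈ cup X, ¬ G.Adj c u := fun c hc u hu => by
      obtain ⟨T, hT, huT⟩ := mem_cup.1 hu
      exact (hX T hT).nadj (mem_cap.1 hc T hT) huT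
    have sub : ∀ c ∈ cap X, c ∈ cup X := fun c hc => by
      obtain ⟨T, hT⟩ := hne
      exact mem_cup.2 ⟨T, hT, mem_cap.1 hc T hT⟩
    refine indep_of fun u hu v hv => ?_
    rcases mem_union.1 hu with hu | hu <;> rcases mem_union.1 hv with hv | hv
    · exact hS.nadj (mem_inter.1 hu).1 (mem_inter.1 hv).1
    · exact fun h => key v hv u (mem_inter.1 hu).2 h.symm
    · exact key u hu v (mem_inter.1 hv).2
    · exact key u hu v (sub v hv)
  have h1 := hF.valid _ hI
  have h2 := hS.2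
  have sub : ∀ c ∈ cap X, c ∈ cup X := fun c hc => by
    obtain ⟨T, hT⟩ := hne
    exact mem_cup.2 ⟨T, hT, mem_cap.1 hc T hT⟩
  have e : hw a (insert S X) - hw a X =
      ∑ v ∈ S, a v - ∑ v ∈ (S ∩ cup X) ∪ cap X, a v := by
    simp only [hw, sum_eq_ite _ a, ← sum_add_distrib, ← sum_sub_distrib]
    refine sum_congr rfl fun v _ => ?_
    have m1 : v ∈ cup (insert S X) ↔ v ∈ S ∨ v ∈ cup X := by simp [mem_cup]
    have m2 : v ∈ cap (insert S X) ↔ v ∈ S ∧ v ∈ cap X := by simp [mem_cap]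
    have := sub v
    by_cases p : v ∈ S <;> by_cases q : v ∈ cup X <;> by_cases r : v ∈ cap X <;>
      simp_all
  linarith

lemma hw_mono (hF : IsFacet G a) {X : Finset (Finset V)} (hX : ∀ T ∈ X, Root G a T)
    (hne : X.Nonempty) (Y : Finset (Finset V)) (hY : ∀ T ∈ Y, Root G a T) :
    hw a X ≤ hw a (Y ∪ X) := by
  induction Y using Finset.induction_on with
  | empty => simp
  | insert S Y _ ih =>
    rw [insert_union]
    refine (ih fun T hT => hY T (mem_insert_of_mem hT)).trans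
      (hw_insert hF (fun T hT => ?_) (hY S (mem_insert_self _ _)) (hne.mono subset_union_right))
    rcases mem_union.1 hT with h | h
    exacts [hY T (mem_insert_of_mem h), hX T h]

lemma two_le_hw (hF : IsFacet G a) {X : Finset (Finset V)} (hX : ∀ T ∈ X, Root G a T)
    (hne : X.Nonempty) : 2 ≤ hw a X := by
  obtain ⟨S, hS⟩ := hne
  have h := hw_mono hF (X := {S}) (by simpa using hX S hS) (singleton_nonempty S) X hX
  rwa [hw_single (hX S hS), union_eq_left.2 (singleton_subset_iff.2 hS)] at h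

open Classical in
/-- the roots through `i` -/
noncomputable def star (G : SimpleGraph V) (a : V → ℝ) (i : V) : Finset (Finset V) :=
  univ.filter fun S => Root G a S ∧ i ∈ S

lemma mem_star {i : V} {S : Finset V} : S ∈ star G a i ↔ Root G a S ∧ i ∈ S := by simp [star]

lemma exists_root (hF : IsFacet G a) (i : V) : ∃ S, Root G a S ∧ i ∈ S := by
  by_contra hn
  push Not at hn
  have := hF.ker (fun v => if v = i then 1 else 0) (fun S h1 h2 => by
    simp [hn S ⟨h1, h2⟩]) i
  simp at this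

lemma star_nonempty (hF : IsFacet G a) (i : V) : (star G a i).Nonempty := by
  obtain ⟨S, h⟩ := exists_root hF i
  exact ⟨S, mem_star.2 h⟩

lemma cup_star_sub (i : V) : cup (star G a i) ⊆ nn G i := fun j hj => by
  obtain ⟨S, hS, hj⟩ := mem_cup.1 hj
  exact mem_nn.2 ((mem_star.1 hS).1.nadj (mem_star.1 hS).2 hj)

lemma cap_star (hs : ∀ u v, u ≠ v → ∃ S, Root G a S ∧ v ∈ S ∧ u ∉ S) (i : V) :
    cap (star G a i) = {i} := by
  ext u
  rw [mem_cap, mem_singleton]
  constructor
  · intro h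
    by_contra hne
    obtain ⟨S, h1, h2, h3⟩ := hs u i hne
    exact h3 (h S (mem_star.2 ⟨h1, h2⟩))
  · rintro rfl S hS
    exact (mem_star.1 hS).2

lemma hw_star_le (hF : IsFacet G a) (hs : ∀ u v, u ≠ v → ∃ S, Root G a S ∧ v ∈ S ∧ u ∉ S)
    (i : V) : hw a (star G a i) ≤ a i + ∑ j ∈ nn G i, a j := by
  rw [hw, cap_star hs, sum_singleton, add_comm]
  have := sum_le_sum_of_subset_of_nonneg (f := a) (cup_star_sub (G := G) (a := a) i)
    fun j _ _ => (hF.pos j).le
  linarith

lemma Setup.hw_eq (h : Setup G a) {i : V} {X : Finset (Finset V)} (hX : X ⊆ star G a i)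
    (hne : X.Nonempty) : hw a X = 2 := by
  have r : ∀ T ∈ star G a i, Root G a T := fun T hT => (mem_star.1 hT).1
  have h1 := hw_mono h.fac (fun T hT => r T (hX hT)) hne _ r
  rw [union_eq_left.2 hX] at h1
  have h2 := two_le_hw h.fac (fun T hT => r T (hX hT)) hne
  linarith [hw_star_le h.fac h.sep i, h.tight i]

lemma Setup.cooc (h : Setup G a) {i j : V} (hij : ¬ G.Adj i j) :
    ∃ S, Root G a S ∧ i ∈ S ∧ j ∈ S := by
  by_contra hn
  have hj : j ∉ cup (star G a i) := fun hj => by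
    obtain ⟨S, hS, hj⟩ := mem_cup.1 hj
    exact hn ⟨S, (mem_star.1 hS).1, (mem_star.1 hS).2, hj⟩
  have h1 := h.hw_eq (Subset.refl _) (star_nonempty h.fac i)
  rw [hw, cap_star h.sep, sum_singleton] at h1
  have h2 := sum_lt_sum_of_subset (f := a) (cup_star_sub (G := G) (a := a) i) (mem_nn.2 hij) hj
    (h.fac.pos j) fun k _ _ => (h.fac.pos k).le
  linarith [h.tight i]

lemma moebius {α : Type} [DecidableEq α] (F : Finset α) (p q : V → ℝ) (f g : V → Finset α)
    (hf : ∀ v, f v ⊆ F) (hg : ∀ v, g v ⊆ F)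
    (h : ∀ X ⊆ F, X.Nonempty →
      ∑ v, (if X ⊆ f v then p v else 0) = ∑ v, (if X ⊆ g v then q v else 0)) :
    ∀ X ⊆ F, X.Nonempty →
      ∑ v, (if f v = X then p v else 0) = ∑ v, (if g v = X then q v else 0) := by
  have split : ∀ (p : V → ℝ) (f : V → Finset α), (∀ v, f v ⊆ F) → ∀ X : Finset α,
      ∑ v, (if X ⊆ f v then p v else 0) =
        ∑ Y ∈ F.powerset.filter (fun Y => X ⊆ Y), ∑ v, (if f v = Y then p v else 0) := by
    intro p f hf X
    rw [sum_comm]
    refine sum_congr rfl fun v _ => ?_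
    rw [sum_ite_eq]
    simp [hf v]
  by_contra hn
  push Not at hn
  obtain ⟨X, hX, hmax⟩ := exists_max_image (F.powerset.filter fun X => X.Nonempty ∧
    ∑ v, (if f v = X then p v else 0) ≠ ∑ v, (if g v = X then q v else 0)) card (by
      obtain ⟨X, h1, h2, h3⟩ := hn
      exact ⟨X, mem_filter.2 ⟨mem_powerset.2 h1, h2, h3⟩⟩)
  obtain ⟨h1, h2, h3⟩ := mem_filter.1 hX
  have e := h X (mem_powerset.1 h1) h2
  rw [split p f hf, split q g hg] at e
  have hm : X ∈ F.powerset.filter (fun Y => X ⊆ Y) := mem_filter.2 ⟨h1, Subset.refl _⟩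
  rw [← add_sum_erase _ _ hm, ← add_sum_erase _ _ hm] at e
  have e2 : ∑ Y ∈ (F.powerset.filter (fun Y => X ⊆ Y)).erase X, ∑ v, (if f v = Y then p v else 0)
      = ∑ Y ∈ (F.powerset.filter (fun Y => X ⊆ Y)).erase X,
        ∑ v, (if g v = Y then q v else 0) := by
    refine sum_congr rfl fun Y hY => ?_
    obtain ⟨y1, y2⟩ := mem_erase.1 hY
    obtain ⟨y2, y3⟩ := mem_filter.1 y2
    by_contra hne
    have := hmax Y (mem_filter.2 ⟨y2, h2.mono y3, hne⟩)
    exact y1 (eq_of_subset_of_card_le y3 this).symm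
  exact h3 (by linarith)

/-- `u` and `v` are complementary on the roots through `i` -/
def Par (G : SimpleGraph V) (a : V → ℝ) (i u v : V) : Prop :=
  ∀ T, Root G a T → i ∈ T → (v ∈ T ↔ u ∉ T)

omit [Fintype V] [DecidableEq V] in
lemma Par.symm {i u v : V} (h : Par G a i u v) : Par G a i v u := fun T h1 h2 => by
  have := h T h1 h2
  tauto

lemma Setup.partner (h : Setup G a) {i j : V} (hij : j ≠ i) : ¬ G.Adj i j → ∃ v, Par G a i j v := by
  classical
  intro hA
  set F := star G a i with hFd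
  let P : V → Finset (Finset V) := fun v => F.filter fun S => v ∈ S
  have mP : ∀ v S, S ∈ P v ↔ S ∈ F ∧ v ∈ S := fun v S => mem_filter
  have hFne : F.Nonempty := star_nonempty h.fac i
  have hall := h.hw_eq (Subset.refl F) hFne
  have key := moebius F (fun v => if v = i then 0 else a v)
    (fun v => if v ∈ cup F then a v else 0) P (fun v => F \ P v)
    (fun v => filter_subset _ _) (fun v => sdiff_subset) (fun X hX hne => by
      have h1 := h.hw_eq hX hne
      have e : ∑ v, (if X ⊆ P v then (if v = i then 0 else a v) else 0)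
          - ∑ v, (if X ⊆ F \ P v then (if v ∈ cup F then a v else 0) else 0)
          = hw a X - hw a F := by
        rw [hw, hw, hFd, cap_star h.sep, ← hFd]
        simp only [sum_eq_ite _ a, ← sum_add_distrib, ← sum_sub_distrib]
        refine sum_congr rfl fun v _ => ?_
        have m1 : X ⊆ P v ↔ v ∈ cap X := by
          rw [mem_cap]
          exact ⟨fun k S hS => ((mP v S).1 (k hS)).2, fun k S hS => (mP v S).2 ⟨hX hS, k S hS⟩⟩
        have m2 : X ⊆ F \ P v ↔ v ∉ cup X := by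
          rw [mem_cup]
          constructor
          · rintro k ⟨S, hS, hv⟩
            exact (mem_sdiff.1 (k hS)).2 ((mP v S).2 ⟨hX hS, hv⟩)
          · intro k S hS
            exact mem_sdiff.2 ⟨hX hS, fun hh => k ⟨S, hS, ((mP v S).1 hh).2⟩⟩
        have m3 : v ∈ cup X → v ∈ cup F := fun k => by
          obtain ⟨S, hS, hv⟩ := mem_cup.1 k
          exact mem_cup.2 ⟨S, hX hS, hv⟩
        have m4 : v = i → v ∈ cap X := fun k =>
          mem_cap.2 fun S hS => k ▸ (mem_star.1 (hX hS)).2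
        by_cases p : v = i <;> by_cases q : v ∈ cup X <;> by_cases r : v ∈ cap X <;>
          by_cases s : v ∈ cup F <;> simp_all
      linarith)
  obtain ⟨S0, s1, s2, s3⟩ := h.sep j i hij
  obtain ⟨S1, t1, t2, t3⟩ := h.cooc hA
  have k := key (F \ P j) sdiff_subset ⟨S0, mem_sdiff.2 ⟨mem_star.2 ⟨s1, s2⟩,
    fun hh => s3 ((mP j S0).1 hh).2⟩⟩
  have hj : j ∈ cup F := mem_cup.2 ⟨S1, mem_star.2 ⟨t1, t2⟩, t3⟩
  have hpos : 0 < ∑ v, (if F \ P v = F \ P j then (if v ∈ cup F then a v else 0) else 0) := by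
    refine sum_pos' (fun v _ => ?_) ⟨j, mem_univ _, by simp [hj, h.fac.pos j]⟩
    split_ifs
    exacts [(h.fac.pos v).le, le_rfl, le_rfl]
  rw [← k] at hpos
  obtain ⟨v, -, hv⟩ := exists_ne_zero_of_sum_ne_zero hpos.ne'
  have hv' : P v = F \ P j := by
    by_contra hne
    simp [hne] at hv
  refine ⟨v, fun T hT hi => ?_⟩
  have hTF : T ∈ F := mem_star.2 ⟨hT, hi⟩
  have := Finset.ext_iff.1 hv' T
  rw [mem_sdiff, mP, mP] at this
  tauto

lemma Setup.median (h : Setup G a) {i : V} {T1 T2 T3 : Finset V} (h1 : Root G a T1)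
    (h2 : Root G a T2) (h3 : Root G a T3) (i1 : i ∈ T1) (i2 : i ∈ T2) (i3 : i ∈ T3) :
    Root G a (T1 ∩ T2 ∪ T1 ∩ T3 ∪ T2 ∩ T3) := by
  constructor
  · refine indep_of fun u hu v hv => ?_
    simp only [mem_union, mem_inter] at hu hv
    have a1 := h1.nadj (u := u) (v := v)
    have a2 := h2.nadj (u := u) (v := v)
    have a3 := h3.nadj (u := u) (v := v)
    tauto
  · have e := h.hw_eq (i := i) (X := {T1, T2, T3}) (by
      intro T hT
      simp only [mem_insert, mem_singleton] at hT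
      rcases hT with rfl | rfl | rfl
      exacts [mem_star.2 ⟨h1, i1⟩, mem_star.2 ⟨h2, i2⟩, mem_star.2 ⟨h3, i3⟩]) (by simp)
    have e2 : hw a {T1, T2, T3} + ∑ v ∈ T1 ∩ T2 ∪ T1 ∩ T3 ∪ T2 ∩ T3, a v =
        ∑ v ∈ T1, a v + ∑ v ∈ T2, a v + ∑ v ∈ T3, a v := by
      simp only [hw, sum_eq_ite _ a, ← sum_add_distrib]
      refine sum_congr rfl fun v _ => ?_
      by_cases p : v ∈ T1 <;> by_cases q : v ∈ T2 <;> by_cases r : v ∈ T3 <;>
        simp [mem_cup, mem_cap, p, q, r]
    linarith [h1.2, h2.2, h3.2]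

end Pool.Agent.Lib.MP_2081ef_co.NN
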