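import Pool.Agent.Lib.MP_2081ef_co.NN1

/-! The de Bruijn-Erdos count: all roots are linearly independent. -/

namespace Pool.Agent.Lib.MP_2081ef_co.NN

open Finset

variable {V : Type} [Fintype V] [DecidableEq V] {G : SimpleGraph V} {a : V → ℝ}

lemma card_le_of_inj {α β : Type} [DecidableEq α] (M : α → β → ℝ) (s : Finset α) (t : Finset β)
    (h : ∀ c : α → ℝ, (∀ j ∈ t, ∑ x ∈ s, c x * M x j = 0) → ∀ x ∈ s, c x = 0) :
    s.card ≤ t.card := by
  have li : LinearIndependent ℝ (fun (x : s) (j : t) => M x j) := by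
    rw [Fintype.linearIndependent_iff]
    intro g hg x
    have := h (fun y => if hy : y ∈ s then g ⟨y, hy⟩ else 0) (fun j hj => by
      have e := congrFun hg ⟨j, hj⟩
      simp only [Finset.sum_apply, Pi.smul_apply, smul_eq_mul, Pi.zero_apply] at e
      rw [← e, ← sum_coe_sort s]
      exact sum_congr rfl fun y _ => by simp) x x.2
    simpa using this
  simpa using li.fintype_card_le_finrank

/-- linear independence of incidence vectors -/
def Ind (B : Finset (Finset V)) : Prop :=
  ∀ c : Finset V → ℝ, (∀ j, ∑ T ∈ B, c T * incid T j = 0) → ∀ T ∈ B, c T = 0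

omit [Fintype V] in
lemma Ind.mono {B B' : Finset (Finset V)} (h : Ind B) (hs : B' ⊆ B) : Ind B' := by
  intro c hc T hT
  have := h (fun U => if U ∈ B' then c U else 0) (fun j => by
    refine Eq.trans ?_ (hc j)
    rw [← sum_subset hs fun U _ hU => by simp [hU]]
    exact sum_congr rfl fun U hU => by simp [hU]) T (hs hT)
  simpa [hT] using this

lemma Setup.determine (h : Setup G a) {i : V} {S : Finset V} (hS : Root G a S) (hi : i ∈ S)
    {X : Finset (Finset V)} (hX : ∀ T ∈ X, Root G a T ∧ i ∈ T) (c : Finset V → ℝ)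
    (hc : ∀ j ∈ S, ∑ T ∈ X, c T * incid T j = 0) (j : V) : ∑ T ∈ X, c T * incid T j = 0 := by
  by_cases hj : j ∈ S
  · exact hc j hj
  by_cases hA : G.Adj i j
  · refine sum_eq_zero fun T hT => ?_
    have : j ∉ T := fun k => (hX T hT).1.nadj (hX T hT).2 k hA
    simp [incid, this]
  obtain ⟨v, hv⟩ := h.partner (fun e : j = i => hj (e ▸ hi)) hA
  have e : ∑ T ∈ X, c T * incid T j =
      ∑ T ∈ X, c T * incid T i - ∑ T ∈ X, c T * incid T v := by
    rw [← sum_sub_distrib]
    refine sum_congr rfl fun T hT => ?_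
    have k := hv T (hX T hT).1 (hX T hT).2
    have k2 := (hX T hT).2
    by_cases p : j ∈ T <;> simp_all [incid]
  rw [e, hc i hi, hc v ((hv S hS hi).2 hj), sub_zero]

lemma Setup.bound (h : Setup G a) {B : Finset (Finset V)} (hB : ∀ T ∈ B, Root G a T) (hI : Ind B)
    {i : V} {S : Finset V} (hS : Root G a S) (hi : i ∈ S) :
    (B.filter fun T => i ∈ T).card ≤ S.card :=
  card_le_of_inj incid _ _ fun c hc => hI.mono (filter_subset _ _) c
    (h.determine hS hi (fun T hT => ⟨hB T (mem_filter.1 hT).1, (mem_filter.1 hT).2⟩) c hc)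

lemma Setup.count (h : Setup G a) {B : Finset (Finset V)} (hB : ∀ T ∈ B, Root G a T) (hI : Ind B)
    (hn : Fintype.card V ≤ B.card) :
    (∀ i, ∃ T ∈ B, i ∈ T) ∧ ∀ S ∈ B, ∀ i ∈ S, (B.filter fun T => i ∈ T).card = S.card := by
  set r : V → ℕ := fun i => (B.filter fun T => i ∈ T).card with hr
  have rpos : ∀ S ∈ B, ∀ i ∈ S, 0 < r i := fun S hS i hi =>
    card_pos.2 ⟨S, mem_filter.2 ⟨hS, hi⟩⟩
  have le1 : ∀ S ∈ B, ∀ i ∈ S, (1 : ℝ) / S.card ≤ 1 / r i := fun S hS i hi =>
    one_div_le_one_div_of_le (by exact_mod_cast rpos S hS i hi)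
      (by exact_mod_cast h.bound hB hI (hB S hS) hi)
  have e1 : ∑ S ∈ B, ∑ _i ∈ S, (1 : ℝ) / S.card = B.card := by
    rw [card_eq_sum_ones B, Nat.cast_sum]
    refine sum_congr rfl fun S hS => ?_
    have : (S.card : ℝ) ≠ 0 := by exact_mod_cast (hB S hS).nonempty.card_pos.ne'
    simp [this]
  have e2 : ∑ S ∈ B, ∑ i ∈ S, (1 : ℝ) / r i = ∑ i, (r i : ℝ) * (1 / r i) := by
    simp only [sum_eq_ite _ fun i => (1 : ℝ) / r i]
    rw [sum_comm]
    refine sum_congr rfl fun i _ => ?_
    rw [← sum_filter, sum_const, nsmul_eq_mul]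
  have le2 : ∀ i, (r i : ℝ) * (1 / r i) ≤ 1 := fun i => by
    by_cases k : (r i : ℝ) = 0
    · simp [k]
    · rw [mul_one_div_cancel k]
  have hn' : ∑ _i : V, (1 : ℝ) ≤ B.card := by
    simp only [sum_const, card_univ, nsmul_eq_mul, mul_one]
    exact_mod_cast hn
  have s1 : ∑ S ∈ B, ∑ _i ∈ S, (1 : ℝ) / S.card ≤ ∑ S ∈ B, ∑ i ∈ S, (1 : ℝ) / r i :=
    sum_le_sum fun S hS => sum_le_sum (le1 S hS)
  have s2 : ∑ i, (r i : ℝ) * (1 / r i) ≤ ∑ _i : V, (1 : ℝ) := sum_le_sum fun i _ => le2 i
  constructor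
  · intro i
    have := (sum_eq_sum_iff_of_le fun i _ => le2 i).1
      (show ∑ i, (r i : ℝ) * (1 / r i) = ∑ _i : V, (1 : ℝ) by linarith) i (mem_univ _)
    have hp : 0 < r i := Nat.pos_of_ne_zero fun k => by simp [k] at this
    obtain ⟨T, hT⟩ := card_pos.1 hp
    exact ⟨T, mem_filter.1 hT⟩
  · intro S hS i hi
    have k1 := (sum_eq_sum_iff_of_le fun S hS => sum_le_sum (le1 S hS)).1
      (show ∑ S ∈ B, ∑ _i ∈ S, (1 : ℝ) / S.card = ∑ S ∈ B, ∑ i ∈ S, (1 : ℝ) / r i by linarith) S hS
    have k2 := (sum_eq_sum_iff_of_le (le1 S hS)).1 k1 i hi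
    rw [one_div, one_div, inv_inj] at k2
    exact_mod_cast k2.symm

open Classical in
/-- all roots -/
noncomputable def rts (G : SimpleGraph V) (a : V → ℝ) : Finset (Finset V) :=
  univ.filter fun S => Root G a S

lemma mem_rts {S : Finset V} : S ∈ rts G a ↔ Root G a S := by simp [rts]

lemma exists_basis (hF : IsFacet G a) : ∃ B : Finset (Finset V), (∀ T ∈ B, Root G a T) ∧ Ind B ∧
    Fintype.card V ≤ B.card ∧
    ∀ S, Root G a S → ∃ d : Finset V → ℝ, ∀ j, incid S j = ∑ T ∈ B, d T * incid T j := by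
  classical
  obtain ⟨B, hB, hmax⟩ := exists_max_image ((rts G a).powerset.filter Ind) card
    ⟨∅, mem_filter.2 ⟨by simp, fun c _ T hT => by simp at hT⟩⟩
  obtain ⟨h1, h2⟩ := mem_filter.1 hB
  have h1' := mem_powerset.1 h1
  have span : ∀ S, Root G a S →
      ∃ d : Finset V → ℝ, ∀ j, incid S j = ∑ T ∈ B, d T * incid T j := by
    intro S hS
    by_cases hm : S ∈ B
    · exact ⟨fun T => if T = S then 1 else 0, fun j => by simp [hm]⟩
    have hnI : ¬ Ind (insert S B) := fun k => by
      have := hmax _ (mem_filter.2 ⟨mem_powerset.2 (insert_subset (mem_rts.2 hS) h1'), k⟩)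
      rw [card_insert_of_notMem hm] at this
      omega
    unfold Ind at hnI
    push Not at hnI
    obtain ⟨c, hc, T, hT, hne⟩ := hnI
    simp only [sum_insert hm] at hc
    have hcS : c S ≠ 0 := fun k => by
      rcases mem_insert.1 hT with rfl | hT
      · exact hne k
      · exact hne (h2 c (fun j => by simpa [k] using hc j) T hT)
    refine ⟨fun T => -c T / c S, fun j => ?_⟩
    have e : ∑ T ∈ B, -c T / c S * incid T j = -(∑ T ∈ B, c T * incid T j) / c S := by
      rw [← sum_neg_distrib, sum_div]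
      exact sum_congr rfl fun T _ => by ring
    rw [e, eq_div_iff hcS]
    linarith [hc j]
  refine ⟨B, fun T hT => mem_rts.1 (h1' hT), h2, ?_, span⟩
  rw [← card_univ]
  refine card_le_of_inj (fun v T => incid T v) _ _ fun c hc v _ => hF.ker c (fun S s1 s2 => ?_) v
  obtain ⟨d, hd⟩ := span S ⟨s1, s2⟩
  calc ∑ v ∈ S, c v = ∑ v, c v * incid S v := by simp [incid]
    _ = ∑ T ∈ B, d T * ∑ v, c v * incid T v := by
        simp only [hd, mul_sum]
        rw [sum_comm]
        exact sum_congr rfl fun T _ => sum_congr rfl fun v _ => by ring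
    _ = 0 := sum_eq_zero fun T hT => by rw [hc T hT, mul_zero]

lemma Setup.all (h : Setup G a) : Ind (rts G a) ∧ Fintype.card V ≤ (rts G a).card := by
  obtain ⟨B, hB, hI, hn, span⟩ := exists_basis h.fac
  suffices e : rts G a = B by rw [e]; exact ⟨hI, hn⟩
  refine Subset.antisymm (fun S hS => ?_) fun T hT => mem_rts.2 (hB T hT)
  by_contra hm
  have hS' := mem_rts.1 hS
  obtain ⟨d, hd⟩ := span S hS'
  obtain ⟨T, hT, hdT⟩ : ∃ T ∈ B, d T ≠ 0 := by
    by_contra k
    push Not at k
    obtain ⟨j, hj⟩ := hS'.nonempty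
    have := hd j
    rw [sum_eq_zero fun T hT => by rw [k T hT, zero_mul]] at this
    simp [incid, hj] at this
  have hm' : S ∉ B.erase T := fun k => hm (mem_of_mem_erase k)
  have hB' : ∀ U ∈ insert S (B.erase T), Root G a U := fun U hU => by
    rcases mem_insert.1 hU with rfl | hU
    exacts [hS', hB U (mem_of_mem_erase hU)]
  have hI' : Ind (insert S (B.erase T)) := by
    intro e he
    simp only [sum_insert hm'] at he
    have z := hI (fun U => e S * d U + if U = T then 0 else e U) (fun j => by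
      have e1 : ∑ U ∈ B, (if U = T then 0 else e U) * incid U j =
          ∑ U ∈ B.erase T, e U * incid U j := by
        rw [← add_sum_erase _ _ hT]
        simp only [if_true, zero_mul, zero_add]
        exact sum_congr rfl fun U hU => by rw [if_neg (mem_erase.1 hU).1]
      simp only [add_mul, sum_add_distrib, mul_assoc, ← mul_sum]
      rw [e1, ← hd j]
      exact he j)
    have hS0 : e S = 0 := by simpa [hdT] using z T hT
    intro U hU
    rcases mem_insert.1 hU with rfl | hU
    · exact hS0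
    · simpa [hS0, (mem_erase.1 hU).1] using z U (mem_of_mem_erase hU)
  have hn' : Fintype.card V ≤ (insert S (B.erase T)).card := by
    rw [card_insert_of_notMem hm', card_erase_add_one hT]
    exact hn
  obtain ⟨p1, p2⟩ := h.count hB hI hn
  obtain ⟨q1, q2⟩ := h.count hB' hI' hn'
  have eq : ∀ i, (B.filter fun U => i ∈ U).card =
      ((insert S (B.erase T)).filter fun U => i ∈ U).card := fun i => by
    obtain ⟨U, hU, hi⟩ := p1 i
    obtain ⟨U', hU', hi'⟩ := q1 i
    have k1 := h.bound hB' hI' (hB U hU) hi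
    have k2 := h.bound hB hI (hB' U' hU') hi'
    have k3 := p2 U hU i hi
    have k4 := q2 U' hU' i hi'
    omega
  apply hm
  have : S = T := by
    ext i
    have k := eq i
    rw [card_filter, card_filter, sum_insert hm', ← add_sum_erase _ _ hT] at k
    by_cases p : i ∈ S <;> by_cases q : i ∈ T <;> simp_all
  exact this ▸ hT

lemma Setup.distinct (h : Setup G a) {i v w : V} {S : Finset V} (hS : Root G a S) (hi : i ∈ S)
    (hv : v ∈ S) (hw : w ∈ S) (e : ∀ T, Root G a T → i ∈ T → (v ∈ T ↔ w ∈ T)) : v = w := by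
  by_contra hne
  obtain ⟨hI, hn⟩ := h.all
  have hB : ∀ T ∈ rts G a, Root G a T := fun T => mem_rts.1
  have k1 := (h.count hB hI hn).2 S (mem_rts.2 hS) i hi
  have hX : ∀ T ∈ (rts G a).filter fun T => i ∈ T, Root G a T ∧ i ∈ T := fun T hT =>
    ⟨hB T (mem_filter.1 hT).1, (mem_filter.1 hT).2⟩
  have k2 : ((rts G a).filter fun T => i ∈ T).card ≤ (S.erase w).card :=
    card_le_of_inj incid _ _ fun c hc => hI.mono (filter_subset _ _) c
      (h.determine hS hi hX c fun j hj => by
        by_cases p : j = w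
        · rw [← hc v (mem_erase.2 ⟨hne, hv⟩), p]
          refine sum_congr rfl fun T hT => ?_
          simp [incid, e T (hX T hT).1 (hX T hT).2]
        · exact hc j (mem_erase.2 ⟨p, hj⟩))
  have k3 := card_erase_add_one hw
  omega

end Pool.Agent.Lib.MP_2081ef_co.NN
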