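import Pool.Agent.Lib.MP_2081ef_co.NN2

/-! Swaps between roots, unit weights and the critical graph. -/

namespace Pool.Agent.Lib.MP_2081ef_co.NN

open Finset

variable {V : Type} [Fintype V] [DecidableEq V] {G : SimpleGraph V} {a : V → ℝ}

/-- `u` can be exchanged for `v` in some root -/
def Sw (G : SimpleGraph V) (a : V → ℝ) (u v : V) : Prop :=
  ∃ T, Root G a T ∧ u ∈ T ∧ v ∉ T ∧ Root G a (insert v (T.erase u))

lemma Setup.swap (h : Setup G a) {i u v : V} (hui : u ≠ i) (hA : ¬ G.Adj i u)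
    (hp : Par G a i u v) : Sw G a u v := by
  obtain ⟨⟨T1, T2⟩, hm, hmin⟩ := exists_min_image
    ((star G a i ×ˢ star G a i).filter fun p => u ∈ p.1 ∧ u ∉ p.2) (fun p => (p.1 \ p.2).card) (by
      obtain ⟨S1, s1, s2, s3⟩ := h.cooc hA
      obtain ⟨S2, t1, t2, t3⟩ := h.sep u i hui
      exact ⟨(S1, S2), mem_filter.2 ⟨mem_product.2 ⟨mem_star.2 ⟨s1, s2⟩, mem_star.2 ⟨t1, t2⟩⟩,
        s3, t3⟩⟩)
  obtain ⟨hm1, u1, u2⟩ := mem_filter.1 hm
  obtain ⟨r1, i1⟩ := mem_star.1 (mem_product.1 hm1).1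
  obtain ⟨r2, i2⟩ := mem_star.1 (mem_product.1 hm1).2
  dsimp only at u1 u2 r1 r2 i1 i2 hmin
  have c1 : ∀ x ∈ T1, x ∉ T2 → x = u := by
    intro x x1 x2
    refine h.distinct r1 i1 x1 u1 fun T3 r3 i3 => ?_
    have rM := h.median r1 r2 r3 i1 i2 i3
    have iM : i ∈ T1 ∩ T2 ∪ T1 ∩ T3 ∪ T2 ∩ T3 := by simp [i1, i2]
    by_contra hne
    by_cases p : u ∈ T3
    · have q : x ∉ T3 := fun k => hne (iff_of_true k p)
      have k := hmin (T1 ∩ T2 ∪ T1 ∩ T3 ∪ T2 ∩ T3, T2) (mem_filter.2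
        ⟨mem_product.2 ⟨mem_star.2 ⟨rM, iM⟩, mem_star.2 ⟨r2, i2⟩⟩, by simp [u1, p], u2⟩)
      refine absurd k (not_le.2 (card_lt_card ⟨fun y hy => ?_, fun hs => ?_⟩))
      · simp only [mem_sdiff, mem_union, mem_inter] at hy ⊢
        tauto
      · have := hs (mem_sdiff.2 ⟨x1, x2⟩)
        simp only [mem_sdiff, mem_union, mem_inter] at this
        tauto
    · have q : x ∈ T3 := by
        by_contra k
        exact hne (iff_of_false k p)
      have k := hmin (T1, T1 ∩ T2 ∪ T1 ∩ T3 ∪ T2 ∩ T3) (mem_filter.2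
        ⟨mem_product.2 ⟨mem_star.2 ⟨r1, i1⟩, mem_star.2 ⟨rM, iM⟩⟩, u1, by simp [u2, p]⟩)
      refine absurd k (not_le.2 (card_lt_card ⟨fun y hy => ?_, fun hs => ?_⟩))
      · simp only [mem_sdiff, mem_union, mem_inter] at hy ⊢
        tauto
      · have := hs (mem_sdiff.2 ⟨x1, x2⟩)
        simp only [mem_sdiff, mem_union, mem_inter] at this
        tauto
  have v2 : v ∈ T2 := (hp T2 r2 i2).2 u2
  have v1 : v ∉ T1 := fun k => (hp T1 r1 i1).1 k u1
  have c2 : ∀ y ∈ T2, y ∉ T1 → y = v := by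
    intro y y2 y1
    obtain ⟨p, hq⟩ := h.partner (fun e : y = i => y1 (e ▸ i1)) (r2.nadj i2 y2)
    have e : p = u := c1 p ((hq T1 r1 i1).2 y1) fun k => (hq T2 r2 i2).1 k y2
    subst e
    refine h.distinct r2 i2 y2 v2 fun T r k => ?_
    have k1 := hq T r k
    have k2 := hp T r k
    tauto
  refine ⟨T1, r1, u1, v1, ?_⟩
  have : insert v (T1.erase u) = T2 := by
    ext x
    rw [mem_insert, mem_erase]
    constructor
    · rintro (rfl | ⟨k1, k2⟩)
      · exact v2
      · by_contra k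
        exact k1 (c1 x k2 k)
    · intro k
      by_cases p : x ∈ T1
      · exact Or.inr ⟨fun e => u2 (e ▸ k), p⟩
      · exact Or.inl (c2 x k p)
  rwa [this]

lemma Setup.const_star (h : Setup G a) {c : V → ℝ} (hc : ∀ u v, Sw G a u v → c u = c v) {i : V}
    {S T : Finset V} (hS : Root G a S) (hT : Root G a T) (iS : i ∈ S) (iT : i ∈ T) :
    ∑ v ∈ S, c v = ∑ v ∈ T, c v := by
  choose! p hp using fun x (h1 : x ≠ i) (h2 : ¬ G.Adj i x) => h.partner h1 h2
  have key : ∀ S T : Finset V, Root G a S → Root G a T → i ∈ S → i ∈ T → ∀ x ∈ S \ T,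
      Par G a i x (p x) ∧ p x ∈ T \ S ∧ c x = c (p x) := by
    intro S T hS hT iS iT x hx
    obtain ⟨x1, x2⟩ := mem_sdiff.1 hx
    have n1 : x ≠ i := fun e => x2 (e ▸ iT)
    have k := hp x n1 (hS.nadj iS x1)
    exact ⟨k, mem_sdiff.2 ⟨(k T hT iT).2 x2, fun e => (k S hS iS).1 e x1⟩,
      hc _ _ (h.swap n1 (hS.nadj iS x1) k)⟩
  have inv : ∀ S T : Finset V, Root G a S → Root G a T → i ∈ S → i ∈ T → ∀ x ∈ S \ T,
      p (p x) = x := by
    intro S T hS hT iS iT x hx
    obtain ⟨k1, k2, -⟩ := key S T hS hT iS iT x hx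
    obtain ⟨k3, k4, -⟩ := key T S hT hS iT iS _ k2
    refine h.distinct hS iS (mem_sdiff.1 k4).1 (mem_sdiff.1 hx).1 fun U r k => ?_
    have a1 := k1 U r k
    have a2 := k3 U r k
    tauto
  have e : ∑ v ∈ S \ T, c v = ∑ v ∈ T \ S, c v :=
    sum_nbij' p p (fun x hx => (key S T hS hT iS iT x hx).2.1)
      (fun x hx => (key T S hT hS iT iS x hx).2.1) (inv S T hS hT iS iT) (inv T S hT hS iT iS)
      fun x hx => (key S T hS hT iS iT x hx).2.2
  have e2 := sum_sdiff_sub_sum_sdiff (s₁ := T) (s₂ := S) (f := c)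
  linarith

lemma Setup.prop (h : Setup G a) (hco : CoConn G) [Nonempty V] {c : V → ℝ}
    (hc : ∀ u v, Sw G a u v → c u = c v) : ∃ t, ∀ v, c v = t * a v := by
  classical
  choose s s1 s2 using exists_root h.fac
  obtain ⟨i0⟩ := ‹Nonempty V›
  have hC := hco (univ.filter fun j => ∑ v ∈ s j, c v = ∑ v ∈ s i0, c v) ⟨i0, by simp⟩ (by
    intro u hu w hw
    by_contra hA
    obtain ⟨T, r, t1, t2⟩ := h.cooc hA
    refine hw (mem_filter.2 ⟨mem_univ _, ?_⟩)
    rw [← (mem_filter.1 hu).2, h.const_star hc (s1 w) r (s2 w) t2,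
      h.const_star hc (s1 u) r (s2 u) t1])
  refine ⟨∑ v ∈ s i0, c v, fun v => sub_eq_zero.1 (h.fac.ker
    (fun v => c v - (∑ v ∈ s i0, c v) * a v) (fun S k1 k2 => ?_) v)⟩
  have r : Root G a S := ⟨k1, k2⟩
  obtain ⟨j, hj⟩ := r.nonempty
  have hm : j ∈ univ.filter fun j => ∑ v ∈ s j, c v = ∑ v ∈ s i0, c v := by
    rw [hC]; exact mem_univ j
  rw [sum_sub_distrib, ← mul_sum, k2, mul_one, h.const_star hc r (s1 j) hj (s2 j),
    (mem_filter.1 hm).2, sub_self]

lemma Setup.unit (h : Setup G a) (hco : CoConn G) [Nonempty V] :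
    (∀ v, a v = 1 / (G.indepNum : ℝ)) ∧ ∀ S, Root G a S → S.card = G.indepNum := by
  obtain ⟨t, ht⟩ := h.prop hco (c := fun _ => 1) fun _ _ _ => rfl
  have e : ∀ S : Finset V, (S.card : ℝ) = t * ∑ v ∈ S, a v := fun S => by
    rw [mul_sum, ← sum_congr rfl fun v _ => ht v]
    simp
  obtain ⟨i0⟩ := ‹Nonempty V›
  have t0 : 0 < t := by
    have := ht i0
    have := h.fac.pos i0
    by_contra k
    nlinarith
  have k1 : ∀ S, Root G a S → S.card = G.indepNum := fun S hS => by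
    refine le_antisymm hS.1.card_le_indepNum ?_
    obtain ⟨U, hU⟩ := G.exists_isNIndepSet_indepNum
    have a1 := h.fac.valid U hU.isIndepSet
    have a2 := e U
    have a3 := e S
    rw [hS.2] at a3
    rw [← hU.card_eq]
    have : (U.card : ℝ) ≤ S.card := by nlinarith
    exact_mod_cast this
  refine ⟨fun v => ?_, k1⟩
  obtain ⟨S, hS, -⟩ := exists_root h.fac v
  have a3 := e S
  rw [hS.2, k1 S hS, mul_one] at a3
  rw [a3, eq_div_iff t0.ne', mul_comm]
  exact (ht v).symm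

lemma Setup.crit_adj (h : Setup G a) (hk : ∀ S, Root G a S → S.card = G.indepNum) {u v : V}
    (hs : Sw G a u v) : (crit G).Adj u v := by
  obtain ⟨T, r1, u1, v1, r2⟩ := hs
  have key : ∀ x ∈ insert v T, ∀ y ∈ insert v T, G.Adj x y → s(x, y) = s(u, v) := by
    have k : ∀ y ∈ T, G.Adj v y → y = u := fun y hy hA => by
      by_contra ne
      exact r2.nadj (mem_insert_self _ _) (mem_insert_of_mem (mem_erase.2 ⟨ne, hy⟩)) hA
    intro x hx y hy hA
    rcases mem_insert.1 hx with rfl | hx' <;> rcases mem_insert.1 hy with rfl | hy'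
    · exact (G.irrefl hA).elim
    · rw [k y hy' hA, Sym2.eq_swap]
    · rw [k x hx' hA.symm]
    · exact (r1.nadj hx' hy' hA).elim
  have hA : G.Adj u v := by
    by_contra hA
    have hI : G.IsIndepSet ((insert v T : Finset V) : Set V) := indep_of fun x hx y hy k => by
      have e := key x hx y hy k
      rcases Sym2.eq_iff.1 e with ⟨rfl, rfl⟩ | ⟨rfl, rfl⟩
      exacts [hA k, hA k.symm]
    have := hI.card_le_indepNum
    rw [card_insert_of_notMem v1, hk T r1] at this
    omega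
  refine ⟨hA, ?_⟩
  have hI : (G.deleteEdges {s(u, v)}).IsIndepSet ((insert v T : Finset V) : Set V) :=
    indep_of fun x hx y hy k => by
      rw [SimpleGraph.deleteEdges_adj] at k
      exact k.2 (key x hx y hy k.1)
  have := hI.card_le_indepNum
  rw [card_insert_of_notMem v1, hk T r1] at this
  omega

lemma Setup.two (h : Setup G a) (ha : ∀ u v, a u = a v) {v i : V} (hiv : v ≠ i)
    (hA : ¬ G.Adj i v) : ∃ p q, p ≠ q ∧ Sw G a v p ∧ Sw G a v q := by
  obtain ⟨w, hw⟩ := h.partner hiv hA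
  have sw := h.swap hiv hA hw
  by_contra hn
  have uniq : ∀ q, Sw G a v q → q = w := fun q hq => by
    by_contra ne
    exact hn ⟨q, w, ne, hq, sw⟩
  have mv : ∀ S, Root G a S → v ∈ S → v ≠ w → w ∉ S ∧ Root G a (insert w (S.erase v)) := by
    intro S r hv hvw
    have k : ∀ l ∈ S, l ≠ v → ¬ G.Adj l w ∧ w ∉ S := fun l hl ne => by
      obtain ⟨q, hq⟩ := h.partner ne.symm (r.nadj hl hv)
      have e := uniq q (h.swap ne.symm (r.nadj hl hv) hq)
      subst e
      obtain ⟨T, t1, t2, t3⟩ := h.sep v l ne.symm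
      exact ⟨t1.nadj t2 ((hq T t1 t2).2 t3), fun k => (hq S r hl).1 k hv⟩
    have wS : w ∉ S := fun hw' => (k w hw' hvw.symm).2 hw'
    refine ⟨wS, indep_of fun x hx y hy hA => ?_, ?_⟩
    · rcases mem_insert.1 hx with rfl | hx' <;> rcases mem_insert.1 hy with rfl | hy'
      · exact G.irrefl hA
      · exact (k y (mem_erase.1 hy').2 (mem_erase.1 hy').1).1 hA.symm
      · exact (k x (mem_erase.1 hx').2 (mem_erase.1 hx').1).1 hA
      · exact r.nadj (mem_erase.1 hx').2 (mem_erase.1 hy').2 hA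
    · rw [sum_insert fun k => wS (mem_of_mem_erase k), ha w v, add_sum_erase _ _ hv]
      exact r.2
  obtain ⟨S1, r1, i1, v1⟩ := h.cooc hA
  obtain ⟨S2, r2, v2, i2⟩ := h.sep i v hiv.symm
  have hvw : v ≠ w := fun e => (hw S1 r1 i1).1 (e ▸ v1) v1
  obtain ⟨w1, r1'⟩ := mv S1 r1 v1 hvw
  obtain ⟨w2, r2'⟩ := mv S2 r2 v2 hvw
  have n1 : S1 ≠ insert w (S1.erase v) := fun e => w1 (e ▸ mem_insert_self _ _)
  have n2 : S1 ≠ S2 := fun e => i2 (e ▸ i1)
  have n3 : S1 ≠ insert w (S2.erase v) := fun e => w1 (e ▸ mem_insert_self _ _)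
  have z := h.all.1 (fun T => (if T = S1 then 1 else 0) - (if T = insert w (S1.erase v) then 1 else 0)
    - (if T = S2 then 1 else 0) + (if T = insert w (S2.erase v) then 1 else 0)) (fun j => by
      simp only [sub_mul, add_mul, sum_add_distrib, sum_sub_distrib, ite_mul, one_mul, zero_mul,
        sum_ite_eq', mem_rts, r1, r2, r1', r2', if_true]
      by_cases p : j = v
      · subst p
        simp [incid, v1, v2, hvw]
      · by_cases q : j = w
        · subst q
          simp [incid, w1, w2]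
        · simp [incid, p, q]) S1 (mem_rts.2 r1)
  simp [n1, n2, n3] at z

theorem Setup.core (h : Setup G a) (hco : CoConn G) [Nonempty V]
    (hval : ∀ x ∈ LSplus (ESTAB G), ∑ v, a v * x v ≤ 1) : Core G a := by
  classical
  obtain ⟨ha, hk⟩ := h.unit hco
  by_cases hall : ∀ v, ∃ i, v ≠ i ∧ ¬ G.Adj i v
  · have hc : CritTwo G := by
      constructor
      · refine ⟨fun u w => ?_⟩
        obtain ⟨t, ht⟩ := h.prop hco (c := fun x => if (crit G).Reachable u x then 1 else 0)
          fun x y hs => by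
            have r := (h.crit_adj hk hs).reachable
            have : (crit G).Reachable u x ↔ (crit G).Reachable u y :=
              ⟨fun k => k.trans r, fun k => k.trans r.symm⟩
            simp only [this]
        have k1 := ht u
        have k2 := ht w
        rw [ha w, ← ha u, ← k1] at k2
        by_contra k
        simp [k] at k2
      · intro v
        obtain ⟨i, h1, h2⟩ := hall v
        obtain ⟨p, q, ne, s1, s2⟩ := h.two (fun u v => by rw [ha u, ha v]) h1 h2
        exact ⟨p, q, ne, h.crit_adj hk s1, h.crit_adj hk s2⟩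
    refine ⟨_, _, thmA hc fun x hx => ?_, ha⟩
    have k := hval x hx
    obtain ⟨i0⟩ := ‹Nonempty V›
    have p : (0 : ℝ) < G.indepNum := one_div_pos.1 (ha i0 ▸ h.fac.pos i0)
    simp only [ha, ← mul_sum] at k
    rwa [one_div, inv_mul_le_iff₀ p, mul_one] at k
  · push Not at hall
    obtain ⟨v, hv⟩ := hall
    have hC := hco {v} (singleton_nonempty v) fun u hu w hw => by
      rw [mem_singleton.1 hu]
      exact (hv w fun e => hw (mem_singleton.2 e.symm)).symm
    have sub : ∀ x, x = v := fun x => mem_singleton.1 (hC ▸ mem_univ x)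
    have hc : Fintype.card V = 1 := by rw [← card_univ, ← hC, card_singleton]
    refine ⟨1, 1, ⟨⟨Fintype.equivFinOfCardEq hc, fun {x y} => iff_of_false ?_ ?_⟩⟩, ha⟩
    · exact fun k => k.1 (Subsingleton.elim _ _)
    · exact fun k => k.ne ((sub x).trans (sub y).symm)

end Pool.Agent.Lib.MP_2081ef_co.NN
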