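import Pool.Agent.Lib.MP_2081ef_co.NN3

/-! Validity forces small non-neighbourhoods; assembly over the co-components. -/

namespace Pool.Agent.Lib.MP_2081ef_co.NN

open Finset

variable {V : Type} [Fintype V] [DecidableEq V] {G : SimpleGraph V} {a : V → ℝ}

open Classical in
/-- the test functional on pairs -/
noncomputable def yy (G : SimpleGraph V) (i j : V) : ℝ :=
  (if i = j then 1 else 0) + if G.Adj i j then 0 else 1

/-- the test matrix -/
def ZZ (y : V → V → ℝ) (z : ℝ) : Option V → Option V → ℝ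
  | none, none => z
  | none, some _ => 2
  | some _, none => 2
  | some i, some j => y i j

omit [Fintype V] in
lemma yy_self (i : V) : yy G i i = 2 := by simp [yy]; norm_num

omit [Fintype V] in
lemma yy_adj {i j : V} (h : G.Adj i j) : yy G i j = 0 := by simp [yy, h, h.ne]

omit [Fintype V] in
lemma yy_nadj {i j : V} (h : ¬ G.Adj i j) (e : i ≠ j) : yy G i j = 1 := by simp [yy, h, e]

omit [Fintype V] in
lemma yy_cases (i j : V) : (i = j ∧ yy G i j = 2) ∨ (G.Adj i j ∧ yy G i j = 0) ∨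
    (i ≠ j ∧ ¬ G.Adj i j ∧ yy G i j = 1) := by
  by_cases e : i = j
  · exact Or.inl ⟨e, e ▸ yy_self i⟩
  by_cases h : G.Adj i j
  · exact Or.inr (Or.inl ⟨h, yy_adj h⟩)
  · exact Or.inr (Or.inr ⟨e, h, yy_nadj h e⟩)

omit [Fintype V] in
lemma yy_symm (i j : V) : yy G i j = yy G j i := by
  rcases yy_cases (G := G) i j with ⟨rfl, -⟩ | ⟨h, e⟩ | ⟨h, k, e⟩
  · rfl
  · rw [e, yy_adj h.symm]
  · rw [e, yy_nadj (fun x => k x.symm) h.symm]

lemma sum_yy (i : V) : ∑ j, yy G i j * a j = a i + ∑ j ∈ nn G i, a j := by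
  classical
  simp only [yy, add_mul, sum_add_distrib, sum_eq_ite (nn G i) a, mem_nn]
  congr 1
  · simp
  · exact sum_congr rfl fun j _ => by split_ifs <;> simp_all

lemma aux (hF : IsFacet G a) (i0 : V) (hval : ∀ x ∈ LSplus (ESTAB G), ∑ v, a v * x v ≤ 1)
    {m : ℝ} (h4 : 4 ≤ m) (hm : m < 2 * ∑ v, a v) (y : V → V → ℝ) (ys : ∀ i j, y i j = y j i)
    (yd : ∀ i, y i i = 2) (y0 : ∀ i j, 0 ≤ y i j) (y2 : ∀ i j, y i j ≤ 2)
    (h3 : ∀ i u w, G.Adj u w → (∀ S, Root G a S → i ∈ S → u ∈ S ∨ w ∈ S) → y i u + y i w ≤ 2)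
    (hC : ∀ i u w, G.Adj u w → (∀ S, Root G a S → i ∈ S ∨ u ∈ S ∨ w ∈ S) →
      6 ≤ m + y i u + y i w) : ∑ i, a i * (∑ j, y i j * a j - 2) ≤ 0 := by
  by_contra hn
  set E := ∑ i, a i * (∑ j, y i j * a j - 2) with hE
  have E0 : 0 < E := not_le.1 hn
  obtain ⟨z, z1, z2, z3⟩ : ∃ z : ℝ, m ≤ z ∧ z < 2 * ∑ v, a v ∧ 2 * ∑ v, a v - E < z :=
    ⟨max m (2 * ∑ v, a v - E / 2), le_max_left _ _, max_lt hm (by linarith),
      lt_max_of_lt_right (by linarith)⟩
  obtain ⟨x, hx, hlt⟩ := perturb G (rts G a) (fun S hS => (mem_rts.1 hS).1)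
    (by obtain ⟨S, hS, -⟩ := exists_root hF i0; exact ⟨S, mem_rts.2 hS⟩) (sOf a)
    (fun S hS => by rw [fval_eq, fval_sOf, (mem_rts.1 hS).2, sub_self])
    (fun c hc => ⟨c none, by
      have := hF.ker (fun v => c (some v) + c none * a v) fun S h1 h2 => by
        have := hc S (mem_rts.2 ⟨h1, h2⟩)
        rw [fval_eq, fval] at this
        rw [sum_add_distrib, ← mul_sum, h2]
        linarith
      funext p
      cases p with
      | none => simp [sOf]
      | some v =>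
        have := this v
        simp only [sOf, Pi.smul_apply, Option.elim, smul_eq_mul]
        linarith⟩)
    (ZZ y z) (fun p q => by
      cases p <;> cases q
      exacts [rfl, rfl, rfl, ys _ _])
    (fun i => (yd i).symm) (fun i j _ => y0 i j)
    (fun i j _ => (y2 i j).trans (yd i).ge)
    (fun i u w hA ht => (h3 i u w hA fun S hS => ht S (mem_rts.2 hS)).trans (yd i).ge)
    (fun i j _ => by
      change 0 ≤ z - y i i - y j j + y i j
      linarith [yd i, yd j, y0 i j])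
    (fun i u w hA ht => by
      change 0 ≤ z - y i i - y u u - y w w + y i u + y i w
      linarith [yd i, yd u, yd w, hC i u w hA fun S hS => ht S (mem_rts.2 hS)])
    (by
      simp only [Fintype.sum_option, ZZ, sOf, Option.elim, mul_neg, sum_neg_distrib, ← mul_sum]
      linarith)
    (by
      have e1 : ∑ i, ∑ j, a i * y i j * a j = E + 2 * ∑ v, a v := by
        rw [hE, mul_sum, ← sum_add_distrib]
        refine sum_congr rfl fun i _ => ?_
        simp only [mul_assoc, ← mul_sum]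
        ring
      simp only [Fintype.sum_option, ZZ, sOf, Option.elim, mul_neg, neg_mul, one_mul,
        mul_one, sum_neg_distrib, sum_add_distrib, ← mul_sum, ← sum_mul, e1]
      linarith)
  have := hval x hx
  simp only [sOf, Option.elim, neg_mul, sum_neg_distrib] at hlt
  linarith

lemma tight_aux (hF : IsFacet G a) (hs : ∀ u v, u ≠ v → ∃ S, Root G a S ∧ v ∈ S ∧ u ∉ S)
    (hval : ∀ x ∈ LSplus (ESTAB G), ∑ v, a v * x v ≤ 1) {m : ℝ} (h4 : 4 ≤ m)
    (hm : m < 2 * ∑ v, a v)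
    (hC : ∀ i u w, G.Adj u w → (∀ S, Root G a S → i ∈ S ∨ u ∈ S ∨ w ∈ S) →
      6 ≤ m + yy G i u + yy G i w) (i : V) : a i + ∑ j ∈ nn G i, a j ≤ 2 := by
  by_contra hn
  have e0 : ∀ i, 0 ≤ a i + ∑ j ∈ nn G i, a j - 2 := fun i => by
    linarith [hw_star_le hF hs i, two_le_hw hF (X := star G a i) (fun T hT => (mem_star.1 hT).1)
      (star_nonempty hF i)]
  have E0 : 0 < ∑ i, a i * (a i + ∑ j ∈ nn G i, a j - 2) :=
    sum_pos' (fun i _ => mul_nonneg (hF.pos i).le (e0 i))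
      ⟨i, mem_univ _, mul_pos (hF.pos i) (by linarith)⟩
  have k := aux hF i hval h4 hm (yy G) yy_symm yy_self
    (fun i j => by
      rcases yy_cases (G := G) i j with ⟨-, e⟩ | ⟨-, e⟩ | ⟨-, -, e⟩ <;> linarith)
    (fun i j => by
      rcases yy_cases (G := G) i j with ⟨-, e⟩ | ⟨-, e⟩ | ⟨-, -, e⟩ <;> linarith)
    (fun i u w hA _ => by
      by_cases p : i = u
      · rw [p, yy_self, yy_adj hA]; norm_num
      by_cases q : i = w
      · rw [q, yy_self, yy_adj hA.symm]; norm_num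
      rcases yy_cases (G := G) i u with ⟨k, -⟩ | ⟨-, e⟩ | ⟨-, -, e⟩ <;>
        rcases yy_cases (G := G) i w with ⟨k', -⟩ | ⟨-, e'⟩ | ⟨-, -, e'⟩ <;>
        first | contradiction | linarith) hC
  simp only [sum_yy] at k
  linarith

/-- the test functional that sees nested root sets -/
noncomputable def yn (G : SimpleGraph V) (a : V → ℝ) (i j : V) : ℝ :=
  incid (cup (star G a i)) j + incid (cap (star G a i)) j +
    if i = j then 0 else incid (cap (star G a j)) i

lemma mem_cup_star {i j : V} : j ∈ cup (star G a i) ↔ ∃ S, Root G a S ∧ i ∈ S ∧ j ∈ S := by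
  simp only [mem_cup, mem_star, and_assoc]

lemma mem_cap_star {i j : V} : j ∈ cap (star G a i) ↔ ∀ S, Root G a S → i ∈ S → j ∈ S := by
  simp only [mem_cap, mem_star, and_imp]

lemma ite3 (A B C : Prop) [Decidable A] [Decidable B] [Decidable C] (h : B → ¬ C) :
    (if A then (1 : ℝ) else 0) + (if B then 1 else 0) + (if C then 1 else 0) ≤ 2 := by
  split_ifs <;> first | (norm_num; done) | (exfalso; tauto)

lemma ite4 (A B C D : Prop) [Decidable A] [Decidable B] [Decidable C] [Decidable D]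
    (c1 : B → A) (c2 : D → C) (x1 : B → ¬ C) (x2 : D → ¬ A) :
    (if A then (1 : ℝ) else 0) + (if B then 1 else 0) + 0 +
      ((if C then 1 else 0) + (if D then 1 else 0) + 0) ≤ 2 := by
  split_ifs <;> first | (norm_num; done) | (exfalso; tauto)

lemma sep_aux (hF : IsFacet G a) (hval : ∀ x ∈ LSplus (ESTAB G), ∑ v, a v * x v ≤ 1)
    (hN : ∀ i v w, G.Adj v w → i ≠ v → (∃ S, Root G a S ∧ i ∈ S ∧ v ∉ S ∧ w ∉ S) ∨
      ∃ S, Root G a S ∧ v ∈ S ∧ i ∉ S)
    {m : ℝ} (h4 : 4 ≤ m) (hm : m < 2 * ∑ v, a v)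
    (hC : ∀ i u w, G.Adj u w → i ≠ u → i ≠ w → (∀ S, Root G a S → i ∈ S ∨ u ∈ S ∨ w ∈ S) →
      6 ≤ m + incid (cup (star G a i)) u + incid (cup (star G a i)) w) (u v : V) (ne : u ≠ v) :
    ∃ S, Root G a S ∧ v ∈ S ∧ u ∉ S := by
  have cs : ∀ i j, j ∈ cup (star G a i) → i ∈ cup (star G a j) := fun i j h => by
    obtain ⟨S, r, s1, s2⟩ := mem_cup_star.1 h
    exact mem_cup_star.2 ⟨S, r, s2, s1⟩
  have cc : ∀ i j, j ∈ cap (star G a i) → j ∈ cup (star G a i) := fun i j h => by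
    obtain ⟨S, r, s1⟩ := exists_root hF i
    exact mem_cup_star.2 ⟨S, r, s1, mem_cap_star.1 h S r s1⟩
  have ci : ∀ i, i ∈ cap (star G a i) := fun i => mem_cap_star.2 fun _ _ h => h
  have two : ∀ i j, i ≠ j → j ∈ cap (star G a i) → i ∉ cap (star G a j) := fun i j ne h1 h2 => by
    have := hF.ker (fun x => (if x = i then 1 else 0) - if x = j then 1 else 0) (fun S s1 s2 => by
      have k1 := mem_cap_star.1 h1 S ⟨s1, s2⟩
      have k2 := mem_cap_star.1 h2 S ⟨s1, s2⟩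
      simp only [sum_sub_distrib, sum_ite_eq']
      by_cases b1 : i ∈ S <;> by_cases b2 : j ∈ S <;> simp_all) i
    simp [ne] at this
  have i0 : ∀ (S : Finset V) j, 0 ≤ incid S j := fun S j => by
    unfold incid; split_ifs <;> norm_num
  have yd : ∀ i, yn G a i i = 2 := fun i => by
    simp [yn, incid, ci i, cc i i (ci i)]; norm_num
  have ge : ∀ i j, incid (cup (star G a i)) j ≤ yn G a i j := fun i j => by
    unfold yn
    have := i0 (cap (star G a i)) j
    have := i0 (cap (star G a j)) i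
    split_ifs <;> linarith
  have yadj : ∀ i j, G.Adj i j → yn G a i j = 0 := fun i j h => by
    have n1 : j ∉ cup (star G a i) := fun k => mem_nn.1 (cup_star_sub i k) h
    have n2 : j ∉ cap (star G a i) := fun k => n1 (cc _ _ k)
    have n3 : i ∉ cap (star G a j) := fun k => n1 (cs _ _ (cc _ _ k))
    simp [yn, incid, n1, n2, n3]
  have k := aux hF u hval h4 hm (yn G a)
    (fun i j => by
      by_cases e : i = j
      · rw [e]
      have e' : j ≠ i := fun k => e k.symm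
      have : j ∈ cup (star G a i) ↔ i ∈ cup (star G a j) := ⟨cs i j, cs j i⟩
      simp only [yn, incid, if_neg e, if_neg e', this]
      ring)
    yd (fun i j => (i0 _ _).trans (ge i j))
    (fun i j => by
      by_cases e : i = j
      · rw [e, yd]
      simp only [yn, incid, if_neg e]
      exact ite3 _ _ _ (two i j e))
    (fun i p q hA ht => by
      by_cases e1 : i = p
      · rw [e1, yd, yadj p q hA]; norm_num
      by_cases e2 : i = q
      · rw [e2, yd, yadj q p hA.symm]; norm_num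
      have n : ∀ p q, G.Adj p q → i ≠ p → (∀ S, Root G a S → i ∈ S → p ∈ S ∨ q ∈ S) →
          i ∉ cap (star G a p) := fun p q hA e ht k => by
        rcases hN i p q hA e with ⟨S, r, s1, s2, s3⟩ | ⟨S, r, s1, s2⟩
        · have := ht S r s1
          tauto
        · exact s2 (mem_cap_star.1 k S r s1)
      have n1 := n p q hA e1 ht
      have n2 := n q p hA.symm e2 fun S r s => (ht S r s).symm
      have x : ∀ p q, G.Adj p q → p ∈ cap (star G a i) → q ∉ cup (star G a i) :=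
        fun p q hA h1 h2 => by
          obtain ⟨S, r, s1, s2⟩ := mem_cup_star.1 h2
          exact r.nadj (mem_cap_star.1 h1 S r s1) s2 hA
      simp only [yn, incid, if_neg e1, if_neg e2, if_neg n1, if_neg n2]
      exact ite4 _ _ _ _ (cc i p) (cc i q) (x p q hA) (x q p hA.symm))
    (fun i p q hA ht => by
      have g1 := (i0 _ _).trans (ge i p)
      have g2 := (i0 _ _).trans (ge i q)
      by_cases e1 : i = p
      · rw [e1] at g2 ⊢
        linarith [yd p]
      by_cases e2 : i = q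
      · rw [e2] at g1 ⊢
        linarith [yd q]
      linarith [hC i p q hA e1 e2 ht, ge i p, ge i q])
  have e : ∀ i, ∑ j, yn G a i j * a j =
      hw a (star G a i) + ∑ j, (if i = j then 0 else incid (cap (star G a j)) i) * a j := fun i => by
    simp only [yn, hw, add_mul, sum_add_distrib, sum_eq_ite _ a, incid, ite_mul, one_mul, zero_mul]
  have d0 : ∀ i j, 0 ≤ (if i = j then 0 else incid (cap (star G a j)) i) * a j := fun i j => by
    refine mul_nonneg ?_ (hF.pos j).le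
    split_ifs
    exacts [le_rfl, i0 _ _]
  have h2 : ∀ i, 2 ≤ hw a (star G a i) := fun i =>
    two_le_hw hF (fun T hT => (mem_star.1 hT).1) (star_nonempty hF i)
  by_contra hn
  have hu : u ∈ cap (star G a v) := mem_cap_star.2 fun S r s => by
    by_contra k
    exact hn ⟨S, r, s, k⟩
  refine absurd k (not_le.2 (sum_pos' (fun i _ => mul_nonneg (hF.pos i).le ?_)
    ⟨u, mem_univ _, mul_pos (hF.pos u) ?_⟩))
  · linarith [e i, h2 i, sum_nonneg (s := univ) fun j _ => d0 i j]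
  · have := single_le_sum (s := univ) (fun j _ => d0 u j) (mem_univ v)
    rw [if_neg ne, incid, if_pos hu, one_mul] at this
    linarith [e u, h2 u, hF.pos v]

theorem sep_of_valid (hF : IsFacet G a) (hval : ∀ x ∈ LSplus (ESTAB G), ∑ v, a v * x v ≤ 1)
    (hN : ∀ i v w, G.Adj v w → i ≠ v → (∃ S, Root G a S ∧ i ∈ S ∧ v ∉ S ∧ w ∉ S) ∨
      ∃ S, Root G a S ∧ v ∈ S ∧ i ∉ S)
    (hA : 5 / 2 < ∑ v, a v ∨ 2 < ∑ v, a v ∧ ∀ i v w, G.Adj v w → i ≠ v → i ≠ w →
      (∃ S, Root G a S ∧ i ∉ S ∧ v ∉ S ∧ w ∉ S) ∨ ∃ S, Root G a S ∧ v ∈ S ∧ i ∈ S)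
    (u v : V) (ne : u ≠ v) : ∃ S, Root G a S ∧ v ∈ S ∧ u ∉ S := by
  rcases hA with hA | ⟨hA, hP⟩
  · by_cases tri : ∃ p q w, G.Adj q w ∧ p ≠ q ∧ p ≠ w ∧ q ∉ cup (star G a p) ∧
        w ∉ cup (star G a p) ∧ ∀ S, Root G a S → p ∈ S ∨ q ∈ S ∨ w ∈ S
    · obtain ⟨p, q, w, a1, e1, e2, a2, a3, ht⟩ := tri
      have k := hF.ker (fun v => (if v = p then 1 else 0) + (if v = q then 1 else 0)
        + (if v = w then 1 else 0) - a v) fun S s1 s2 => by
          have r : Root G a S := ⟨s1, s2⟩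
          have n1 := fun x y => r.nadj x y a1
          have n2 := fun x y => a2 (mem_cup_star.2 ⟨S, r, x, y⟩)
          have n3 := fun x y => a3 (mem_cup_star.2 ⟨S, r, x, y⟩)
          have := ht S r
          simp only [sum_sub_distrib, sum_add_distrib, s2, sum_ite_eq']
          by_cases b1 : p ∈ S <;> by_cases b2 : q ∈ S <;> by_cases b3 : w ∈ S <;> simp_all
      have k1 := hF.valid {v} (by simp)
      have k2 := k v
      have k3 := hF.pos v
      rw [sum_singleton] at k1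
      refine ⟨{v}, ⟨by simp, ?_⟩, mem_singleton_self _, fun h => ne (mem_singleton.1 h)⟩
      rw [sum_singleton]
      split_ifs at k2 <;> linarith
    · refine sep_aux hF hval hN (m := 5) (by norm_num) (by linarith)
        (fun p q w a1 e1 e2 ht => ?_) u v ne
      unfold incid
      split_ifs with b1 b2 b2
      · norm_num
      · norm_num
      · norm_num
      · exact (tri ⟨p, q, w, a1, e1, e2, b1, b2, ht⟩).elim
  · refine sep_aux hF hval hN (m := 4) le_rfl (by linarith) (fun p q w a1 e1 e2 ht => ?_) u v ne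
    have c : ∀ q w, G.Adj q w → p ≠ q → p ≠ w → (∀ S, Root G a S → p ∈ S ∨ q ∈ S ∨ w ∈ S) →
        q ∈ cup (star G a p) := fun q w a1 e1 e2 ht => by
      rcases hP p q w a1 e1 e2 with ⟨S, r, s1, s2, s3⟩ | ⟨S, r, s1, s2⟩
      · have := ht S r
        tauto
      · exact mem_cup_star.2 ⟨S, r, s2, s1⟩
    have c1 := c q w a1 e1 e2 ht
    have c2 := c w q a1.symm e2 e1 fun S r => by
      have := ht S r
      tauto
    simp only [incid, if_pos c1, if_pos c2]
    norm_num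

lemma tight_small (hF : IsFacet G a) (hs : ∀ u v, u ≠ v → ∃ S, Root G a S ∧ v ∈ S ∧ u ∉ S)
    (hA : ∑ v, a v ≤ 2) (i : V) : a i + ∑ j ∈ nn G i, a j ≤ 2 := by
  by_cases hex : ∃ j, i ≠ j
  · obtain ⟨j, hj⟩ := hex
    obtain ⟨S, r, -, iS⟩ := hs i j hj
    have hI : G.IsIndepSet ((insert i (S ∩ nn G i) : Finset V) : Set V) :=
      indep_of fun x hx y hy k => by
        rcases mem_insert.1 hx with rfl | hx' <;> rcases mem_insert.1 hy with rfl | hy'
        · exact G.irrefl k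
        · exact mem_nn.1 (mem_inter.1 hy').2 k
        · exact mem_nn.1 (mem_inter.1 hx').2 k.symm
        · exact r.nadj (mem_inter.1 hx').1 (mem_inter.1 hy').1 k
    have k1 := hF.valid _ hI
    rw [sum_insert fun k => iS (mem_inter.1 k).1] at k1
    have k2 := sum_union_inter (s₁ := S) (s₂ := nn G i) (f := a)
    have k3 := sum_le_sum_of_subset_of_nonneg (f := a) (subset_univ (S ∪ nn G i))
      fun j _ _ => (hF.pos j).le
    linarith [r.2]
  · push Not at hex
    have k1 := hF.valid {i} (by simp)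
    have k2 := sum_le_sum_of_subset_of_nonneg (f := a)
      (show nn G i ⊆ {i} from fun j _ => mem_singleton.2 (hex j).symm) fun j _ _ => (hF.pos j).le
    rw [sum_singleton] at k1 k2
    linarith

theorem tight_of_valid (hF : IsFacet G a) (hs : ∀ u v, u ≠ v → ∃ S, Root G a S ∧ v ∈ S ∧ u ∉ S)
    (hA : 5 / 2 < ∑ v, a v ∨ ∀ i w u, G.Adj i w → G.Adj w u → i ≠ u →
      ∃ S, Root G a S ∧ i ∉ S ∧ w ∉ S ∧ u ∉ S)
    (hval : ∀ x ∈ LSplus (ESTAB G), ∑ v, a v * x v ≤ 1) (i : V) :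
    a i + ∑ j ∈ nn G i, a j ≤ 2 := by
  by_cases h2 : ∑ v, a v ≤ 2
  · exact tight_small hF hs h2 i
  rcases hA with hA | hA
  · by_cases tri : ∃ p u w, G.Adj u w ∧ G.Adj p u ∧ G.Adj p w ∧
        ∀ S, Root G a S → p ∈ S ∨ u ∈ S ∨ w ∈ S
    · obtain ⟨p, u, w, a1, a2, a3, ht⟩ := tri
      have k := hF.ker (fun v => (if v = p then 1 else 0) + (if v = u then 1 else 0)
        + (if v = w then 1 else 0) - a v) fun S s1 s2 => by
          have r : Root G a S := ⟨s1, s2⟩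
          have n1 := fun x y => r.nadj x y a1
          have n2 := fun x y => r.nadj x y a2
          have n3 := fun x y => r.nadj x y a3
          have := ht S r
          simp only [sum_sub_distrib, sum_add_distrib, s2, sum_ite_eq']
          by_cases b1 : p ∈ S <;> by_cases b2 : u ∈ S <;> by_cases b3 : w ∈ S <;> simp_all
      have mem : ∀ v, v = p ∨ v = u ∨ v = w := fun v => by
        by_contra hn
        push Not at hn
        have := k v
        have := hF.pos v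
        simp_all
      have k2 := sum_le_sum_of_subset_of_nonneg (f := a) (show nn G i ⊆ {i} from fun j hj => by
        have n := mem_nn.1 hj
        have b1 := a1.symm
        have b2 := a2.symm
        have b3 := a3.symm
        rcases mem i with rfl | rfl | rfl <;> rcases mem j with rfl | rfl | rfl <;>
          first | exact mem_singleton_self _ | contradiction) fun j _ _ => (hF.pos j).le
      have k1 := hF.valid {i} (by simp)
      rw [sum_singleton] at k1 k2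
      linarith
    · refine tight_aux hF hs hval (m := 5) (by norm_num) (by linarith) (fun p u w a1 ht => ?_) i
      rcases yy_cases (G := G) p u with ⟨-, e⟩ | ⟨k, e⟩ | ⟨-, -, e⟩ <;>
        rcases yy_cases (G := G) p w with ⟨-, e'⟩ | ⟨k', e'⟩ | ⟨-, -, e'⟩ <;>
        first | linarith | exact (tri ⟨p, u, w, a1, k, k', ht⟩).elim
  · refine tight_aux hF hs hval (m := 4) le_rfl (by linarith) (fun p u w a1 ht => ?_) i
    have no : ∀ u w, G.Adj u w → G.Adj p u → p ≠ w →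
        ¬ ∀ S, Root G a S → p ∈ S ∨ u ∈ S ∨ w ∈ S := fun u w a1 k ne ht => by
      obtain ⟨S, r, s1, s2, s3⟩ := hA p u w k a1 ne
      have := ht S r
      tauto
    have ht' : ∀ S, Root G a S → p ∈ S ∨ w ∈ S ∨ u ∈ S := fun S r => by
      have := ht S r
      tauto
    rcases yy_cases (G := G) p u with ⟨-, e⟩ | ⟨k, e⟩ | ⟨k, -, e⟩ <;>
      rcases yy_cases (G := G) p w with ⟨-, e'⟩ | ⟨k', e'⟩ | ⟨k', -, e'⟩ <;>
      first
        | linarith
        | exact (no u w a1 k k'.ne ht).elim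
        | exact (no u w a1 k k' ht).elim
        | exact (no w u a1.symm k' k ht').elim

omit [Fintype V] in
lemma root_sub {C S : Finset V} (hS : S ⊆ C) (h1 : G.IsIndepSet (S : Set V))
    (h2 : ∑ v ∈ S, a v = 1) : ∃ T : Finset (C : Set V),
      Root (G.induce (C : Set V)) (fun v => a v) T ∧ ∀ x, x ∈ T ↔ x.1 ∈ S := by
  refine ⟨S.subtype _, ⟨indep_of fun u hu v hv k => ?_, ?_⟩, fun x => mem_subtype⟩
  · exact h1 (mem_coe.2 (mem_subtype.1 hu)) (mem_coe.2 (mem_subtype.1 hv))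
      (fun e => k.ne (Subtype.ext e)) k
  · rw [← h2]
    exact sum_subtype_of_mem a fun x hx => mem_coe.2 (hS hx)

omit [Fintype V] in
open Classical in
lemma sum_nn (C : Finset V) (i : (C : Set V)) :
    ∑ j ∈ nn (G.induce (C : Set V)) i, a j = ∑ j ∈ C, if G.Adj i j then 0 else a j := by
  rw [sum_eq_ite, ← sum_coe_sort C]
  refine sum_congr rfl fun j _ => ?_
  simp only [mem_nn]
  by_cases k : G.Adj i j
  · rw [if_pos k, if_neg fun n => n k]
  · rw [if_neg k]
    exact if_pos k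

lemma valid_sub {B C : Finset V} (hC : C ⊆ B)
    (hval : ∀ x ∈ LSplus (ESTAB G), ∑ v ∈ B, a v * x v ≤ 1) :
    ∀ x ∈ LSplus (ESTAB (G.induce (C : Set V))), ∑ v : (C : Set V), a v * x v ≤ 1 := by
  intro x hx
  obtain ⟨y, hy, h1, h2⟩ := lsplus_ext (SimpleGraph.Embedding.induce (G := G) (C : Set V)) hx
  refine le_trans (le_of_eq ?_) (hval y hy)
  rw [← sum_subset hC fun v _ hv => by rw [h2 v fun b e => hv (e ▸ b.2), mul_zero],
    ← sum_coe_sort C fun v => a v * y v]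
  exact sum_congr rfl fun v _ => by rw [← h1 v]; rfl

theorem nonnested {B : Finset V} (hF : FacetOn G B a)
    (hs : ∀ u ∈ B, ∀ v ∈ B, u ≠ v →
      ∃ S ⊆ B, G.IsIndepSet (S : Set V) ∧ ∑ x ∈ S, a x = 1 ∧ v ∈ S ∧ u ∉ S)
    (hA : 5 / 2 < ∑ v ∈ B, a v ∨ ∀ i ∈ B, ∀ w ∈ B, ∀ u ∈ B, G.Adj i w → G.Adj w u → i ≠ u →
      ∃ S ⊆ B, G.IsIndepSet (S : Set V) ∧ ∑ x ∈ S, a x = 1 ∧ i ∉ S ∧ w ∉ S ∧ u ∉ S)
    (hval : ∀ x ∈ LSplus (ESTAB G), ∑ v ∈ B, a v * x v ≤ 1) :
    ∃ J : JoinedAntiweb G, ∀ x, J.lhs x = ∑ v ∈ B, a v * x v := by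
  classical
  have sep : ∀ C ⊆ B, (∀ S ⊆ B, G.IsIndepSet (S : Set V) → ∀ v ∈ S, v ∈ C → S ⊆ C) →
      ∀ u v : (C : Set V), u ≠ v →
        ∃ T, Root (G.induce (C : Set V)) (fun v => a v) T ∧ v ∈ T ∧ u ∉ T := by
    intro C hC hcl u v ne
    obtain ⟨S, s0, s1, s2, s3, s4⟩ := hs u (hC u.2) v (hC v.2) fun e => ne (Subtype.ext e)
    obtain ⟨T, r, m⟩ := root_sub (hcl S s0 s1 v s3 v.2) s1 s2
    exact ⟨T, r, (m v).2 s3, fun k => s4 ((m u).1 k)⟩
  have tB := tight_of_valid hF.isFacet (sep B (Subset.refl _) fun S h _ _ _ _ => h) (by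
    rcases hA with hA | hA
    · left
      rwa [← sum_coe_sort B] at hA
    · right
      intro i w u a1 a2 ne
      obtain ⟨S, s0, s1, s2, s3, s4, s5⟩ := hA i i.2 w w.2 u u.2 a1 a2 fun e => ne (Subtype.ext e)
      obtain ⟨T, r, m⟩ := root_sub s0 s1 s2
      exact ⟨T, r, fun k => s3 ((m i).1 k), fun k => s4 ((m w).1 k), fun k => s5 ((m u).1 k)⟩)
    (valid_sub (Subset.refl _) hval)
  refine FacetOn.joined fun v hv => ?_
  have hsub : coC G B v ⊆ B := fun w hw => (mem_coC.1 hw).1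
  have : Nonempty (coC G B v : Set V) := ⟨⟨v, mem_coC.2 ⟨hv, SimpleGraph.Reachable.refl _⟩⟩⟩
  refine Setup.core ⟨(hF.comp v).isFacet, sep _ hsub fun S hSB hS s hs hs' t ht => ?_, fun i => ?_⟩
    (coConn_comp B v) (valid_sub hsub hval)
  · exact mem_coC.2 ⟨hSB ht, (mem_coC.1 hs').2.trans
      (coC_reach (hSB hs) (hSB ht) fun k => hS (mem_coe.2 hs) (mem_coe.2 ht) k.ne k)⟩
  · have k := tB ⟨i.1, hsub i.2⟩
    rw [sum_nn] at k ⊢
    refine le_trans (add_le_add le_rfl (sum_le_sum_of_subset_of_nonneg hsub fun j hj _ => ?_)) k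
    split_ifs
    exacts [le_rfl, (hF.pos j hj).le]

omit [Fintype V] [DecidableEq V] in
lemma root_up {B : Finset V} {T : Finset (B : Set V)}
    (h : Root (G.induce (B : Set V)) (fun v => a v) T) :
    ∃ S ⊆ B, G.IsIndepSet (S : Set V) ∧ ∑ x ∈ S, a x = 1 ∧ ∀ x : (B : Set V), x.1 ∈ S ↔ x ∈ T := by
  refine ⟨T.map (Function.Embedding.subtype _), fun v hv => ?_, (indep_map B T).1 h.1, ?_,
    fun x => mem_map' (Function.Embedding.subtype _)⟩
  · obtain ⟨b, -, rfl⟩ := mem_map.1 hv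
    exact b.2
  · rw [sum_map]
    exact h.2

theorem gatefree {B : Finset V} (hF : FacetOn G B a)
    (hN : ∀ i ∈ B, ∀ v ∈ B, ∀ w ∈ B, G.Adj v w → i ≠ v →
      (∃ S ⊆ B, G.IsIndepSet (S : Set V) ∧ ∑ x ∈ S, a x = 1 ∧ i ∈ S ∧ v ∉ S ∧ w ∉ S) ∨
      ∃ S ⊆ B, G.IsIndepSet (S : Set V) ∧ ∑ x ∈ S, a x = 1 ∧ v ∈ S ∧ i ∉ S)
    (hA : 5 / 2 < ∑ v ∈ B, a v ∨ 2 < ∑ v ∈ B, a v ∧
      ∀ i ∈ B, ∀ v ∈ B, ∀ w ∈ B, G.Adj v w → i ≠ v → i ≠ w →
        (∃ S ⊆ B, G.IsIndepSet (S : Set V) ∧ ∑ x ∈ S, a x = 1 ∧ i ∉ S ∧ v ∉ S ∧ w ∉ S) ∨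
        ∃ S ⊆ B, G.IsIndepSet (S : Set V) ∧ ∑ x ∈ S, a x = 1 ∧ v ∈ S ∧ i ∈ S)
    (hval : ∀ x ∈ LSplus (ESTAB G), ∑ v ∈ B, a v * x v ≤ 1) :
    ∃ J : JoinedAntiweb G, ∀ x, J.lhs x = ∑ v ∈ B, a v * x v := by
  have sep := sep_of_valid hF.isFacet (valid_sub (Subset.refl _) hval)
    (fun i v w a1 ne => by
      rcases hN i i.2 v v.2 w w.2 a1 fun e => ne (Subtype.ext e) with
        ⟨S, s0, s1, s2, s3, s4, s5⟩ | ⟨S, s0, s1, s2, s3, s4⟩ <;>
        obtain ⟨T, r, m⟩ := root_sub s0 s1 s2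
      · exact Or.inl ⟨T, r, (m i).2 s3, fun k => s4 ((m v).1 k), fun k => s5 ((m w).1 k)⟩
      · exact Or.inr ⟨T, r, (m v).2 s3, fun k => s4 ((m i).1 k)⟩)
    (by
      rcases hA with hA | ⟨hA, hP⟩
      · left
        rwa [← sum_coe_sort B] at hA
      · refine Or.inr ⟨by rwa [← sum_coe_sort B] at hA, fun i v w a1 n1 n2 => ?_⟩
        rcases hP i i.2 v v.2 w w.2 a1 (fun e => n1 (Subtype.ext e)) fun e => n2 (Subtype.ext e)
          with ⟨S, s0, s1, s2, s3, s4, s5⟩ | ⟨S, s0, s1, s2, s3, s4⟩ <;>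
          obtain ⟨T, r, m⟩ := root_sub s0 s1 s2
        · exact Or.inl ⟨T, r, fun k => s3 ((m i).1 k), fun k => s4 ((m v).1 k),
            fun k => s5 ((m w).1 k)⟩
        · exact Or.inr ⟨T, r, (m v).2 s3, (m i).2 s4⟩)
  refine nonnested hF (fun u hu v hv ne => ?_) (hA.imp id fun hP i hi w hw u hu a1 a2 ne => ?_) hval
  · obtain ⟨T, r, t1, t2⟩ := sep ⟨u, hu⟩ ⟨v, hv⟩ fun e => ne (congrArg Subtype.val e)
    obtain ⟨S, s0, s1, s2, m⟩ := root_up r
    exact ⟨S, s0, s1, s2, (m ⟨v, hv⟩).2 t1, fun k => t2 ((m ⟨u, hu⟩).1 k)⟩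
  · rcases hP.2 i hi w hw u hu a2 a1.ne ne with h | ⟨S, -, s1, -, s3, s4⟩
    · exact h
    · exact (s1 (mem_coe.2 s4) (mem_coe.2 s3) a1.ne a1).elim

end Pool.Agent.Lib.MP_2081ef_co.NN
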