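import Pool.Agent.Lib.MP_2081ef_co.Defs

/-! Facets built by a chain of gate free extensions. -/

namespace Pool.Agent.Lib.MP_2081ef_co.Lifted

variable {V : Type}

/-- a root of the inequality `a · x ≤ 1` on `G[B]`: a stable set inside `B` of weight one -/
def Root (G : SimpleGraph V) (B : Finset V) (a : V → ℝ) (S : Finset V) : Prop :=
  S ⊆ B ∧ G.IsIndepSet (S : Set V) ∧ ∑ v ∈ S, a v = 1

/-- `a · x ≤ 1` defines a facet of `STAB(G[B])` with full support `B` -/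
def Facet (G : SimpleGraph V) (B : Finset V) (a : V → ℝ) : Prop :=
  (∀ v ∈ B, 0 < a v) ∧ (∀ S ⊆ B, G.IsIndepSet (S : Set V) → ∑ v ∈ S, a v ≤ 1) ∧
    ∀ c : V → ℝ, (∀ S, Root G B a S → ∑ v ∈ S, c v = 0) → ∀ v ∈ B, c v = 0

/-- weight above `5/2`, or weight above `2` and no covering triple -/
def Heavy (G : SimpleGraph V) (B : Finset V) (a : V → ℝ) : Prop :=
  5 / 2 < ∑ v ∈ B, a v ∨ (2 < ∑ v ∈ B, a v ∧
    ∀ i ∈ B, ∀ v ∈ B, ∀ w ∈ B, G.Adj v w → i ≠ v → i ≠ w →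
      (∃ S, Root G B a S ∧ i ∉ S ∧ v ∉ S ∧ w ∉ S) ∨ ∃ S, Root G B a S ∧ v ∈ S ∧ i ∈ S)

/-- vertex sets reached from a seed (a set whose roots cover it and separate its points) by
extensions to heavy facets in which no two new vertices form a gate; adding one vertex (sequential
lifting) carries no gate condition -/
inductive Tame (G : SimpleGraph V) (a : V → ℝ) : Finset V → Prop
  | seed (C : Finset V) : (∀ v ∈ C, ∃ S, Root G C a S ∧ v ∈ S) →
      (∀ u ∈ C, ∀ v ∈ C, u ≠ v → ∃ S, Root G C a S ∧ v ∈ S ∧ u ∉ S) → Tame G a C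
  | step (C B : Finset V) : Tame G a C → C ⊆ B → Facet G B a → Heavy G B a →
      (∀ i ∈ B, ∀ v ∈ B, ∀ w ∈ B, i ∉ C → v ∉ C → G.Adj v w → i ≠ v →
        (∃ S, Root G B a S ∧ i ∈ S ∧ v ∉ S ∧ w ∉ S) ∨ ∃ S, Root G B a S ∧ v ∈ S ∧ i ∉ S) →
      Tame G a B

end Pool.Agent.Lib.MP_2081ef_co.Lifted
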