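import Pool.Agent.Lib.MP_2081ef_co.NN4
import Pool.Agent.Lib.MP_2081ef_co.TameDefs

/-! Induction along a chain of gate free extensions. -/

namespace Pool.Agent.Lib.MP_2081ef_co.Lifted

open Finset

variable {V : Type} [Fintype V] [DecidableEq V] {G : SimpleGraph V} {a : V → ℝ}

omit [Fintype V] [DecidableEq V] in
lemma Facet.on {B : Finset V} (h : Facet G B a) : FacetOn G B a :=
  ⟨h.1, h.2.1, fun c hc => h.2.2 c fun S hS => hc S hS.1 hS.2.1 hS.2.2⟩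

omit [Fintype V] in
lemma Facet.cover {B : Finset V} (h : Facet G B a) {v : V} (hv : v ∈ B) :
    ∃ S, Root G B a S ∧ v ∈ S := by
  by_contra hn
  have := h.2.2 (fun x => if x = v then 1 else 0) (fun S hS => by
    rw [sum_ite_eq', if_neg fun k => hn ⟨S, hS, k⟩]) v hv
  simp at this

lemma sep_step {B : Finset V} (hF : Facet G B a) (hH : Heavy G B a)
    (hN : ∀ i ∈ B, ∀ v ∈ B, ∀ w ∈ B, G.Adj v w → i ≠ v →
      (∃ S, Root G B a S ∧ i ∈ S ∧ v ∉ S ∧ w ∉ S) ∨ ∃ S, Root G B a S ∧ v ∈ S ∧ i ∉ S)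
    (hval : ∀ x ∈ LSplus (ESTAB G), ∑ v ∈ B, a v * x v ≤ 1) :
    ∀ u ∈ B, ∀ v ∈ B, u ≠ v → ∃ S, Root G B a S ∧ v ∈ S ∧ u ∉ S := by
  have sep := NN.sep_of_valid hF.on.isFacet (NN.valid_sub (Subset.refl _) hval)
    (fun i v w a1 ne => by
      rcases hN i i.2 v v.2 w w.2 a1 fun e => ne (Subtype.ext e) with
        ⟨S, ⟨s0, s1, s2⟩, s3, s4, s5⟩ | ⟨S, ⟨s0, s1, s2⟩, s3, s4⟩ <;>
        obtain ⟨T, r, m⟩ := NN.root_sub s0 s1 s2
      · exact Or.inl ⟨T, r, (m i).2 s3, fun k => s4 ((m v).1 k), fun k => s5 ((m w).1 k)⟩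
      · exact Or.inr ⟨T, r, (m v).2 s3, fun k => s4 ((m i).1 k)⟩)
    (by
      rcases hH with hA | ⟨hA, hP⟩
      · left
        rwa [← sum_coe_sort B] at hA
      · refine Or.inr ⟨by rwa [← sum_coe_sort B] at hA, fun i v w a1 n1 n2 => ?_⟩
        rcases hP i i.2 v v.2 w w.2 a1 (fun e => n1 (Subtype.ext e)) fun e => n2 (Subtype.ext e)
          with ⟨S, ⟨s0, s1, s2⟩, s3, s4, s5⟩ | ⟨S, ⟨s0, s1, s2⟩, s3, s4⟩ <;>
          obtain ⟨T, r, m⟩ := NN.root_sub s0 s1 s2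
        · exact Or.inl ⟨T, r, fun k => s3 ((m i).1 k), fun k => s4 ((m v).1 k),
            fun k => s5 ((m w).1 k)⟩
        · exact Or.inr ⟨T, r, (m v).2 s3, (m i).2 s4⟩)
  intro u hu v hv ne
  obtain ⟨T, r, t1, t2⟩ := sep ⟨u, hu⟩ ⟨v, hv⟩ fun e => ne (congrArg Subtype.val e)
  obtain ⟨S, s0, s1, s2, m⟩ := NN.root_up r
  exact ⟨S, ⟨s0, s1, s2⟩, (m ⟨v, hv⟩).2 t1, fun k => t2 ((m ⟨u, hu⟩).1 k)⟩

theorem Tame.sep {B : Finset V} (h : Tame G a B)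
    (hval : ∀ x ∈ LSplus (ESTAB G), ∑ v ∈ B, a v * x v ≤ 1) :
    (∀ v ∈ B, ∃ S, Root G B a S ∧ v ∈ S) ∧
    ∀ u ∈ B, ∀ v ∈ B, u ≠ v → ∃ S, Root G B a S ∧ v ∈ S ∧ u ∉ S := by
  induction h with
  | seed C h1 h2 => exact ⟨h1, h2⟩
  | step C B _ hC hF hH hG ih =>
    obtain ⟨cov, sep⟩ := ih fun x hx => le_trans
      (sum_le_sum_of_subset_of_nonneg hC fun v hv _ => mul_nonneg (hF.1 v hv).le (hx.1 v).1)
      (hval x hx)
    have up : ∀ S, Root G C a S → Root G B a S := fun S r => ⟨r.1.trans hC, r.2⟩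
    have hN : ∀ i ∈ B, ∀ v ∈ B, ∀ w ∈ B, G.Adj v w → i ≠ v →
        (∃ S, Root G B a S ∧ i ∈ S ∧ v ∉ S ∧ w ∉ S) ∨ ∃ S, Root G B a S ∧ v ∈ S ∧ i ∉ S := by
      intro i hi v hv w hw hA ne
      by_cases b1 : v ∈ C
      · right
        by_cases b2 : i ∈ C
        · obtain ⟨S, r, s⟩ := sep i b2 v b1 ne
          exact ⟨S, up S r, s⟩
        · obtain ⟨S, r, s⟩ := cov v b1
          exact ⟨S, up S r, s, fun k => b2 (r.1 k)⟩
      by_cases b2 : i ∈ C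
      · by_cases e : w = i
        · obtain ⟨S, r, s⟩ := hF.cover hv
          exact Or.inr ⟨S, r, s, fun k => r.2.1 (mem_coe.2 s) (mem_coe.2 k) ne.symm (e ▸ hA)⟩
        left
        by_cases b3 : w ∈ C
        · obtain ⟨S, r, s, t⟩ := sep w b3 i b2 e
          exact ⟨S, up S r, s, fun k => b1 (r.1 k), t⟩
        · obtain ⟨S, r, s⟩ := cov i b2
          exact ⟨S, up S r, s, fun k => b1 (r.1 k), fun k => b3 (r.1 k)⟩
      · exact hG i hi v hv w hw b2 b1 hA ne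
    exact ⟨fun v hv => hF.cover hv, sep_step hF hH hN hval⟩

theorem Tame.joined {B : Finset V} (h : Tame G a B) (hF : Facet G B a) (hH : Heavy G B a)
    (hval : ∀ x ∈ LSplus (ESTAB G), ∑ v ∈ B, a v * x v ≤ 1) :
    ∃ J : JoinedAntiweb G, ∀ x, J.lhs x = ∑ v ∈ B, a v * x v :=
  NN.gatefree hF.on (fun i hi v hv _ _ _ ne => Or.inr (by
      simpa only [Root, and_assoc] using (h.sep hval).2 i hi v hv ne))
    (by simpa only [Heavy, Root, and_assoc] using hH) hval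

end Pool.Agent.Lib.MP_2081ef_co.Lifted
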