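import Pool.Agent.Lib.MP_2081ef_co.Defs

/-! A first order perturbation of the average moment matrix of a family of stable sets. -/

namespace Pool.Agent.Lib.MP_2081ef_co

open Finset Filter Topology

variable {V : Type} [Fintype V] [DecidableEq V]

lemma ev_nonneg (A B : ℝ) (hA : 0 ≤ A) (h : A = 0 → 0 ≤ B) :
    ∀ᶠ ε in 𝓝[>] (0 : ℝ), 0 ≤ A + ε * B := by
  rcases hA.eq_or_lt with h0 | h0
  · have hB := h h0.symm
    filter_upwards [self_mem_nhdsWithin] with ε hε
    have : 0 < ε := hε
    rw [← h0]; positivity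
  · have hc : Continuous fun ε : ℝ => A + ε * B := by fun_prop
    have : ∀ᶠ ε in 𝓝 (0 : ℝ), 0 < A + ε * B :=
      hc.continuousAt.eventually (lt_mem_nhds (by simpa using h0))
    exact (this.filter_mono nhdsWithin_le_nhds).mono fun ε hε => hε.le

lemma ev_pos (A B : ℝ) (hA : 0 < A) :
    ∀ᶠ ε in 𝓝[>] (0 : ℝ), 0 < A + ε * B := by
  have hc : Continuous fun ε : ℝ => A + ε * B := by fun_prop
  have : ∀ᶠ ε in 𝓝 (0 : ℝ), 0 < A + ε * B :=
    hc.continuousAt.eventually (lt_mem_nhds (by simpa using hA))
  exact this.filter_mono nhdsWithin_le_nhds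

lemma ev_sum {ι : Type} (R : Finset ι) (f : ι → ℝ) (B : ℝ) (hf : ∀ S ∈ R, 0 ≤ f S)
    (h : (∀ S ∈ R, f S = 0) → 0 ≤ B) :
    ∀ᶠ ε in 𝓝[>] (0 : ℝ), 0 ≤ ∑ S ∈ R, f S + ε * B :=
  ev_nonneg _ _ (sum_nonneg hf) fun h0 => h ((sum_eq_zero_iff_of_nonneg hf).1 h0)

lemma ev_form {W : Type} [Fintype W] (f g : (W → ℝ) → ℝ) (hf : Continuous f) (hg : Continuous g)
    (f0 : ∀ v, 0 ≤ f v) (fh : ∀ (t : ℝ) v, f (t • v) = t ^ 2 * f v)
    (gh : ∀ (t : ℝ) v, g (t • v) = t ^ 2 * g v) (h : ∀ v, v ≠ 0 → f v = 0 → 0 < g v) :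
    ∀ᶠ ε in 𝓝[>] (0 : ℝ), ∀ v, 0 ≤ f v + ε * g v := by
  have hS : IsCompact (Metric.sphere (0 : W → ℝ) 1) := isCompact_sphere 0 1
  have key : ∀ᶠ ε in 𝓝[>] (0 : ℝ), ∀ v ∈ Metric.sphere (0 : W → ℝ) 1, 0 ≤ f v + ε * g v := by
    set A := Metric.sphere (0 : W → ℝ) 1 ∩ {v | g v ≤ 0} with hA
    have hAc : IsCompact A := hS.inter_right (isClosed_le hg continuous_const)
    by_cases hne : A.Nonempty
    · obtain ⟨a, ha, hmin⟩ := hAc.exists_isMinOn hne hf.continuousOn
      obtain ⟨c, -, hmin'⟩ := hAc.exists_isMinOn hne hg.continuousOn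
      have ha0 : a ≠ 0 := by
        intro h0
        have := ha.1
        rw [h0] at this
        simp at this
      have hfa : 0 < f a := by
        rcases (f0 a).eq_or_lt with h1 | h1
        · have := h a ha0 h1.symm
          have h2 : g a ≤ 0 := ha.2
          linarith
        · exact h1
      filter_upwards [ev_pos (f a) (g c) hfa, self_mem_nhdsWithin] with ε h1 hε v hv
      have hε' : 0 < ε := hε
      by_cases hgv : g v ≤ 0
      · have m1 : f a ≤ f v := hmin ⟨hv, hgv⟩
        have m2 : g c ≤ g v := hmin' ⟨hv, hgv⟩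
        nlinarith
      · push Not at hgv
        have := f0 v
        positivity
    · filter_upwards [self_mem_nhdsWithin] with ε hε v hv
      have hε' : 0 < ε := hε
      have hgv : 0 < g v := by
        by_contra hh
        push Not at hh
        exact hne ⟨v, hv, hh⟩
      have := f0 v
      positivity
  filter_upwards [key] with ε hε v
  by_cases hv : v = 0
  · have e1 := fh 0 0
    have e2 := gh 0 0
    simp at e1 e2
    rw [hv, e1, e2]; simp
  · have hn : 0 < ‖v‖ := norm_pos_iff.2 hv
    set u := ‖v‖⁻¹ • v with hu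
    have hus : u ∈ Metric.sphere (0 : W → ℝ) 1 := by
      simp only [mem_sphere_iff_norm, sub_zero, hu, norm_smul, norm_inv, norm_norm]
      field_simp
    have hvu : v = ‖v‖ • u := by
      rw [hu, smul_smul, mul_inv_cancel₀ hn.ne', one_smul]
    have := hε u hus
    rw [hvu, fh, gh]
    have h2 : 0 ≤ ‖v‖ ^ 2 := by positivity
    nlinarith

lemma mem_cone {G : SimpleGraph V} (z : Option V → ℝ) (h0 : ∀ a, 0 ≤ z (some a))
    (h1 : ∀ a, z (some a) ≤ z none) (h2 : ∀ a b, G.Adj a b → z (some a) + z (some b) ≤ z none) :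
    z ∈ coneOf (ESTAB G) := by
  by_cases hz : z none = 0
  · refine ⟨0, ⟨fun i => by simp, fun i j _ => by simp⟩, fun i => ?_⟩
    have := h0 i
    have := h1 i
    simp only [Pi.zero_apply, mul_zero]
    linarith
  · have hp : ∀ a : V, 0 < z none := fun a =>
      lt_of_le_of_ne ((h0 a).trans (h1 a)) (Ne.symm hz)
    refine ⟨fun i => z (some i) / z none, ⟨fun i => ⟨div_nonneg (h0 i) (hp i).le, ?_⟩,
      fun i j hij => ?_⟩, fun i => ?_⟩
    · exact (div_le_one (hp i)).2 (h1 i)
    · rw [← add_div]; exact (div_le_one (hp i)).2 (h2 i j hij)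
    · field_simp

/-- homogenised incidence vector -/
def chi (S : Finset V) : Option V → ℝ := fun p => p.elim 1 (fun v => if v ∈ S then 1 else 0)

theorem perturb (G : SimpleGraph V) (R : Finset (Finset V)) (hR : ∀ S ∈ R, G.IsIndepSet (S : Set V))
    (hne : R.Nonempty) (s : Option V → ℝ) (hs : ∀ S ∈ R, ∑ p, s p * chi S p = 0)
    (hker : ∀ c : Option V → ℝ, (∀ S ∈ R, ∑ p, c p * chi S p = 0) → ∃ t : ℝ, c = t • s)
    (Z : Option V → Option V → ℝ) (hsym : ∀ p q, Z p q = Z q p)
    (hdiag : ∀ i, Z (some i) none = Z (some i) (some i))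
    (E1 : ∀ i j, (∀ S ∈ R, ¬ (i ∈ S ∧ j ∈ S)) → 0 ≤ Z (some i) (some j))
    (E2 : ∀ i j, (∀ S ∈ R, i ∈ S → j ∈ S) → Z (some i) (some j) ≤ Z (some i) (some i))
    (E3 : ∀ i u w, G.Adj u w → (∀ S ∈ R, i ∈ S → u ∈ S ∨ w ∈ S) →
      Z (some i) (some u) + Z (some i) (some w) ≤ Z (some i) (some i))
    (C1 : ∀ i j, (∀ S ∈ R, i ∈ S ∨ j ∈ S) →
      0 ≤ Z none none - Z (some i) (some i) - Z (some j) (some j) + Z (some i) (some j))
    (C2 : ∀ i u w, G.Adj u w → (∀ S ∈ R, i ∈ S ∨ u ∈ S ∨ w ∈ S) →
      0 ≤ Z none none - Z (some i) (some i) - Z (some u) (some u) - Z (some w) (some w)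
        + Z (some i) (some u) + Z (some i) (some w))
    (hD : ∑ q, Z none q * s q < 0) (hQ : 0 < ∑ p, ∑ q, s p * Z p q * s q) :
    ∃ x ∈ LSplus (ESTAB G), s none + ∑ v, s (some v) * x v < 0 := by
  set Y0 : Option V → Option V → ℝ := fun p q => ∑ S ∈ R, chi S p * chi S q with hY0
  have hform : ∀ v : Option V → ℝ,
      ∑ p, ∑ q, v p * Y0 p q * v q = ∑ S ∈ R, (∑ p, v p * chi S p) ^ 2 := by
    intro v
    simp only [hY0, mul_sum, sum_mul, sq]
    rw [sum_comm (s := R)]
    refine sum_congr rfl fun p _ => ?_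
    rw [sum_comm (s := R)]
    refine sum_congr rfl fun q _ => sum_congr rfl fun S _ => by ring
  have hpsd := ev_form (fun v : Option V → ℝ => ∑ p, ∑ q, v p * Y0 p q * v q)
    (fun v : Option V → ℝ => ∑ p, ∑ q, v p * Z p q * v q) (by fun_prop) (by fun_prop)
    (fun v => by rw [hform]; positivity)
    (fun t v => by
      simp only [Pi.smul_apply, smul_eq_mul, mul_sum]
      exact sum_congr rfl fun p _ => sum_congr rfl fun q _ => by ring)
    (fun t v => by
      simp only [Pi.smul_apply, smul_eq_mul, mul_sum]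
      exact sum_congr rfl fun p _ => sum_congr rfl fun q _ => by ring)
    (fun v hv h0 => by
      rw [hform, sum_eq_zero_iff_of_nonneg (fun S _ => by positivity)] at h0
      obtain ⟨t, ht⟩ := hker v fun S hS => by simpa using h0 S hS
      have ht0 : t ≠ 0 := by
        rintro rfl
        exact hv (by simpa using ht)
      have : ∑ p, ∑ q, v p * Z p q * v q = t ^ 2 * ∑ p, ∑ q, s p * Z p q * s q := by
        simp only [ht, Pi.smul_apply, smul_eq_mul, mul_sum]
        exact sum_congr rfl fun p _ => sum_congr rfl fun q _ => by ring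
      rw [this]
      positivity)
  have nb : ∀ S ∈ R, ∀ u w, G.Adj u w → ¬ (u ∈ S ∧ w ∈ S) := fun S hS u w h hh =>
    hR S hS (mem_coe.2 hh.1) (mem_coe.2 hh.2) h.ne h
  have e1 : ∀ᶠ ε in 𝓝[>] (0 : ℝ), ∀ i j : V,
      0 ≤ ∑ S ∈ R, chi S (some i) * chi S (some j) + ε * Z (some i) (some j) := by
    simp only [eventually_all]
    intro i j
    refine ev_sum R _ _ (fun S _ => ?_) fun h => E1 i j fun S hS hh => ?_
    · simp only [chi, Option.elim]; split_ifs <;> norm_num
    · have := h S hS
      simp [chi, hh.1, hh.2] at this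
  have e2 : ∀ᶠ ε in 𝓝[>] (0 : ℝ), ∀ i j : V,
      0 ≤ ∑ S ∈ R, (chi S (some i) - chi S (some i) * chi S (some j))
        + ε * (Z (some i) (some i) - Z (some i) (some j)) := by
    simp only [eventually_all]
    intro i j
    refine ev_sum R _ _ (fun S _ => ?_) fun h => sub_nonneg.2 (E2 i j fun S hS hh => ?_)
    · simp only [chi, Option.elim]; split_ifs <;> norm_num
    · have := h S hS
      by_contra hj
      simp [chi, hh, hj] at this
  have e3 : ∀ᶠ ε in 𝓝[>] (0 : ℝ), ∀ i u w : V, G.Adj u w →
      0 ≤ ∑ S ∈ R, (chi S (some i) - chi S (some i) * chi S (some u)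
          - chi S (some i) * chi S (some w))
        + ε * (Z (some i) (some i) - Z (some i) (some u) - Z (some i) (some w)) := by
    simp only [eventually_all]
    intro i u w huw
    refine ev_sum R _ _ (fun S hS => ?_) fun h => ?_
    · have := nb S hS u w huw
      simp only [chi, Option.elim]
      split_ifs <;> first | (exfalso; tauto) | norm_num
    · have := E3 i u w huw fun S hS hh => by
        have := h S hS
        by_contra hj
        push Not at hj
        simp [chi, hh, hj.1, hj.2] at this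
      linarith
  have c1 : ∀ᶠ ε in 𝓝[>] (0 : ℝ), ∀ i j : V,
      0 ≤ ∑ S ∈ R, (1 - chi S (some i) - chi S (some j) + chi S (some i) * chi S (some j))
        + ε * (Z none none - Z (some i) (some i) - Z (some j) (some j) + Z (some i) (some j)) := by
    simp only [eventually_all]
    intro i j
    refine ev_sum R _ _ (fun S _ => ?_) fun h => C1 i j fun S hS => ?_
    · simp only [chi, Option.elim]; split_ifs <;> norm_num
    · have := h S hS
      by_contra hj
      push Not at hj
      simp [chi, hj.1, hj.2] at this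
  have c2 : ∀ᶠ ε in 𝓝[>] (0 : ℝ), ∀ i u w : V, G.Adj u w →
      0 ≤ ∑ S ∈ R, (1 - chi S (some i) - chi S (some u) - chi S (some w)
          + chi S (some i) * chi S (some u) + chi S (some i) * chi S (some w))
        + ε * (Z none none - Z (some i) (some i) - Z (some u) (some u) - Z (some w) (some w)
        + Z (some i) (some u) + Z (some i) (some w)) := by
    simp only [eventually_all]
    intro i u w huw
    refine ev_sum R _ _ (fun S hS => ?_) fun h => C2 i u w huw fun S hS => ?_
    · have := nb S hS u w huw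
      simp only [chi, Option.elim]
      split_ifs <;> first | (exfalso; tauto) | norm_num
    · have := h S hS
      by_contra hj
      push Not at hj
      simp [chi, hj.1, hj.2.1, hj.2.2] at this
  have c0 := ev_pos (R.card : ℝ) (Z none none) (by exact_mod_cast hne.card_pos)
  obtain ⟨ε, h1, h2, h3, h4, h5, h6, h7, hε⟩ :=
    (e1.and (e2.and (e3.and (c1.and (c2.and (c0.and (hpsd.and self_mem_nhdsWithin))))))).exists
  have hε' : 0 < ε := hε
  set N : ℝ := R.card + ε * Z none none with hN
  have Y00 : Y0 none none = R.card := by simp [hY0, chi]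
  have Yi0 : ∀ i, Y0 (some i) none = ∑ S ∈ R, chi S (some i) := fun i => by simp [hY0, chi]
  have Yii : ∀ i, Y0 (some i) (some i) = ∑ S ∈ R, chi S (some i) := fun i => by
    simp only [hY0]
    refine sum_congr rfl fun S _ => ?_
    simp only [chi, Option.elim]; split_ifs <;> norm_num
  have Ysym : ∀ p q, Y0 p q = Y0 q p := fun p q => sum_congr rfl fun S _ => mul_comm _ _
  set W : Option V → Option V → ℝ := fun p q => Y0 p q + ε * Z p q with hW
  have Wsym : ∀ p q, W p q = W q p := fun p q => by simp only [hW, Ysym p q, hsym p q]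
  have W00 : W none none = N := by simp only [hW, Y00, hN]
  have Wd : ∀ i, W (some i) none = W (some i) (some i) := fun i => by
    simp only [hW, Yi0, Yii, hdiag]
  have w1 : ∀ i j, 0 ≤ W (some i) (some j) := h1
  have w2 : ∀ i j, W (some i) (some j) ≤ W (some i) (some i) := fun i j => by
    have := h2 i j
    rw [sum_sub_distrib, ← Yii] at this
    simp only [hW]
    simp only [hY0] at this ⊢
    linarith
  have w3 : ∀ i u w, G.Adj u w →
      W (some i) (some u) + W (some i) (some w) ≤ W (some i) (some i) := fun i u w huw => by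
    have := h3 i u w huw
    rw [sum_sub_distrib, sum_sub_distrib, ← Yii] at this
    simp only [hW]
    simp only [hY0] at this ⊢
    linarith
  have w4 : ∀ i j, 0 ≤ N - W (some i) (some i) - W (some j) (some j) + W (some i) (some j) :=
    fun i j => by
    have := h4 i j
    rw [sum_add_distrib, sum_sub_distrib, sum_sub_distrib, ← Yii, ← Yii] at this
    simp only [hW, hN]
    simp only [hY0, sum_const, nsmul_eq_mul, mul_one] at this ⊢
    linarith
  have w5 : ∀ i u w, G.Adj u w → 0 ≤ N - W (some i) (some i) - W (some u) (some u)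
      - W (some w) (some w) + W (some i) (some u) + W (some i) (some w) := fun i u w huw => by
    have := h5 i u w huw
    rw [sum_add_distrib, sum_add_distrib, sum_sub_distrib, sum_sub_distrib, sum_sub_distrib,
      ← Yii, ← Yii, ← Yii] at this
    simp only [hW, hN]
    simp only [hY0, sum_const, nsmul_eq_mul, mul_one] at this ⊢
    linarith
  have hNi : 0 < N⁻¹ := inv_pos.2 h6
  refine ⟨fun i => N⁻¹ * W (some i) none, ⟨fun i => ⟨?_, ?_⟩,
    Matrix.of fun p q => N⁻¹ * W p q, ⟨?_, ?_, ?_, ?_⟩, ?_, fun i => rfl⟩, ?_⟩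
  · simp only []
    rw [Wd]; exact mul_nonneg hNi.le (w1 i i)
  · have := w4 i i
    simp only []
    rw [Wd, inv_mul_le_iff₀ h6]
    linarith
  · rw [Matrix.posSemidef_iff_dotProduct_mulVec]
    refine ⟨?_, fun v => ?_⟩
    · ext p q
      simp [Matrix.conjTranspose_apply, Wsym p q]
    · have := h7 v
      have e : star v ⬝ᵥ (Matrix.of fun p q => N⁻¹ * W p q).mulVec v =
          N⁻¹ * (∑ p, ∑ q, v p * Y0 p q * v q + ε * ∑ p, ∑ q, v p * Z p q * v q) := by
        simp only [dotProduct, Matrix.mulVec, Matrix.of_apply, star_trivial, hW, mul_sum,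
          ← sum_add_distrib]
        exact sum_congr rfl fun p _ => sum_congr rfl fun q _ => by ring
      rw [e]
      exact mul_nonneg hNi.le this
  · intro p
    cases p with
    | none => rfl
    | some i => simp only [Matrix.of_apply, Wd]
  · intro i
    refine mem_cone _ (fun a => ?_) (fun a => ?_) (fun a b hab => ?_) <;>
      simp only [Matrix.of_apply]
    · exact mul_nonneg hNi.le (w1 a i)
    · rw [Wsym none, Wd, Wsym]
      exact mul_le_mul_of_nonneg_left (w2 i a) hNi.le
    · rw [Wsym none, Wd, Wsym (some a), Wsym (some b), ← mul_add]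
      exact mul_le_mul_of_nonneg_left (w3 i a b hab) hNi.le
  · intro i
    refine mem_cone _ (fun a => ?_) (fun a => ?_) (fun a b hab => ?_) <;>
      simp only [Matrix.of_apply, ← mul_sub]
    · rw [Wd]
      exact mul_nonneg hNi.le (sub_nonneg.2 (w2 a i))
    · rw [Wsym none (some i), Wd, Wd, W00, Wsym (some a) (some i)]
      have := w4 i a
      exact mul_le_mul_of_nonneg_left (by linarith) hNi.le
    · rw [Wsym none (some i), Wd, Wd, Wd, W00, Wsym (some a) (some i), Wsym (some b) (some i),
        ← mul_add]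
      have := w5 i a b hab
      exact mul_le_mul_of_nonneg_left (by linarith) hNi.le
  · simp only [Matrix.of_apply, W00]
    exact inv_mul_cancel₀ h6.ne'
  · have a0 : ∑ q, Y0 none q * s q = 0 := by
      simp only [hY0, sum_mul]
      rw [sum_comm]
      refine sum_eq_zero fun S hS => ?_
      rw [← hs S hS]
      refine sum_congr rfl fun q _ => ?_
      simp only [chi, Option.elim]
      ring
    have a1 : ∑ q, W none q * s q < 0 := by
      have : ∑ q, W none q * s q = ∑ q, Y0 none q * s q + ε * ∑ q, Z none q * s q := by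
        simp only [hW, mul_sum, ← sum_add_distrib]
        exact sum_congr rfl fun q _ => by ring
      rw [this, a0]
      nlinarith
    rw [Fintype.sum_option, W00] at a1
    have a2 : s none + ∑ v, s (some v) * (N⁻¹ * W (some v) none) =
        N⁻¹ * (N * s none + ∑ v, W none (some v) * s (some v)) := by
      rw [mul_add, ← mul_assoc, inv_mul_cancel₀ h6.ne', one_mul, mul_sum]
      congr 1
      exact sum_congr rfl fun v _ => by rw [Wsym none]; ring
    rw [a2]
    exact mul_neg_of_pos_of_neg hNi a1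

end Pool.Agent.Lib.MP_2081ef_co
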