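import Pool.Agent.Lib.MP_2081ef_co.Perturb

/-! Swap systems, potentials along a spanning tree, and the basic inequality. -/

namespace Pool.Agent.Lib.MP_2081ef_co

open Finset Filter Topology

variable {V : Type} [Fintype V] [DecidableEq V]

/-- A connected spanning system of swaps between maximum stable sets. -/
structure Swap (G : SimpleGraph V) (k : ℕ) where
  H : SimpleGraph V
  ctx : V → V → Finset V
  adj : ∀ {p q}, H.Adj p q → G.Adj p q
  symm : ∀ p q, ctx p q = ctx q p
  notMem : ∀ {p q}, H.Adj p q → p ∉ ctx p q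
  root : ∀ {p q}, H.Adj p q → G.IsNIndepSet k (insert p (ctx p q))
  conn : H.Connected
  two : ∀ v, ∃ p q, p ≠ q ∧ H.Adj v p ∧ H.Adj v q
  maxi : ∀ S : Finset V, G.IsIndepSet (S : Set V) → S.card ≤ k

lemma exists_parent (H : SimpleGraph V) (hc : H.Connected) (r : V) :
    ∃ (par : V → V) (d : V → ℕ), d r = 0 ∧ ∀ v, v ≠ r → H.Adj (par v) v ∧ d v = d (par v) + 1 := by
  have : ∀ v, ∃ w, v ≠ r → H.Adj w v ∧ H.dist v r = H.dist w r + 1 := by
    intro v
    by_cases hv : v = r
    · exact ⟨v, fun h => (h hv).elim⟩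
    · obtain ⟨p, hp⟩ := hc.exists_walk_length_eq_dist v r
      cases p with
      | nil => exact (hv rfl).elim
      | cons h q =>
        rename_i w
        refine ⟨w, fun _ => ⟨h.symm, ?_⟩⟩
        have h1 := H.dist_le q
        have h2 : H.dist v r ≤ H.dist v w + H.dist w r := hc.dist_triangle
        have h3 : H.dist v w = 1 := SimpleGraph.dist_eq_one_iff_adj.2 h
        simp only [SimpleGraph.Walk.length_cons] at hp
        omega
  choose par hpar using this
  exact ⟨par, fun v => H.dist v r, by simp, hpar⟩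

lemma exists_potential (H : SimpleGraph V) (hc : H.Connected) (r : V) :
    ∃ (T : V → V → Prop) (Φ : (V → V → ℝ) → V → ℝ),
      (∀ p q, T p q → T q p) ∧ (∀ p q, T p q → H.Adj p q) ∧
      (∀ (P : V → Prop) a b, (∀ p q, T p q → P p → P q) → P a → P b) ∧
      (∀ st, Φ st r = 0) ∧
      (∀ st, (∀ p q, st p q = - st q p) → ∀ p q, T p q → Φ st q = Φ st p + st p q) := by
  obtain ⟨par, d, h0, hp⟩ := exists_parent H hc r
  refine ⟨fun p q => (q ≠ r ∧ par q = p) ∨ (p ≠ r ∧ par p = q),
    fun st j => ∑ t ∈ range (d j), st (par^[t + 1] j) (par^[t] j),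
    fun p q h => h.symm, ?_, ?_, fun st => by simp [h0], ?_⟩
  · rintro p q (⟨h1, rfl⟩ | ⟨h1, rfl⟩)
    · exact (hp q h1).1
    · exact (hp p h1).1.symm
  · intro P a b hP ha
    have key : ∀ m v, d v = m → (P v ↔ P r) := by
      intro m
      induction m with
      | zero =>
        intro v hv
        by_cases h : v = r
        · rw [h]
        · have := (hp v h).2
          omega
      | succ m ih =>
        intro v hv
        by_cases h : v = r
        · rw [h]
        · have h2 := (hp v h).2
          rw [← ih (par v) (by omega)]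
          exact ⟨hP _ _ (Or.inr ⟨h, rfl⟩), hP _ _ (Or.inl ⟨h, rfl⟩)⟩
    exact (key _ b rfl).2 ((key _ a rfl).1 ha)
  · intro st hst
    have key : ∀ q, q ≠ r → ∑ t ∈ range (d q), st (par^[t + 1] q) (par^[t] q) =
        ∑ t ∈ range (d (par q)), st (par^[t + 1] (par q)) (par^[t] (par q)) + st (par q) q := by
      intro q hq
      rw [(hp q hq).2, sum_range_succ']
      simp only [Function.iterate_succ_apply, Function.iterate_zero_apply]
    rintro p q (⟨h1, rfl⟩ | ⟨h1, rfl⟩)
    · exact key q h1
    · have := key p h1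
      have h2 := hst p (par p)
      simp only []
      linarith

variable {G : SimpleGraph V} {k : ℕ}

namespace Swap

lemma notMem' (σ : Swap G k) {p q : V} (h : σ.H.Adj p q) : q ∉ σ.ctx p q := by
  rw [σ.symm]; exact σ.notMem h.symm

lemma root' (σ : Swap G k) {p q : V} (h : σ.H.Adj p q) :
    G.IsNIndepSet k (insert q (σ.ctx p q)) := by
  rw [σ.symm]; exact σ.root h.symm

end Swap

lemma not_both {S : Finset V} (hS : G.IsNIndepSet k S) {u w : V} (h : G.Adj u w) (hu : u ∈ S)
    (hw : w ∈ S) : False :=
  hS.isIndepSet (mem_coe.2 hu) (mem_coe.2 hw) h.ne h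

/-- potentials of set functions -/
structure Pot (σ : Swap G k) (r : V) where
  T : V → V → Prop
  Φ : (Finset V → ℝ) → V → ℝ
  symm : ∀ p q, T p q → T q p
  adj : ∀ p q, T p q → σ.H.Adj p q
  clos : ∀ (P : V → Prop) a b, (∀ p q, T p q → P p → P q) → P a → P b
  zero : ∀ f, Φ f r = 0
  step : ∀ f p q, T p q →
    Φ f q = Φ f p + (f (insert q (σ.ctx p q)) - f (insert p (σ.ctx p q)))

lemma exists_pot (σ : Swap G k) (r : V) : Nonempty (Pot σ r) := by
  obtain ⟨T, Φ, h1, h2, h3, h4, h5⟩ := exists_potential σ.H σ.conn r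
  exact ⟨⟨T, fun f => Φ fun p q => f (insert q (σ.ctx p q)) - f (insert p (σ.ctx p q)), h1, h2, h3,
    fun f => h4 _, fun f p q h => h5 _ (fun p q => by rw [σ.symm q p]; ring) p q h⟩⟩

namespace Pot

variable {σ : Swap G k} {r : V} (π : Pot σ r)

lemma uniq (f : Finset V → ℝ) (Ψ : V → ℝ) (h0 : Ψ r = 0)
    (h : ∀ p q, π.T p q →
      Ψ q = Ψ p + (f (insert q (σ.ctx p q)) - f (insert p (σ.ctx p q)))) (j : V) :
    π.Φ f j = Ψ j :=
  π.clos (fun t => π.Φ f t = Ψ t) r j
    (fun p q hpq hp => by rw [π.step f p q hpq, h p q hpq, hp]) (by rw [π.zero, h0])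

lemma lin (f g : Finset V → ℝ) (a c : ℝ) (w : V → ℝ)
    (h : ∀ S, G.IsNIndepSet k S → f S = a * g S + ∑ v ∈ S, w v + c) (j : V) :
    π.Φ f j = a * π.Φ g j + w j - w r := by
  refine π.uniq f (fun t => a * π.Φ g t + w t - w r) (by simp [π.zero]) (fun p q hpq => ?_) j
  have hA := π.adj p q hpq
  rw [h _ (σ.root hA), h _ (σ.root' hA), sum_insert (σ.notMem hA), sum_insert (σ.notMem' hA),
    π.step g p q hpq]
  ring

lemma lin0 (f : Finset V → ℝ) (c : ℝ) (w : V → ℝ)
    (h : ∀ S, G.IsNIndepSet k S → f S = ∑ v ∈ S, w v + c) (j : V) :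
    π.Φ f j = w j - w r := by
  have := π.lin f f 0 c w (fun S hS => by rw [h S hS]; ring) j
  rw [this]; ring

lemma sum_eq (f : V → Finset V → ℝ) (j : V) :
    π.Φ (fun S => ∑ v, f v S) j = ∑ v, π.Φ (f v) j := by
  refine π.uniq _ (fun t => ∑ v, π.Φ (f v) t) (by simp [π.zero]) (fun p q hpq => ?_) j
  simp only [π.step _ p q hpq, sum_add_distrib, sum_sub_distrib]

end Pot

/-- product of two coordinates -/
def xx (i u : V) : Finset V → ℝ := fun S => incid S i * incid S u

lemma xx_nonneg (i u : V) (S : Finset V) : 0 ≤ xx i u S := by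
  simp only [xx, incid]; split_ifs <;> norm_num

lemma xx_le (i u : V) (S : Finset V) : xx i u S ≤ 1 := by
  simp only [xx, incid]; split_ifs <;> norm_num

lemma xx_comm (i u : V) : xx i u = xx u i := by
  funext S; simp only [xx]; ring

namespace Pot

variable {σ : Swap G k} {r : V} (π : Pot σ r)

lemma tau_le {i u w : V} (huw : G.Adj u w)
    (hl : ∀ S, G.IsNIndepSet k S → i ∈ S → u ∈ S ∨ w ∈ S) :
    π.Φ (xx i u) u - π.Φ (xx i u) w ≤ 1 := by
  by_cases hT : π.T w u
  · rw [π.step _ w u hT]
    have := xx_le i u (insert u (σ.ctx w u))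
    have := xx_nonneg i u (insert w (σ.ctx w u))
    linarith
  · have one : ∀ p, π.T p u → p ≠ i → i ∉ σ.ctx p u := by
      intro p hp hpi hi
      have hA := π.adj p u hp
      rcases hl _ (σ.root hA) (mem_insert_of_mem hi) with h | h
      · rcases mem_insert.1 h with h | h
        · exact hA.ne h.symm
        · exact σ.notMem' hA h
      · rcases mem_insert.1 h with h | h
        · exact hT (h ▸ hp)
        · exact not_both (σ.root' hA) huw (mem_insert_self _ _) (mem_insert_of_mem h)
    have key : ∀ j, π.Φ (xx i u) j = π.Φ (xx i u) i ∨ π.Φ (xx i u) j = π.Φ (xx i u) i - 1 := by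
      intro j
      refine π.clos (fun j => π.Φ (xx i u) j = π.Φ (xx i u) i ∨
        π.Φ (xx i u) j = π.Φ (xx i u) i - 1) i j (fun p q hpq hp => ?_) (Or.inl rfl)
      have hA := π.adj p q hpq
      by_cases hq : q = i
      · left; rw [hq]
      · by_cases hpi : p = i
        · subst hpi
          rw [π.step _ p q hpq]
          have h1 : p ∉ insert q (σ.ctx p q) := by
            simp [σ.notMem hA, Ne.symm hq]
          by_cases h2 : u ∈ insert p (σ.ctx p q)
          · right; simp only [xx, incid, h1, h2, mem_insert_self, if_true, if_false]; ring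
          · left; simp only [xx, incid, h1, h2, mem_insert_self, if_true, if_false]; ring
        · have : π.Φ (xx i u) q = π.Φ (xx i u) p := by
            rw [π.step _ p q hpq]
            by_cases hi : i ∈ σ.ctx p q
            · have hqu : u ≠ q := fun h => one p (h ▸ hpq) hpi (h ▸ hi)
              have hpu : u ≠ p := fun h => one q (h ▸ π.symm _ _ hpq) hq
                (by rw [h, σ.symm]; exact hi)
              simp [xx, incid, hi, hqu, hpu]
            · simp [xx, incid, hi, Ne.symm hq, Ne.symm hpi]
          simp only [this]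
          exact hp
    rcases key u with h1 | h1 <;> rcases key w with h2 | h2 <;> linarith

lemma tau_ge {i u w : V} (huw : G.Adj u w) (hiu : i ≠ u)
    (hl : ∀ S, G.IsNIndepSet k S → i ∈ S ∨ u ∈ S ∨ w ∈ S) :
    π.Φ (xx i u) w ≤ π.Φ (xx i u) u := by
  have su : ∀ q, π.T u q → π.Φ (xx i u) q ≤ π.Φ (xx i u) u := by
    intro q hq
    have hA := π.adj u q hq
    rw [π.step _ u q hq]
    have := xx_nonneg i u (insert u (σ.ctx u q))
    have h1 : xx i u (insert q (σ.ctx u q)) = 0 := by
      simp [xx, incid, σ.notMem hA, hA.ne]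
    linarith
  by_cases hT : π.T u w
  · exact su w hT
  · have s1 : ∀ q, π.T u q → q ≠ i → π.Φ (xx i u) q = π.Φ (xx i u) u - 1 := by
      intro q hq hqi
      have hA := π.adj u q hq
      have hi : i ∈ σ.ctx u q := by
        rcases hl _ (σ.root' hA) with h | h | h
        · rcases mem_insert.1 h with h | h
          · exact (hqi h.symm).elim
          · exact h
        · rcases mem_insert.1 h with h | h
          · exact (hA.ne h).elim
          · exact (σ.notMem hA h).elim
        · rcases mem_insert.1 h with h | h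
          · exact (hT (h ▸ hq)).elim
          · exact (not_both (σ.root hA) huw (mem_insert_self _ _) (mem_insert_of_mem h)).elim
      rw [π.step _ u q hq]
      simp [xx, incid, σ.notMem hA, hA.ne, hi]
      ring
    have s3 : ∀ p, π.T p i → π.Φ (xx i u) i ≤ π.Φ (xx i u) p + 1 := by
      intro p hp
      rw [π.step _ p i hp]
      have := xx_le i u (insert i (σ.ctx p i))
      have := xx_nonneg i u (insert p (σ.ctx p i))
      linarith
    have si : ∀ q, π.T i q → π.Φ (xx i u) q ≤ π.Φ (xx i u) i := by
      intro q hq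
      have hA := π.adj i q hq
      rw [π.step _ i q hq]
      have := xx_nonneg i u (insert i (σ.ctx i q))
      have h1 : xx i u (insert q (σ.ctx i q)) = 0 := by
        simp [xx, incid, σ.notMem hA, hA.ne]
      linarith
    have s4 : ∀ p q, π.T p q → p ≠ i → p ≠ u → q ≠ i → q ≠ u →
        π.Φ (xx i u) q = π.Φ (xx i u) p := by
      intro p q hpq h1 h2 h3 h4
      rw [π.step _ p q hpq]
      simp [xx, incid, Ne.symm h1, Ne.symm h2, Ne.symm h3, Ne.symm h4]
    have k1 : π.Φ (xx i u) i ≤ π.Φ (xx i u) u := by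
      have := π.clos (fun j => j = u ∨ π.Φ (xx i u) j = π.Φ (xx i u) u - 1 ∨
        π.Φ (xx i u) i ≤ π.Φ (xx i u) u) u i (fun p q hpq hp => ?_) (Or.inl rfl)
      · rcases this with h | h | h
        · exact (hiu h).elim
        · linarith
        · exact h
      · by_cases hq : q = u
        · exact Or.inl hq
        by_cases hpu : p = u
        · subst hpu
          by_cases hqi : q = i
          · subst hqi
            exact Or.inr (Or.inr (su q hpq))
          · exact Or.inr (Or.inl (s1 q hpq hqi))
        rcases hp with h | h | h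
        · exact (hpu h).elim
        · by_cases hqi : q = i
          · subst hqi
            have := s3 p hpq
            exact Or.inr (Or.inr (by linarith))
          · by_cases hpi : p = i
            · subst hpi
              exact Or.inr (Or.inr (by linarith))
            · exact Or.inr (Or.inl (by rw [s4 p q hpq hpi hpu hqi hq, h]))
        · exact Or.inr (Or.inr h)
    refine π.clos (fun j => π.Φ (xx i u) j ≤ π.Φ (xx i u) u) u w (fun p q hpq hp => ?_) le_rfl
    by_cases hq : q = u
    · simp only [hq]; exact le_rfl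
    by_cases hqi : q = i
    · simp only [hqi]; exact k1
    by_cases hpu : p = u
    · subst hpu; exact su q hpq
    by_cases hpi : p = i
    · subst hpi; exact (si q hpq).trans k1
    · simp only [s4 p q hpq hpi hpu hqi hq]; exact hp

end Pot

end Pool.Agent.Lib.MP_2081ef_co
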