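import Pool.Agent.Lib.MP_2081ef_co.Potential

/-! The basic inequality for pseudo-measures. -/

namespace Pool.Agent.Lib.MP_2081ef_co

open Finset Filter Topology

variable {V : Type} [Fintype V] [DecidableEq V] {G : SimpleGraph V} {k : ℕ}

/-- indicator of equality -/
def ee (a b : V) : ℝ := if a = b then 1 else 0

lemma sum_ee (S : Finset V) (v : V) : ∑ t ∈ S, ee t v = incid S v := by
  simp [ee, incid]

lemma ee_self (a : V) : ee a a = 1 := by simp [ee]
lemma ee_nonneg (a b : V) : 0 ≤ ee a b := by simp only [ee]; split_ifs <;> norm_num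
lemma ee_le (a b : V) : ee a b ≤ 1 := by simp only [ee]; split_ifs <;> norm_num
lemma ee_ne {a b : V} (h : a ≠ b) : ee a b = 0 := by simp [ee, h]

namespace Pot

variable {σ : Swap G k} {r : V} (π : Pot σ r)

/-- the basic direction -/
def y1 (j v : V) : ℝ := π.Φ (xx j v) j + π.Φ (xx j v) v

lemma y1_symm (j v : V) : π.y1 j v = π.y1 v j := by
  simp only [y1, xx_comm j v]; ring

lemma phi_nest {i j : V} (h : ∀ S, G.IsNIndepSet k S → i ∈ S → j ∈ S) (t : V) :
    π.Φ (xx i j) t = ee t i - ee r i := by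
  refine π.lin0 _ 0 (fun t => ee t i) (fun S hS => ?_) t
  rw [sum_ee]
  by_cases hi : i ∈ S
  · simp [xx, incid, hi, h S hS hi]
  · simp [xx, incid, hi]

lemma phi_zero {i j : V} (h : ∀ S, G.IsNIndepSet k S → ¬ (i ∈ S ∧ j ∈ S)) (t : V) :
    π.Φ (xx i j) t = 0 := by
  have := π.lin0 (xx i j) 0 (fun _ => 0) (fun S hS => by
    have := h S hS
    simp only [xx, incid]
    split_ifs <;> first | (exfalso; tauto) | simp) t
  simpa using this

lemma y1_diag (v : V) : π.y1 v v = 2 - 2 * ee r v := by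
  simp only [y1, π.phi_nest (i := v) (j := v) (fun _ _ h => h), ee_self]; ring

lemma y1_E1 {i j : V} (h : ∀ S, G.IsNIndepSet k S → ¬ (i ∈ S ∧ j ∈ S)) : π.y1 i j = 0 := by
  simp [y1, π.phi_zero h]

lemma y1_E2 {i j : V} (h : ∀ S, G.IsNIndepSet k S → i ∈ S → j ∈ S) : π.y1 i j ≤ π.y1 i i := by
  rw [y1_diag]
  simp only [y1, π.phi_nest h, ee_self]
  have := ee_le j i
  linarith

lemma y1_E3 {i u w : V} (huw : G.Adj u w)
    (hl : ∀ S, G.IsNIndepSet k S → i ∈ S → u ∈ S ∨ w ∈ S) :
    π.y1 i u + π.y1 i w ≤ π.y1 i i := by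
  by_cases hw : w = i
  · subst hw
    rw [π.y1_E1 (i := w) (j := u) fun S hS hh => not_both hS huw hh.2 hh.1]
    simp
  have key : ∀ t, π.Φ (xx i w) t = (-1) * π.Φ (xx i u) t + ee t i - ee r i := by
    intro t
    refine π.lin _ _ (-1) 0 (fun t => ee t i) (fun S hS => ?_) t
    rw [sum_ee]
    have h1 := hl S hS
    have h2 := fun a b => not_both hS huw a b
    simp only [xx, incid]
    split_ifs <;> first | (exfalso; tauto) | norm_num
  have := π.tau_le huw hl
  rw [y1_diag]
  simp only [y1, key, ee_self, ee_ne hw]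
  linarith

lemma y1_C1 {i j : V} (h : ∀ S, G.IsNIndepSet k S → i ∈ S ∨ j ∈ S) :
    -2 ≤ - π.y1 i i - π.y1 j j + π.y1 i j := by
  have key : ∀ t, π.Φ (xx i j) t = (ee t i + ee t j) - (ee r i + ee r j) := by
    intro t
    refine π.lin0 _ (-1) (fun t => ee t i + ee t j) (fun S hS => ?_) t
    rw [sum_add_distrib, sum_ee, sum_ee]
    have h1 := h S hS
    simp only [xx, incid]
    split_ifs <;> first | (exfalso; tauto) | norm_num
  rw [y1_diag, y1_diag]
  simp only [y1, key, ee_self]
  have := ee_nonneg i j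
  have := ee_nonneg j i
  linarith

lemma y1_C2 {i u w : V} (huw : G.Adj u w)
    (hl : ∀ S, G.IsNIndepSet k S → i ∈ S ∨ u ∈ S ∨ w ∈ S) :
    -4 ≤ - π.y1 i i - π.y1 u u - π.y1 w w + π.y1 i u + π.y1 i w := by
  have key : ∀ t, π.Φ (xx i w) t = (-1) * π.Φ (xx i u) t + (ee t i + ee t u + ee t w)
      - (ee r i + ee r u + ee r w) := by
    intro t
    refine π.lin _ _ (-1) (-1) (fun t => ee t i + ee t u + ee t w) (fun S hS => ?_) t
    rw [sum_add_distrib, sum_add_distrib, sum_ee, sum_ee, sum_ee]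
    have h1 := hl S hS
    have h2 := fun a b => not_both hS huw a b
    simp only [xx, incid]
    split_ifs <;> first | (exfalso; tauto) | norm_num
  have ht : π.Φ (xx i u) w ≤ π.Φ (xx i u) u := by
    by_cases hiu : i = u
    · subst hiu
      simp only [π.phi_nest (i := i) (j := i) (fun _ _ h => h), ee_self]
      have := ee_le w i
      linarith
    · exact π.tau_ge huw hiu hl
  rw [y1_diag, y1_diag, y1_diag]
  simp only [y1, key, ee_self]
  have := ee_nonneg i u
  have := ee_nonneg i w
  have := ee_nonneg w i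
  have := ee_nonneg w u
  linarith

lemma y1_trace : ∑ v, π.y1 v v = 2 * (Fintype.card V : ℝ) - 2 := by
  simp only [y1_diag, sum_sub_distrib, ← mul_sum]
  simp [ee]
  ring

lemma y1_total : ∑ j, ∑ v, π.y1 j v = k * ∑ v, π.y1 v v := by
  have h1 : ∀ j, ∑ v, π.Φ (xx j v) j = k * π.Φ (xx j j) j := by
    intro j
    rw [← π.sum_eq (fun v => xx j v) j]
    have := π.lin (fun S => ∑ v, xx j v S) (xx j j) k 0 (fun _ => 0) (fun S hS => by
      simp only [xx, ← mul_sum]
      have : ∑ v, incid S v = k := by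
        simp [incid, hS.card_eq]
      rw [this]
      simp only [incid]
      split_ifs <;> simp) j
    rw [this]; ring
  have h2 : ∀ v, ∑ j, π.Φ (xx j v) v = k * π.Φ (xx v v) v := by
    intro v
    rw [← h1 v]
    exact sum_congr rfl fun j _ => by rw [xx_comm]
  simp only [y1, sum_add_distrib]
  rw [sum_comm (f := fun j v => π.Φ (xx j v) v)]
  simp only [h1, h2, ← mul_sum]
  ring

end Pot

/-- the finite family of stable sets of size `k` -/
noncomputable def roots (G : SimpleGraph V) (k : ℕ) : Finset (Finset V) := by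
  classical exact univ.filter fun S => G.IsNIndepSet k S

lemma mem_roots {S : Finset V} : S ∈ roots G k ↔ G.IsNIndepSet k S := by
  simp [roots]

lemma sum_chi (c : Option V → ℝ) (S : Finset V) :
    ∑ p, c p * chi S p = c none + ∑ v ∈ S, c (some v) := by
  simp [Fintype.sum_option, chi]

theorem propP (σ : Swap G k) (hn : 2 * k + 2 ≤ Fintype.card V)
    (hval : ∀ x ∈ LSplus (ESTAB G), ∑ v, x v ≤ k)
    (y : V → V → ℝ) (hsym : ∀ i j, y i j = y j i)
    (E1 : ∀ i j, (∀ S, G.IsNIndepSet k S → ¬ (i ∈ S ∧ j ∈ S)) → 0 ≤ y i j)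
    (E2 : ∀ i j, (∀ S, G.IsNIndepSet k S → i ∈ S → j ∈ S) → y i j ≤ y i i)
    (E3 : ∀ i u w, G.Adj u w → (∀ S, G.IsNIndepSet k S → i ∈ S → u ∈ S ∨ w ∈ S) →
      y i u + y i w ≤ y i i) :
    ∑ i, ∑ j, y i j ≤ k * ∑ i, y i i := by
  by_contra hQ
  push Not at hQ
  obtain ⟨r⟩ := σ.conn.nonempty
  obtain ⟨π⟩ := exists_pot σ r
  obtain ⟨p0, -, -, hp0, -⟩ := σ.two r
  have hk : 0 < k := by
    rw [← (σ.root hp0).card_eq]; exact card_pos.2 ⟨r, mem_insert_self _ _⟩
  have hk' : (0 : ℝ) < k := by exact_mod_cast hk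
  have hn' : 2 * (k : ℝ) + 2 ≤ Fintype.card V := by exact_mod_cast hn
  set Q : ℝ := ∑ i, ∑ j, y i j - k * ∑ i, y i i with hQd
  have hQ0 : 0 < Q := sub_pos.2 hQ
  set z0 : ℝ := (∑ i, y i i) / k - Q / (2 * k ^ 2) with hz0
  set z1 : ℝ := (2 * (Fintype.card V : ℝ) - 2) / k with hz1
  have hδ : 0 < z1 - 4 := by
    rw [hz1, sub_pos, lt_div_iff₀ hk']; linarith
  obtain ⟨B1, hB1⟩ := (Set.finite_range fun t : V × V =>
    -(z0 - y t.1 t.1 - y t.2 t.2 + y t.1 t.2)).bddAbove
  obtain ⟨B2, hB2⟩ := (Set.finite_range fun t : V × V × V =>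
    -(z0 - y t.1 t.1 - y t.2.1 t.2.1 - y t.2.2 t.2.2 + y t.1 t.2.1 + y t.1 t.2.2)).bddAbove
  set M : ℝ := (|B1| + |B2|) / (z1 - 4) with hM
  have hM0 : 0 ≤ M := by positivity
  have hMδ : M * (z1 - 4) = |B1| + |B2| := by rw [hM]; field_simp
  set W : V → V → ℝ := fun i j => y i j + M * π.y1 i j with hW
  set Z : Option V → Option V → ℝ := fun p q =>
    match p, q with
    | none, none => z0 + M * z1
    | none, some j => W j j
    | some i, none => W i i
    | some i, some j => W i j with hZ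
  set s : Option V → ℝ := fun p => p.elim (k : ℝ) (fun _ => -1) with hs
  have tr : ∑ i, W i i = ∑ i, y i i + M * (k * z1) := by
    simp only [hW, sum_add_distrib, ← mul_sum, π.y1_trace, hz1]
    field_simp
  have tot : ∑ i, ∑ j, W i j = ∑ i, ∑ j, y i j + M * (k * (k * z1)) := by
    simp only [hW, sum_add_distrib, ← mul_sum, π.y1_total, π.y1_trace, hz1]
    field_simp
  have kz : k * z0 = ∑ i, y i i - Q / (2 * k) := by
    rw [hz0]; field_simp
  obtain ⟨x, hx, hlt⟩ := perturb G (roots G k) (fun S hS => (mem_roots.1 hS).isIndepSet)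
    ⟨_, mem_roots.2 (σ.root hp0)⟩ s
    (fun S hS => by rw [sum_chi]; simp [hs, (mem_roots.1 hS).card_eq])
    (fun c hc => by
      have h1 : ∀ j, c (some j) = c (some r) := fun j =>
        π.clos (fun j => c (some j) = c (some r)) r j (fun p q hpq hp => by
          have hA := π.adj p q hpq
          have a1 := hc _ (mem_roots.2 (σ.root hA))
          have a2 := hc _ (mem_roots.2 (σ.root' hA))
          rw [sum_chi, sum_insert (σ.notMem hA)] at a1
          rw [sum_chi, sum_insert (σ.notMem' hA)] at a2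
          linarith) rfl
      refine ⟨- c (some r), funext fun p => ?_⟩
      cases p with
      | none =>
        have a1 := hc _ (mem_roots.2 (σ.root hp0))
        rw [sum_chi] at a1
        simp only [h1, sum_const, (σ.root hp0).card_eq, nsmul_eq_mul] at a1
        simp only [hs, Pi.smul_apply, Option.elim, smul_eq_mul]
        linarith
      | some j => simp [hs, h1 j])
    Z
    (fun p q => by
      cases p <;> cases q <;> simp only [hZ, hW]
      rw [hsym, π.y1_symm])
    (fun i => rfl)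
    (fun i j h => by
      have h' : ∀ S, G.IsNIndepSet k S → ¬ (i ∈ S ∧ j ∈ S) := fun S hS => h S (mem_roots.2 hS)
      simp only [hZ, hW, π.y1_E1 h']
      have := E1 i j h'
      linarith)
    (fun i j h => by
      have h' : ∀ S, G.IsNIndepSet k S → i ∈ S → j ∈ S := fun S hS => h S (mem_roots.2 hS)
      simp only [hZ, hW]
      have := E2 i j h'
      have := mul_le_mul_of_nonneg_left (π.y1_E2 h') hM0
      linarith)
    (fun i u w huw h => by
      have h' : ∀ S, G.IsNIndepSet k S → i ∈ S → u ∈ S ∨ w ∈ S :=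
        fun S hS => h S (mem_roots.2 hS)
      simp only [hZ, hW]
      have := E3 i u w huw h'
      have := mul_le_mul_of_nonneg_left (π.y1_E3 huw h') hM0
      linarith)
    (fun i j h => by
      have h' : ∀ S, G.IsNIndepSet k S → i ∈ S ∨ j ∈ S := fun S hS => h S (mem_roots.2 hS)
      simp only [hZ, hW]
      have a1 := hB1 (Set.mem_range_self (i, j))
      have a2 := mul_le_mul_of_nonneg_left (π.y1_C1 h') hM0
      have := le_abs_self B1
      have := abs_nonneg B2
      simp only at a1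
      nlinarith)
    (fun i u w huw h => by
      have h' : ∀ S, G.IsNIndepSet k S → i ∈ S ∨ u ∈ S ∨ w ∈ S :=
        fun S hS => h S (mem_roots.2 hS)
      simp only [hZ, hW]
      have a1 := hB2 (Set.mem_range_self (i, u, w))
      have a2 := mul_le_mul_of_nonneg_left (π.y1_C2 huw h') hM0
      have := le_abs_self B2
      have := abs_nonneg B1
      simp only at a1
      nlinarith)
    (by
      simp only [Fintype.sum_option, hZ, hs, Option.elim, mul_neg, mul_one, sum_neg_distrib, tr]
      have : 0 < Q / (2 * k) := by positivity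
      nlinarith)
    (by
      simp only [Fintype.sum_option, hZ, hs, Option.elim, mul_neg, mul_one, sum_neg_distrib,
        neg_mul, one_mul, sum_add_distrib, ← mul_sum, ← sum_mul, tr, tot]
      have e1 : (k : ℝ) * (Q / (2 * k)) = Q / 2 := by field_simp
      have e2 : (k : ℝ) * (k * z0) = k * ∑ i, y i i - Q / 2 := by rw [kz, mul_sub, e1]
      nlinarith)
  have := hval x hx
  simp only [hs, Option.elim, neg_mul, one_mul, sum_neg_distrib] at hlt
  linarith

end Pool.Agent.Lib.MP_2081ef_co
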