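import Pool.Agent.Lib.MP_2081ef_co.Hajnal
import Pool.Agent.Lib.MP_2081ef_co.Cyc
import Pool.Agent.Lib.MP_2081ef_co.CritDefs

/-! Recognition of antiwebs. -/

namespace Pool.Agent.Lib.MP_2081ef_co

open Finset

variable {V : Type} [Fintype V] [DecidableEq V] {G : SimpleGraph V} {k : ℕ}

theorem Swap.web (σ : Swap G k) (hk : 2 ≤ k) (hval : ∀ x ∈ LSplus (ESTAB G), ∑ v, x v ≤ k) :
    Nonempty (G ≃g antiweb (Fintype.card V) k) := by
  obtain ⟨m, hm0, e, hm3, he⟩ := exists_cycle σ.H σ.conn σ.two
    fun v p q hpq hp hq => (σ.local_structure hk hval hpq hp hq).1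
  have hmV : Fintype.card V = m := by rw [← Fintype.card_congr e, ZMod.card]
  have hkm : k ≤ m := by have := σ.card_ge; omega
  rw [hmV]
  set A : ZMod m → ZMod m → Prop := fun t s => e s ∈ σ.ctx (e t) (e (t + 1)) with hA
  have h2 : ∀ t : ZMod m, e (t + 1) ≠ e (t - 1) := fun t h => by
    have h1 := e.injective h
    have : ((2 : ℕ) : ZMod m) = 0 := by push_cast; linear_combination h1
    rw [ZMod.natCast_eq_zero_iff] at this
    have := Nat.le_of_dvd (by omega) this
    omega
  have he' : ∀ t : ZMod m, σ.H.Adj (e t) (e (t - 1)) := fun t => by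
    have := (he (t - 1)).symm
    rwa [sub_add_cancel] at this
  have hc : ∀ t s : ZMod m, e s ∈ σ.ctx (e t) (e (t - 1)) ↔ A (t - 1) s := fun t s => by
    simp only [hA, sub_add_cancel, σ.symm (e t)]
  have X : ∀ t s, A t s → A (t - 1) s → False := fun t s a b =>
    disjoint_left.1 (σ.local_structure hk hval (h2 t) (he t) (he' t)).2.1 a ((hc t s).2 b)
  have O : ∀ t s, s ≠ t → ¬ G.Adj (e t) (e s) → A t s ∨ A (t - 1) s := fun t s a b => by
    rw [← hc]
    exact (σ.local_structure hk hval (h2 t) (he t) (he' t)).2.2 _ (e.injective.ne a) b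
  have N1 : ∀ t s, A t s → s ≠ t := fun t s a h => σ.notMem (he t) (by rw [h] at a; exact a)
  have N2 : ∀ t s, A t s → ¬ G.Adj (e t) (e s) := fun t s a => σ.ctx_nadj (he t) a
  have N3 : ∀ t s, A t s → s ≠ t + 1 := fun t s a h => σ.notMem' (he t) (by rw [h] at a; exact a)
  have N4 : ∀ t s, A t s → ¬ G.Adj (e (t + 1)) (e s) := fun t s a hA' =>
    not_both (σ.root' (he t)) hA' (mem_insert_self _ _) (mem_insert_of_mem a)
  have St : ∀ t s s', A t s → A t s' → ¬ G.Adj (e s) (e s') := fun t s s' a b hA' =>
    not_both (σ.root (he t)) hA' (mem_insert_of_mem a) (mem_insert_of_mem b)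
  have move : ∀ t s, A t s → A s t → A (t + 1) (s - 1) ∧ A (s - 1) (t + 1) := fun t s a b => by
    have c : A (s - 1) (t + 1) := by
      rcases O s (t + 1) (N3 t s a).symm (fun h => N4 t s a h.symm) with h | h
      · exact (St s t (t + 1) b h (σ.adj (he t))).elim
      · exact h
    refine ⟨?_, c⟩
    rcases O (t + 1) (s - 1) (N1 _ _ c).symm (fun h => N2 _ _ c h.symm) with h | h
    · exact h
    · rw [add_sub_cancel_right] at h
      exact (St t s (s - 1) a h (σ.adj (he' s))).elim
  have asym : ∀ t s, A t s → A s t → False := fun t s a b => by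
    have it : ∀ j : ℕ, A (t + j) (s - j) ∧ A (s - j) (t + j) := fun j => by
      induction j with
      | zero => simpa using ⟨a, b⟩
      | succ j ih =>
        have := move _ _ ih.1 ih.2
        rwa [show t + j + 1 = t + ((j + 1 : ℕ) : ZMod m) by push_cast; ring,
          show s - j - 1 = s - ((j + 1 : ℕ) : ZMod m) by push_cast; ring] at this
    have hd : (((s - t).val : ℕ) : ZMod m) = s - t := by simp
    rcases Nat.even_or_odd' (s - t).val with ⟨j, hj | hj⟩
    · rw [hj] at hd
      push_cast at hd
      exact N1 _ _ (it j).1 (by linear_combination -hd)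
    · rw [hj] at hd
      push_cast at hd
      exact N3 _ _ (it j).1 (by linear_combination -hd)
  have flip : ∀ t s, A t s → A (s - 1) t := fun t s a => by
    rcases O s t (N1 t s a).symm (fun h => N2 t s a h.symm) with h | h
    · exact (asym t s a h).elim
    · exact h
  have shift : ∀ t s j, A t s → A (t - j) (s - j) := fun t s j a => by
    have it : ∀ j : ℕ, A (t - j) (s - j) := fun j => by
      induction j with
      | zero => simpa using a
      | succ j ih =>
        have := flip _ _ (flip _ _ ih)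
        rwa [show t - j - 1 = t - ((j + 1 : ℕ) : ZMod m) by push_cast; ring,
          show s - j - 1 = s - ((j + 1 : ℕ) : ZMod m) by push_cast; ring] at this
    have := it j.val
    simpa using this
  set N : Finset (ZMod m) := (σ.ctx (e 0) (e (0 + 1))).map e.symm.toEmbedding with hN
  have mN0 : ∀ d, d ∈ N ↔ A 0 d := fun d => by
    simp only [hN, hA, mem_map_equiv, Equiv.symm_symm]
  have mN : ∀ t s, A t s ↔ s - t ∈ N := fun t s => by
    rw [mN0]
    constructor
    · intro a
      have := shift t s t a
      rwa [sub_self] at this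
    · intro a
      have := shift _ _ (-t) a
      rwa [show 0 - -t = t by ring, show s - t - -t = s by ring] at this
  have adj_iff : ∀ t s, G.Adj (e t) (e s) ↔ t ≠ s ∧ t - s ∉ N ∧ s - t ∉ N := fun t s => by
    constructor
    · intro h
      exact ⟨fun h' => h.ne (by rw [h']), fun h' => N2 s t ((mN s t).2 h') h.symm,
        fun h' => N2 t s ((mN t s).2 h') h⟩
    · rintro ⟨a, b, c⟩
      by_contra h
      rcases O t s a.symm h with h' | h'
      · exact c ((mN t s).1 h')
      · have := (mN _ _).1 (flip _ _ h')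
        rw [show t - 1 - (s - 1) = t - s by ring] at this
        exact b this
  obtain ⟨⟨u, hu⟩, hchar⟩ := circ m k hk hkm N
    (by rw [hN, card_map]; exact σ.card_ctx (he 0))
    (fun h => N1 0 0 ((mN0 0).1 h) rfl)
    (fun d hd => by
      have := (mN _ _).1 (flip _ _ ((mN0 d).1 hd))
      rwa [show 0 - (d - 1) = 1 - d by ring] at this)
    (fun h => N2 0 (-1) ((mN0 _).1 h) (by simpa using σ.adj (he' 0)))
    (fun d hd h => asym 0 d ((mN0 d).1 hd) ((mN d 0).2 (by simpa using h)))
    (fun x hx y hy hxy => by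
      have : ¬ G.Adj (e x) (e y) := fun h => by
        refine not_both (σ.root (he 0)) h ?_ ?_
        · rcases mem_insert.1 hx with rfl | hx
          · exact mem_insert_self _ _
          · exact mem_insert_of_mem ((mN0 x).1 hx)
        · rcases mem_insert.1 hy with rfl | hy
          · exact mem_insert_self _ _
          · exact mem_insert_of_mem ((mN0 y).1 hy)
      rw [adj_iff] at this
      tauto)
  have kinj : ∀ a b : ZMod m, (k : ZMod m) * a = k * b → a = b := fun a b h => by
    linear_combination u * h - (a - b) * hu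
  let φ : ZMod m → Fin m := fun x => ⟨((k : ZMod m) * x).val, ZMod.val_lt _⟩
  have φinj : Function.Injective φ := fun a b h =>
    kinj a b (ZMod.val_injective m (by simpa [φ] using h))
  have φbij : Function.Bijective φ :=
    (Fintype.bijective_iff_injective_and_card φ).2 ⟨φinj, by simp⟩
  refine ⟨⟨e.symm.trans (Equiv.ofBijective φ φbij), fun {a b} => ?_⟩⟩
  obtain ⟨t, rfl⟩ := e.surjective a
  obtain ⟨s, rfl⟩ := e.surjective b
  simp only [Equiv.trans_apply, Equiv.symm_apply_apply, Equiv.ofBijective_apply, φ]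
  rw [antiweb_iff m k hkm, adj_iff, hchar, hchar, mul_sub, mul_sub]
  exact and_congr_left fun _ => ⟨fun h h' => h (by rw [h']), fun h h' => h (kinj _ _ h')⟩

lemma crit_ctx {p q : V} (h : (crit G).Adj p q) :
    ∃ I : Finset V, p ∉ I ∧ q ∉ I ∧ G.IsNIndepSet G.indepNum (insert p I) ∧
      G.IsNIndepSet G.indepNum (insert q I) := by
  obtain ⟨hA, hlt⟩ := h
  obtain ⟨S, hS⟩ := (G.deleteEdges {s(p, q)}).exists_isNIndepSet_indepNum
  have key : ∀ T ⊆ S, (p ∉ T ∨ q ∉ T) → G.IsIndepSet (T : Set V) := fun T hT hpq a ha b hb hab h =>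
    hS.isIndepSet (hT ha) (hT hb) hab (by
      rw [SimpleGraph.deleteEdges_adj]
      refine ⟨h, fun h' => ?_⟩
      rw [Set.mem_singleton_iff, Sym2.eq_iff] at h'
      rcases h' with ⟨rfl, rfl⟩ | ⟨rfl, rfl⟩
      · exact hpq.elim (fun h => h ha) (fun h => h hb)
      · exact hpq.elim (fun h => h hb) (fun h => h ha))
  have hc := hS.card_eq
  have hp : p ∈ S := by
    by_contra h
    have := (key S Subset.rfl (Or.inl h)).card_le_indepNum
    omega
  have hq : q ∈ S := by
    by_contra h
    have := (key S Subset.rfl (Or.inr h)).card_le_indepNum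
    omega
  have e1 : insert p ((S.erase p).erase q) = S.erase q := by
    rw [erase_right_comm, insert_erase (mem_erase.2 ⟨hA.ne, hp⟩)]
  have e2 : insert q ((S.erase p).erase q) = S.erase p := by
    rw [insert_erase (mem_erase.2 ⟨hA.ne.symm, hq⟩)]
  have i1 := key (S.erase q) (erase_subset _ _) (Or.inr (notMem_erase _ _))
  have i2 := key (S.erase p) (erase_subset _ _) (Or.inl (notMem_erase _ _))
  have c1 := i1.card_le_indepNum
  have c2 := i2.card_le_indepNum
  have d1 := card_erase_of_mem hq
  have d2 := card_erase_of_mem hp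
  refine ⟨(S.erase p).erase q, by simp, by simp, ?_, ?_⟩
  · rw [e1]; exact ⟨i1, by omega⟩
  · rw [e2]; exact ⟨i2, by omega⟩

lemma exists_swap (h : CritTwo G) : Nonempty (Swap G G.indepNum) := by
  have : ∀ z : Sym2 V, ∃ I : Finset V, z ∈ (crit G).edgeSet →
      ∀ v ∈ z, v ∉ I ∧ G.IsNIndepSet G.indepNum (insert v I) := by
    intro z
    induction z using Sym2.ind with
    | h p q =>
      by_cases hz : (crit G).Adj p q
      · obtain ⟨I, a, b, c, d⟩ := crit_ctx hz
        refine ⟨I, fun _ v hv => ?_⟩
        rcases Sym2.mem_iff.1 hv with rfl | rfl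
        · exact ⟨a, c⟩
        · exact ⟨b, d⟩
      · exact ⟨∅, fun h => (hz h).elim⟩
  choose c hc using this
  exact ⟨⟨crit G, fun p q => c s(p, q), fun h => h.1, fun p q => by rw [Sym2.eq_swap],
    fun {p q} h => (hc s(p, q) h p (Sym2.mem_mk_left _ _)).1,
    fun {p q} h => (hc s(p, q) h p (Sym2.mem_mk_left _ _)).2, h.1, h.2,
    fun S hS => hS.card_le_indepNum⟩⟩

theorem thmA (h : CritTwo G) (hval : ∀ x ∈ LSplus (ESTAB G), ∑ v, x v ≤ G.indepNum) :
    Nonempty (G ≃g antiweb (Fintype.card V) G.indepNum) := by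
  obtain ⟨σ⟩ := exists_swap h
  by_cases hk : 2 ≤ G.indepNum
  · exact σ.web hk hval
  · obtain ⟨v⟩ := σ.conn.nonempty
    obtain ⟨p, -, -, hp, -⟩ := σ.two v
    have h1 : G.indepNum = 1 := by have := σ.card_ctx hp; omega
    refine ⟨⟨Fintype.equivFin V, fun {a b} => ?_⟩⟩
    rw [h1]
    constructor
    · intro hab
      have hne : a ≠ b := fun h' => hab.1 (by rw [h'])
      by_contra hA
      have : G.IsIndepSet (({a, b} : Finset V) : Set V) := by
        intro x hx y hy hxy hA'
        simp only [coe_insert, coe_singleton, Set.mem_insert_iff, Set.mem_singleton_iff] at hx hy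
        rcases hx with rfl | rfl <;> rcases hy with rfl | rfl
        · exact hxy rfl
        · exact hA hA'
        · exact hA hA'.symm
        · exact hxy rfl
      have := this.card_le_indepNum
      rw [card_pair hne] at this
      omega
    · intro hab
      have hne : Fintype.equivFin V a ≠ Fintype.equivFin V b := (Fintype.equivFin V).injective.ne hab.ne
      have ha := (Fintype.equivFin V a).isLt
      have hb := (Fintype.equivFin V b).isLt
      have := Fin.val_ne_of_ne hne
      refine ⟨hne, ?_, ?_⟩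
      · rw [le_abs]; omega
      · rw [abs_le]; omega

end Pool.Agent.Lib.MP_2081ef_co
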